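import Pool.Agent.P8H18.MF.Loc

/-! The fourth moment of the number of points of `y² = x³ + a x + b` over a finite field. -/

set_option autoImplicit false
set_option linter.unusedSectionVars false

namespace Pool.Agent.P8H18.MF

open Finset

variable {F : Type*} [Field F] [Fintype F] [DecidableEq F]

/-- sum over the cubics, in Newton form -/
theorem newton (x₁ x₂ x₃ : F) (Ψ : F → F → F → ℤ) :
    ∑ c₂ : F, ∑ c₁ : F, ∑ c₀ : F, Ψ c₂ c₁ c₀ =
      ∑ f : F, ∑ e : F, ∑ c : F, Ψ (-(x₁ + x₂ + x₃) + f)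
        ((x₁ * x₂ + x₁ * x₃ + x₂ * x₃ - (x₁ + x₂) * f) + e)
        ((-(x₁ * e) + x₁ * x₂ * f - x₁ * x₂ * x₃) + c) := by
  rw [← sum_shift (fun c₂ => ∑ c₁ : F, ∑ c₀ : F, Ψ c₂ c₁ c₀) (-(x₁ + x₂ + x₃))]
  refine sum_congr rfl fun f _ => ?_
  rw [← sum_shift (fun c₁ => ∑ c₀ : F, Ψ (-(x₁ + x₂ + x₃) + f) c₁ c₀)
    (x₁ * x₂ + x₁ * x₃ + x₂ * x₃ - (x₁ + x₂) * f)]
  refine sum_congr rfl fun e _ => ?_
  rw [← sum_shift (fun c₀ => Ψ (-(x₁ + x₂ + x₃) + f)
    ((x₁ * x₂ + x₁ * x₃ + x₂ * x₃ - (x₁ + x₂) * f) + e) c₀)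
    (-(x₁ * e) + x₁ * x₂ * f - x₁ * x₂ * x₃)]

/-- value of the cubic -/
def gc (c₂ c₁ c₀ x : F) : F := x ^ 3 + c₂ * x ^ 2 + c₁ * x + c₀

theorem gc_newton (x₁ x₂ x₃ f e c x : F) :
    gc (-(x₁ + x₂ + x₃) + f) ((x₁ * x₂ + x₁ * x₃ + x₂ * x₃ - (x₁ + x₂) * f) + e)
      ((-(x₁ * e) + x₁ * x₂ * f - x₁ * x₂ * x₃) + c) x =
      c + (x - x₁) * (e + (x - x₂) * (f + (x - x₃))) := by
  unfold gc
  ring

/-- the sum of the products of four values -/
noncomputable def H4 (x y z w : F) : ℤ := ∑ c₂ : F, ∑ c₁ : F, ∑ c₀ : F,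
  quadraticChar F (gc c₂ c₁ c₀ x) * quadraticChar F (gc c₂ c₁ c₀ y) *
    quadraticChar F (gc c₂ c₁ c₀ z) * quadraticChar F (gc c₂ c₁ c₀ w)

theorem H4_newton (x₁ x₂ x₃ x y z w : F) : H4 x y z w = ∑ f : F, ∑ e : F, ∑ c : F,
    quadraticChar F (c + (x - x₁) * (e + (x - x₂) * (f + (x - x₃)))) *
    quadraticChar F (c + (y - x₁) * (e + (y - x₂) * (f + (y - x₃)))) *
    quadraticChar F (c + (z - x₁) * (e + (z - x₂) * (f + (z - x₃)))) *
    quadraticChar F (c + (w - x₁) * (e + (w - x₂) * (f + (w - x₃)))) := by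
  unfold H4
  rw [newton x₁ x₂ x₃]
  simp only [gc_newton]

theorem sum_lin (h6 : (6 : F) ≠ 0) (α : F) {β : F} (hβ : β ≠ 0) :
    ∑ f : F, quadraticChar F (α + β * f) = 0 := by
  rw [sum_scale (fun f => quadraticChar F (α + f)) hβ, sum_shift, sum_chi h6]

theorem sum_lin2 (h6 : (6 : F) ≠ 0) (α γ : F) {β δ : F} (hβ : β ≠ 0) (hδ : δ ≠ 0) :
    ∑ f : F, quadraticChar F (α + β * f) * quadraticChar F (γ + δ * f) =
      quadraticChar F (β * δ) * (if α * δ = γ * β then (Fintype.card F : ℤ) - 1 else -1) := by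
  have h1 := W165.CE.sum_quad (ringChar_ne h6) (β * δ) (α * δ + γ * β) (α * γ) (mul_ne_zero hβ hδ)
  have h2 : ∀ f : F, quadraticChar F (α + β * f) * quadraticChar F (γ + δ * f) =
      quadraticChar F (β * δ * f ^ 2 + (α * δ + γ * β) * f + α * γ) := by
    intro f
    rw [← map_mul]
    congr 1
    ring
  simp_rw [h2]
  rw [h1]
  congr 1
  have h3 : ((α * δ + γ * β) ^ 2 - 4 * (β * δ) * (α * γ) = 0) ↔ (α * δ = γ * β) := by
    have : (α * δ + γ * β) ^ 2 - 4 * (β * δ) * (α * γ) = (α * δ - γ * β) ^ 2 := by ring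
    rw [this, pow_eq_zero_iff (by norm_num), sub_eq_zero]
  simp only [h3]

theorem chi_cube (x : F) : quadraticChar F x * quadraticChar F x * quadraticChar F x =
    quadraticChar F x := by
  rcases quadraticChar_isQuadratic F x with h | h | h <;> rw [h] <;> norm_num

/-- symmetries -/
theorem H4_swap12 (x y z w : F) : H4 x y z w = H4 y x z w := by
  unfold H4
  exact sum_congr rfl fun _ _ => sum_congr rfl fun _ _ => sum_congr rfl fun _ _ => by ring

theorem H4_swap23 (x y z w : F) : H4 x y z w = H4 x z y w := by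
  unfold H4
  exact sum_congr rfl fun _ _ => sum_congr rfl fun _ _ => sum_congr rfl fun _ _ => by ring

theorem H4_swap34 (x y z w : F) : H4 x y z w = H4 x y w z := by
  unfold H4
  exact sum_congr rfl fun _ _ => sum_congr rfl fun _ _ => sum_congr rfl fun _ _ => by ring

/-- four distinct points -/
theorem H4_distinct (h6 : (6 : F) ≠ 0) {x₁ x₂ x₃ x₄ : F} (h12 : x₁ ≠ x₂) (h13 : x₁ ≠ x₃)
    (h14 : x₁ ≠ x₄) (h23 : x₂ ≠ x₃) (h24 : x₂ ≠ x₄) (h34 : x₃ ≠ x₄) :
    H4 x₁ x₂ x₃ x₄ = -(Fintype.card F : ℤ) := by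
  have d21 : x₂ - x₁ ≠ 0 := sub_ne_zero.2 h12.symm
  have d31 : x₃ - x₁ ≠ 0 := sub_ne_zero.2 h13.symm
  have d41 : x₄ - x₁ ≠ 0 := sub_ne_zero.2 h14.symm
  have d32 : x₃ - x₂ ≠ 0 := sub_ne_zero.2 h23.symm
  have d42 : x₄ - x₂ ≠ 0 := sub_ne_zero.2 h24.symm
  have d43 : x₄ - x₃ ≠ 0 := sub_ne_zero.2 h34.symm
  set β := (x₃ - x₁) * (x₃ - x₂) with hβ
  set δ := (x₄ - x₁) * (x₄ - x₂) with hδ
  set p := (x₃ - x₁) * (x₄ - x₁) with hp
  set p' := (x₃ - x₂) * (x₄ - x₂) with hp'
  set σ := x₃ + x₄ - x₁ - x₂ with hσ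
  have hβ0 : β ≠ 0 := mul_ne_zero d31 d32
  have hδ0 : δ ≠ 0 := mul_ne_zero d41 d42
  have hp0 : p ≠ 0 := mul_ne_zero d31 d41
  have hp'0 : p' ≠ 0 := mul_ne_zero d32 d42
  rw [H4_newton x₁ x₂ x₃]
  -- reorder: c, e outside, f inside
  rw [sum_comm]
  rw [sum_congr rfl fun e _ => sum_comm]
  have h1 : ∀ e c : F, ∑ f : F,
      quadraticChar F (c + (x₁ - x₁) * (e + (x₁ - x₂) * (f + (x₁ - x₃)))) *
      quadraticChar F (c + (x₂ - x₁) * (e + (x₂ - x₂) * (f + (x₂ - x₃)))) *
      quadraticChar F (c + (x₃ - x₁) * (e + (x₃ - x₂) * (f + (x₃ - x₃)))) *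
      quadraticChar F (c + (x₄ - x₁) * (e + (x₄ - x₂) * (f + (x₄ - x₃)))) =
      quadraticChar F c * quadraticChar F (c + (x₂ - x₁) * e) * (quadraticChar F (β * δ) *
        ((if e = (δ * β - c * σ) / p then (Fintype.card F : ℤ) else 0) - 1)) := by
    intro e c
    have h2 := sum_lin2 h6 (c + (x₃ - x₁) * e)
      (c + (x₄ - x₁) * (e + (x₄ - x₂) * (x₄ - x₃))) hβ0 hδ0
    have h3 : ((c + (x₃ - x₁) * e) * δ = (c + (x₄ - x₁) * (e + (x₄ - x₂) * (x₄ - x₃))) * β) ↔
        e = (δ * β - c * σ) / p := by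
      rw [eq_div_iff hp0]
      have h4 : (c + (x₃ - x₁) * e) * δ - (c + (x₄ - x₁) * (e + (x₄ - x₂) * (x₄ - x₃))) * β =
          (x₄ - x₃) * (e * p - (δ * β - c * σ)) := by
        rw [hβ, hδ, hp, hσ]
        ring
      constructor
      · intro h
        have h5 : (x₄ - x₃) * (e * p - (δ * β - c * σ)) = 0 := by
          rw [← h4, h, sub_self]
        exact sub_eq_zero.1 ((mul_eq_zero.1 h5).resolve_left d43)
      · intro h
        rw [← sub_eq_zero, h4, h, sub_self, mul_zero]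
    have h5 : (if (c + (x₃ - x₁) * e) * δ = (c + (x₄ - x₁) * (e + (x₄ - x₂) * (x₄ - x₃))) * β
        then (Fintype.card F : ℤ) - 1 else -1) =
        (if e = (δ * β - c * σ) / p then (Fintype.card F : ℤ) else 0) - 1 := by
      by_cases h : e = (δ * β - c * σ) / p
      · rw [if_pos (h3.2 h), if_pos h]
      · rw [if_neg (fun h' => h (h3.1 h')), if_neg h, zero_sub]
    rw [← h5, ← h2, mul_sum]
    refine sum_congr rfl fun f _ => ?_
    have e1 : c + (x₁ - x₁) * (e + (x₁ - x₂) * (f + (x₁ - x₃))) = c := by ring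
    have e2 : c + (x₂ - x₁) * (e + (x₂ - x₂) * (f + (x₂ - x₃))) = c + (x₂ - x₁) * e := by ring
    have e3 : c + (x₃ - x₁) * (e + (x₃ - x₂) * (f + (x₃ - x₃))) =
        c + (x₃ - x₁) * e + β * f := by rw [hβ]; ring
    have e4 : c + (x₄ - x₁) * (e + (x₄ - x₂) * (f + (x₄ - x₃))) =
        c + (x₄ - x₁) * (e + (x₄ - x₂) * (x₄ - x₃)) + δ * f := by rw [hδ]; ring
    rw [e1, e2, e3, e4]
    ring
  simp_rw [h1]
  rw [sum_comm]
  have h2 : ∀ c : F, ∑ e : F, quadraticChar F c * quadraticChar F (c + (x₂ - x₁) * e) *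
      (quadraticChar F (β * δ) *
        ((if e = (δ * β - c * σ) / p then (Fintype.card F : ℤ) else 0) - 1)) =
      Fintype.card F * (quadraticChar F c * quadraticChar F (c + (x₂ - x₁) * p)) := by
    intro c
    have h3 : ∀ e : F, quadraticChar F c * quadraticChar F (c + (x₂ - x₁) * e) *
        (quadraticChar F (β * δ) *
          ((if e = (δ * β - c * σ) / p then (Fintype.card F : ℤ) else 0) - 1)) =
        (if e = (δ * β - c * σ) / p then quadraticChar F c * quadraticChar F (β * δ) *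
          Fintype.card F * quadraticChar F (c + (x₂ - x₁) * e) else 0) -
        quadraticChar F c * quadraticChar F (β * δ) * quadraticChar F (c + (x₂ - x₁) * e) := by
      intro e
      split_ifs <;> ring
    simp_rw [h3]
    rw [sum_sub_distrib, ← mul_sum, sum_lin h6 c d21, mul_zero, sub_zero, sum_ite_eq' univ,
      if_pos (mem_univ _)]
    have h4 : c + (x₂ - x₁) * ((δ * β - c * σ) / p) = (β * δ) * ((p⁻¹) ^ 2) *
        (c + (x₂ - x₁) * p) := by
      field_simp
      rw [hβ, hδ, hp, hσ]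
      ring
    have h7 : quadraticChar F ((β * δ) * ((p⁻¹) ^ 2) * (c + (x₂ - x₁) * p)) =
        quadraticChar F (β * δ) * quadraticChar F (c + (x₂ - x₁) * p) := by
      rw [map_mul (quadraticChar F) ((β * δ) * ((p⁻¹) ^ 2)),
        map_mul (quadraticChar F) (β * δ) ((p⁻¹) ^ 2),
        quadraticChar_sq_one' (inv_ne_zero hp0), mul_one]
    rw [h4, h7]
    have h5 : quadraticChar F (β * δ) * quadraticChar F (β * δ) = 1 := by
      rw [← sq]
      exact quadraticChar_sq_one (mul_ne_zero hβ0 hδ0)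
    linear_combination (quadraticChar F c * Fintype.card F *
      quadraticChar F (c + (x₂ - x₁) * p)) * h5
  simp_rw [h2]
  rw [← mul_sum]
  have h3 := sum_lin2 h6 0 ((x₂ - x₁) * p) (β := 1) (δ := 1) one_ne_zero one_ne_zero
  have h4 : ¬ ((0 : F) * 1 = (x₂ - x₁) * p * 1) := by
    rw [zero_mul, mul_one]
    exact (mul_ne_zero d21 hp0).symm
  rw [if_neg h4, mul_one, map_one, one_mul] at h3
  have h5 : ∑ c : F, quadraticChar F c * quadraticChar F (c + (x₂ - x₁) * p) = -1 := by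
    rw [← h3]
    refine sum_congr rfl fun c _ => ?_
    rw [zero_add, one_mul, add_comm]
  rw [h5]
  ring

/-- a point that occurs once -/
theorem H4_zero (h6 : (6 : F) ≠ 0) {x y w : F} (hyw : y ≠ w) : H4 x x y w = 0 := by
  have key : ∀ y w : F, y ≠ w → x ≠ w → H4 x x y w = 0 := by
    intro y w hyw hxw
    by_cases hxy : x = y
    · subst hxy
      rw [H4_newton x w 0]
      refine sum_eq_zero fun f _ => ?_
      rw [sum_comm]
      refine sum_eq_zero fun c _ => ?_
      have h1 : ∀ e : F, quadraticChar F (c + (x - x) * (e + (x - w) * (f + (x - 0)))) *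
          quadraticChar F (c + (x - x) * (e + (x - w) * (f + (x - 0)))) *
          quadraticChar F (c + (x - x) * (e + (x - w) * (f + (x - 0)))) *
          quadraticChar F (c + (w - x) * (e + (w - w) * (f + (w - 0)))) =
          quadraticChar F c * quadraticChar F (c + (w - x) * e) := by
        intro e
        rw [chi_cube]
        congr 2 <;> ring
      simp_rw [h1]
      rw [← mul_sum, sum_lin h6 c (sub_ne_zero.2 hxw.symm), mul_zero]
    · rw [H4_newton x y w]
      rw [sum_comm]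
      refine sum_eq_zero fun e _ => ?_
      rw [sum_comm]
      refine sum_eq_zero fun c _ => ?_
      have h1 : ∀ f : F, quadraticChar F (c + (x - x) * (e + (x - y) * (f + (x - w)))) *
          quadraticChar F (c + (x - x) * (e + (x - y) * (f + (x - w)))) *
          quadraticChar F (c + (y - x) * (e + (y - y) * (f + (y - w)))) *
          quadraticChar F (c + (w - x) * (e + (w - y) * (f + (w - w)))) =
          quadraticChar F c * quadraticChar F c * quadraticChar F (c + (y - x) * e) *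
            quadraticChar F ((c + (w - x) * e) + ((w - x) * (w - y)) * f) := by
        intro f
        have e1 : c + (x - x) * (e + (x - y) * (f + (x - w))) = c := by ring
        have e2 : c + (y - x) * (e + (y - y) * (f + (y - w))) = c + (y - x) * e := by ring
        have e3 : c + (w - x) * (e + (w - y) * (f + (w - w))) =
            (c + (w - x) * e) + ((w - x) * (w - y)) * f := by ring
        rw [e1, e2, e3]
      simp_rw [h1]
      rw [← mul_sum, sum_lin h6 _ (mul_ne_zero (sub_ne_zero.2 hxw.symm)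
        (sub_ne_zero.2 hyw.symm)), mul_zero]
  by_cases hxw : x = w
  · rw [H4_swap34]
    exact key w y hyw.symm (fun h => hyw (h.symm.trans hxw))
  · exact key y w hyw hxw

/-- two pairs -/
theorem H4_pairs {x y : F} (hxy : x ≠ y) :
    H4 x x y y = (Fintype.card F : ℤ) * ((Fintype.card F : ℤ) - 1) ^ 2 := by
  rw [H4_newton x y 0]
  have h1 : ∀ f e c : F, quadraticChar F (c + (x - x) * (e + (x - y) * (f + (x - 0)))) *
      quadraticChar F (c + (x - x) * (e + (x - y) * (f + (x - 0)))) *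
      quadraticChar F (c + (y - x) * (e + (y - y) * (f + (y - 0)))) *
      quadraticChar F (c + (y - x) * (e + (y - y) * (f + (y - 0)))) =
      quadraticChar F c ^ 2 * quadraticChar F (c + (y - x) * e) ^ 2 := by
    intro f e c
    have e1 : c + (x - x) * (e + (x - y) * (f + (x - 0))) = c := by ring
    have e2 : c + (y - x) * (e + (y - y) * (f + (y - 0))) = c + (y - x) * e := by ring
    rw [e1, e2]
    ring
  simp_rw [h1]
  rw [sum_const, card_univ, nsmul_eq_mul, sum_comm]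
  have h2 : ∀ c : F, ∑ e : F, quadraticChar F c ^ 2 * quadraticChar F (c + (y - x) * e) ^ 2 =
      quadraticChar F c ^ 2 * ((Fintype.card F : ℤ) - 1) := by
    intro c
    rw [← mul_sum, sum_scale (fun e => quadraticChar F (c + e) ^ 2) (sub_ne_zero.2 hxy.symm),
      sum_shift (fun e => quadraticChar F e ^ 2), sum_chi_sq]
  simp_rw [h2]
  rw [← sum_mul, sum_chi_sq]
  ring

/-- one point -/
theorem H4_single (x : F) :
    H4 x x x x = (Fintype.card F : ℤ) ^ 2 * ((Fintype.card F : ℤ) - 1) := by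
  rw [H4_newton x 0 0]
  have h1 : ∀ f e c : F, quadraticChar F (c + (x - x) * (e + (x - 0) * (f + (x - 0)))) *
      quadraticChar F (c + (x - x) * (e + (x - 0) * (f + (x - 0)))) *
      quadraticChar F (c + (x - x) * (e + (x - 0) * (f + (x - 0)))) *
      quadraticChar F (c + (x - x) * (e + (x - 0) * (f + (x - 0)))) =
      quadraticChar F c ^ 2 := by
    intro f e c
    rw [chi_cube]
    have e1 : c + (x - x) * (e + (x - 0) * (f + (x - 0))) = c := by ring
    rw [e1]
    ring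
  simp_rw [h1]
  rw [sum_chi_sq, sum_const, sum_const, card_univ, nsmul_eq_mul, nsmul_eq_mul]
  ring

/-- the inner sum if the first two points are equal -/
theorem inner_eq (h6 : (6 : F) ≠ 0) (x : F) : ∑ z : F, ∑ w : F, H4 x x z w =
    (Fintype.card F : ℤ) ^ 2 * ((Fintype.card F : ℤ) - 1) +
      ((Fintype.card F : ℤ) - 1) * ((Fintype.card F : ℤ) * ((Fintype.card F : ℤ) - 1) ^ 2) := by
  have h1 : ∀ z : F, ∑ w : F, H4 x x z w = H4 x x z z := by
    intro z
    rw [sum_eq_single z]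
    · intro w _ hw
      exact H4_zero h6 hw.symm
    · intro h
      exact absurd (mem_univ z) h
  simp_rw [h1]
  have h2 : ∀ z : F, H4 x x z z = (Fintype.card F : ℤ) * ((Fintype.card F : ℤ) - 1) ^ 2 +
      (if z = x then (Fintype.card F : ℤ) ^ 2 * ((Fintype.card F : ℤ) - 1) -
        (Fintype.card F : ℤ) * ((Fintype.card F : ℤ) - 1) ^ 2 else 0) := by
    intro z
    split_ifs with h
    · rw [h, H4_single]
      ring
    · rw [H4_pairs (Ne.symm h), add_zero]
  simp_rw [h2]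
  rw [sum_add_distrib, sum_const, card_univ, nsmul_eq_mul, sum_ite_eq' univ, if_pos (mem_univ _)]
  ring

/-- the inner sum if the first two points are distinct -/
theorem inner_ne (h6 : (6 : F) ≠ 0) {x y : F} (hxy : x ≠ y) : ∑ z : F, ∑ w : F, H4 x y z w =
    2 * ((Fintype.card F : ℤ) * ((Fintype.card F : ℤ) - 1) ^ 2) -
      ((Fintype.card F : ℤ) - 2) * ((Fintype.card F : ℤ) - 3) * Fintype.card F := by
  set q : ℤ := (Fintype.card F : ℤ) with hq
  have hA : ∀ z : F, ∑ w : F, H4 x y z w = -((q - 3) * q) +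
      ((if z = x then q * (q - 1) ^ 2 + (q - 3) * q else 0) +
        (if z = y then q * (q - 1) ^ 2 + (q - 3) * q else 0)) := by
    intro z
    by_cases hzx : z = x
    · subst hzx
      rw [if_pos rfl, if_neg hxy, add_zero]
      have h1 : ∀ w : F, H4 z y z w = if w = y then q * (q - 1) ^ 2 else 0 := by
        intro w
        rw [H4_swap23]
        split_ifs with h
        · rw [h, H4_pairs hxy]
        · exact H4_zero h6 (Ne.symm h)
      simp_rw [h1]
      rw [sum_ite_eq' univ, if_pos (mem_univ _)]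
      ring
    · by_cases hzy : z = y
      · subst hzy
        rw [if_neg hzx, if_pos rfl, zero_add]
        have h1 : ∀ w : F, H4 x z z w = if w = x then q * (q - 1) ^ 2 else 0 := by
          intro w
          rw [H4_swap12, H4_swap23]
          split_ifs with h
          · rw [h, H4_pairs hxy.symm]
          · exact H4_zero h6 (Ne.symm h)
        simp_rw [h1]
        rw [sum_ite_eq' univ, if_pos (mem_univ _)]
        ring
      · rw [if_neg hzx, if_neg hzy, add_zero, add_zero]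
        have h1 : ∀ w : F, H4 x y z w = -q + ((if w = x then q else 0) +
            ((if w = y then q else 0) + (if w = z then q else 0))) := by
          intro w
          by_cases hwx : w = x
          · subst hwx
            rw [if_pos rfl, if_neg hxy, if_neg (Ne.symm hzx), H4_swap34, H4_swap23,
              H4_zero h6 (Ne.symm hzy)]
            ring
          · by_cases hwy : w = y
            · subst hwy
              rw [if_neg hwx, if_pos rfl, if_neg (Ne.symm hzy), H4_swap12, H4_swap34, H4_swap23,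
                H4_zero h6 (Ne.symm hzx)]
              ring
            · by_cases hwz : w = z
              · subst hwz
                rw [if_neg hwx, if_neg hwy, if_pos rfl, H4_swap23, H4_swap12, H4_swap34,
                  H4_swap23, H4_zero h6 hxy]
                ring
              · rw [if_neg hwx, if_neg hwy, if_neg hwz, H4_distinct h6 hxy (Ne.symm hzx)
                  (Ne.symm hwx) (Ne.symm hzy) (Ne.symm hwy) (Ne.symm hwz)]
                ring
        simp_rw [h1]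
        rw [sum_add_distrib, sum_add_distrib, sum_add_distrib, sum_const, card_univ, nsmul_eq_mul,
          sum_ite_eq' univ, if_pos (mem_univ _), sum_ite_eq' univ, if_pos (mem_univ _),
          sum_ite_eq' univ, if_pos (mem_univ _)]
        ring
  simp_rw [hA]
  rw [sum_add_distrib, sum_add_distrib, sum_const, card_univ, nsmul_eq_mul,
    sum_ite_eq' univ, if_pos (mem_univ _), sum_ite_eq' univ, if_pos (mem_univ _)]
  ring

theorem sum_H4 (h6 : (6 : F) ≠ 0) : ∑ x : F, ∑ y : F, ∑ z : F, ∑ w : F, H4 x y z w =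
    (Fintype.card F : ℤ) ^ 2 * ((Fintype.card F : ℤ) - 1) * (2 * (Fintype.card F : ℤ) ^ 2 - 3) := by
  set q : ℤ := (Fintype.card F : ℤ) with hq
  have h1 : ∀ x y : F, ∑ z : F, ∑ w : F, H4 x y z w =
      (2 * (q * (q - 1) ^ 2) - (q - 2) * (q - 3) * q) +
      (if y = x then (q ^ 2 * (q - 1) + (q - 1) * (q * (q - 1) ^ 2)) -
        (2 * (q * (q - 1) ^ 2) - (q - 2) * (q - 3) * q) else 0) := by
    intro x y
    split_ifs with h
    · subst h
      rw [inner_eq h6]
      ring
    · rw [inner_ne h6 (Ne.symm h), add_zero]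
  simp_rw [h1]
  have h2 : ∀ x : F, ∑ y : F, ((2 * (q * (q - 1) ^ 2) - (q - 2) * (q - 3) * q) +
      (if y = x then (q ^ 2 * (q - 1) + (q - 1) * (q * (q - 1) ^ 2)) -
        (2 * (q * (q - 1) ^ 2) - (q - 2) * (q - 3) * q) else 0)) =
      (q - 1) * (2 * (q * (q - 1) ^ 2) - (q - 2) * (q - 3) * q) +
        (q ^ 2 * (q - 1) + (q - 1) * (q * (q - 1) ^ 2)) := by
    intro x
    rw [sum_add_distrib, sum_const, card_univ, nsmul_eq_mul, sum_ite_eq' univ,
      if_pos (mem_univ _)]
    ring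
  simp_rw [h2]
  rw [sum_const, card_univ, nsmul_eq_mul]
  ring

/-- the three-parameter sum -/
theorem sum_cubics (h6 : (6 : F) ≠ 0) : ∑ c₂ : F, ∑ c₁ : F, ∑ c₀ : F,
    (∑ x : F, quadraticChar F (gc c₂ c₁ c₀ x)) ^ 4 =
      (Fintype.card F : ℤ) * ∑ a : F, ∑ b : F, tr a b ^ 4 := by
  have h3 := three_ne h6
  have h1 : ∀ c₂ : F, ∑ c₁ : F, ∑ c₀ : F, (∑ x : F, quadraticChar F (gc c₂ c₁ c₀ x)) ^ 4 =
      ∑ a : F, ∑ b : F, tr a b ^ 4 := by
    intro c₂
    rw [← sum_shift (fun c₁ => ∑ c₀ : F, (∑ x : F, quadraticChar F (gc c₂ c₁ c₀ x)) ^ 4)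
      (c₂ ^ 2 / 3)]
    refine sum_congr rfl fun a _ => ?_
    rw [← sum_shift (fun c₀ => (∑ x : F, quadraticChar F (gc c₂ (c₂ ^ 2 / 3 + a) c₀ x)) ^ 4)
      (c₂ ^ 3 / 27 + c₂ * a / 3)]
    refine sum_congr rfl fun b _ => ?_
    rw [tr_eq h6]
    have h2 : ∑ x : F, quadraticChar F (gc c₂ (c₂ ^ 2 / 3 + a) ((c₂ ^ 3 / 27 + c₂ * a / 3) + b) x) =
        S a b := by
      unfold S
      rw [← sum_shift (fun x => quadraticChar F (gc c₂ (c₂ ^ 2 / 3 + a)
        ((c₂ ^ 3 / 27 + c₂ * a / 3) + b) x)) (-(c₂ / 3))]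
      refine sum_congr rfl fun x _ => ?_
      congr 1
      unfold gc
      have h27 : (27 : F) = 3 ^ 3 := by norm_num
      rw [h27]
      field_simp
      ring
    rw [h2]
    ring
  simp_rw [h1]
  rw [sum_const, card_univ, nsmul_eq_mul]

theorem pow_four_expand (h : F → ℤ) : (∑ x : F, h x) ^ 4 =
    ∑ x : F, ∑ y : F, ∑ z : F, ∑ w : F, h x * h y * h z * h w := by
  have h1 : (∑ x : F, h x) ^ 4 = ((∑ x : F, h x) * (∑ x : F, h x)) *
      ((∑ x : F, h x) * (∑ x : F, h x)) := by ring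
  rw [h1, sum_mul_sum, sum_mul]
  refine sum_congr rfl fun x _ => ?_
  rw [sum_mul]
  refine sum_congr rfl fun y _ => ?_
  rw [mul_sum]
  refine sum_congr rfl fun z _ => ?_
  rw [mul_sum]
  exact sum_congr rfl fun w _ => by ring

/-- **the fourth moment** -/
theorem sum_tr_four (h6 : (6 : F) ≠ 0) : ∑ a : F, ∑ b : F, tr a b ^ 4 =
    (Fintype.card F : ℤ) * ((Fintype.card F : ℤ) - 1) * (2 * (Fintype.card F : ℤ) ^ 2 - 3) := by
  have h1 : ∑ c₂ : F, ∑ c₁ : F, ∑ c₀ : F, (∑ x : F, quadraticChar F (gc c₂ c₁ c₀ x)) ^ 4 =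
      ∑ x : F, ∑ y : F, ∑ z : F, ∑ w : F, H4 x y z w := by
    simp_rw [pow_four_expand]
    -- move the sums over the points outside
    have hc : ∀ G : F → F → F → F → ℤ, ∑ c₂ : F, ∑ c₁ : F, ∑ c₀ : F, ∑ x : F, G c₂ c₁ c₀ x =
        ∑ x : F, ∑ c₂ : F, ∑ c₁ : F, ∑ c₀ : F, G c₂ c₁ c₀ x := by
      intro G
      calc _ = ∑ c₂ : F, ∑ c₁ : F, ∑ x : F, ∑ c₀ : F, G c₂ c₁ c₀ x :=
            sum_congr rfl fun _ _ => sum_congr rfl fun _ _ => sum_comm
        _ = ∑ c₂ : F, ∑ x : F, ∑ c₁ : F, ∑ c₀ : F, G c₂ c₁ c₀ x :=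
            sum_congr rfl fun _ _ => sum_comm
        _ = _ := sum_comm
    rw [hc]
    refine sum_congr rfl fun x _ => ?_
    rw [hc]
    refine sum_congr rfl fun y _ => ?_
    rw [hc]
    refine sum_congr rfl fun z _ => ?_
    rw [hc]
    rfl
  have h2 := sum_cubics h6
  rw [h1, sum_H4 h6] at h2
  have hq : (Fintype.card F : ℤ) ≠ 0 := by exact_mod_cast Fintype.card_ne_zero
  apply mul_left_cancel₀ hq
  rw [← h2]
  ring

end Pool.Agent.P8H18.MF
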