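import Pool.Agent.P8H18.MF.Asym
import Pool.Agent.P8H18.MF.Four

/-! The first moment: continuation to `Re s > 2/3`. -/

set_option autoImplicit false
set_option linter.unusedSectionVars false

namespace Pool.Agent.P8H18.MF

open Finset Filter Topology NumberField IsDedekindDomain
open Pool.Agent.H921R2.TatePole (nm two_le_nm nm_summable)
open Pool.Agent.H341R2 (card_v finite_v)

section loc

variable {F : Type*} [Field F] [Fintype F] [DecidableEq F]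

theorem sum_four (h6 : (6 : F) ≠ 0) : ∑ a : F, ∑ b : F, (tr a b : ℂ) ^ 4 =
    (Fintype.card F : ℂ) * (Fintype.card F - 1) * (2 * (Fintype.card F : ℂ) ^ 2 - 3) := by
  have := congrArg (fun z : ℤ => (z : ℂ)) (sum_tr_four (F := F) h6)
  push_cast at this
  exact this

theorem sum_ep_sq (h6 : (6 : F) ≠ 0) : ∑ a : F, ∑ b : F, ep (D a b = 0) * (tr a b : ℂ) ^ 2 =
    ((Fintype.card F : ℂ) ^ 2 - 1) * (Fintype.card F - 1) := by
  have h1 : ∀ a b : F, ep (D a b = 0) * (tr a b : ℂ) ^ 2 = (tr a b : ℂ) ^ 2 -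
      (((if D a b = 0 then tr a b ^ 2 else 0 : ℤ)) : ℂ) := by
    intro a b
    split_ifs with h
    · rw [ep_true h]; push_cast; ring
    · rw [ep_false h]; push_cast; ring
  simp_rw [h1]
  simp only [sum_sub_distrib]
  have h2 := sum_sing_sq (F := F) h6
  have h3 : ∑ a : F, ∑ b : F, (((if D a b = 0 then tr a b ^ 2 else 0 : ℤ)) : ℂ) =
      (Fintype.card F : ℂ) - 1 := by
    have := congrArg (fun z : ℤ => (z : ℂ)) h2
    push_cast at this
    push_cast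
    exact this
  rw [h3, sum_sq h6]
  ring

/-- the polynomial part of the first moment -/
noncomputable def P5 (t ε q X : ℂ) : ℂ := 1 + t * X + (t ^ 2 - ε * q) * X ^ 2 +
  (t ^ 3 - 2 * (ε * q * t)) * X ^ 3 + (t ^ 4 - 3 * q * (ε * t ^ 2) + ε * q ^ 2) * X ^ 4 +
  (t ^ 5 - 4 * (ε * q * t ^ 3) + 3 * (ε * q ^ 2 * t)) * X ^ 5

theorem ep_sq (P : Prop) : ep P * ep P = ep P := by
  by_cases h : P
  · rw [ep_true h]; ring
  · rw [ep_false h]; ring

theorem P5_mul (t ε q X : ℂ) (hε : ε * ε = ε) :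
    (1 - t * X + ε * (q * X ^ 2)) * P5 t ε q X =
      1 - (t ^ 6 - 5 * ε * q * t ^ 4 + 6 * ε * q ^ 2 * t ^ 2 - ε * q ^ 3) * X ^ 6 +
        ε * q * (t ^ 5 - 4 * q * t ^ 3 + 3 * q ^ 2 * t) * X ^ 7 := by
  unfold P5
  linear_combination (-(q ^ 2 * X ^ 4) - 2 * q ^ 2 * t * X ^ 5 + (- 3 * q ^ 2 * t ^ 2 + q ^ 3) * X ^ 6 +
    (-4 * q ^ 2 * t ^ 3 + 3 * q ^ 3 * t) * X ^ 7) * hε

theorem sum_P5 (h6 : (6 : F) ≠ 0) (X : ℂ) :
    ∑ a : F, ∑ b : F, P5 (tr a b) (ep (D a b = 0)) (Fintype.card F) X =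
      (Fintype.card F : ℂ) ^ 2 := by
  set q : ℂ := (Fintype.card F : ℂ) with hq
  have hodd := sum_odd (F := F) h6 (fun n P => n * X +
    ((n : ℂ) ^ 3 - 2 * (ep P * q * n)) * X ^ 3 +
    ((n : ℂ) ^ 5 - 4 * (ep P * q * (n : ℂ) ^ 3) + 3 * (ep P * q ^ 2 * n)) * X ^ 5)
    (fun n P => by push_cast; ring)
  have h1 : ∀ a b : F, P5 (tr a b) (ep (D a b = 0)) q X =
      ((tr a b : ℂ) * X + ((tr a b : ℂ) ^ 3 - 2 * (ep (D a b = 0) * q * (tr a b : ℂ))) * X ^ 3 +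
        ((tr a b : ℂ) ^ 5 - 4 * (ep (D a b = 0) * q * (tr a b : ℂ) ^ 3) +
          3 * (ep (D a b = 0) * q ^ 2 * (tr a b : ℂ))) * X ^ 5) +
      (1 + ((tr a b : ℂ) ^ 2 * X ^ 2 - ep (D a b = 0) * (q * X ^ 2) +
        (tr a b : ℂ) ^ 4 * X ^ 4 - (ep (D a b = 0) * (tr a b : ℂ) ^ 2) * (3 * q * X ^ 4) +
        ep (D a b = 0) * (q ^ 2 * X ^ 4))) := by
    intro a b
    unfold P5
    ring
  simp_rw [h1]
  rw [sum_congr rfl fun a _ => sum_add_distrib, sum_add_distrib, hodd, zero_add]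
  simp only [sum_add_distrib, sum_sub_distrib, ← sum_mul, sum_sq h6, sum_ep h6, sum_four h6,
    sum_ep_sq h6]
  rw [sum_const2]
  ring

theorem one_sub_norm {z : ℂ} {r : ℝ} (hz : ‖z‖ ≤ r) : 1 - r ≤ ‖1 - z‖ := by
  have h := norm_sub_norm_le (1 : ℂ) z
  rw [norm_one] at h
  linarith

/-- **sixth order expansion of the first moment** -/
theorem lm_one (h6 : (6 : F) ≠ 0) {r₀ : ℝ} (h1 : r₀ < 1) {X : ℂ} (hX : sz F X ≤ r₀) :
    ‖lm F 1 X - 1‖ ≤ 239 * ((1 - r₀) ^ 2)⁻¹ * sz F X ^ 6 := by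
  set r := sz F X with hr
  have hr0 : 0 ≤ r := by
    rw [hr]
    unfold sz
    positivity
  have hr1 : r < 1 := hX.trans_lt h1
  have h2 : lm F 1 X - 1 = (∑ a : F, ∑ b : F, (lp 1 a b X -
      P5 (tr a b) (ep (D a b = 0)) (Fintype.card F) X)) / (Fintype.card F : ℂ) ^ 2 := by
    simp_rw [sum_sub_distrib]
    rw [sum_P5 h6, sub_div, div_self card_ne]
    rfl
  rw [h2, norm_div, div_le_iff₀ (by
    rw [norm_pos_iff]
    exact card_ne)]
  refine (norm_sum_le _ _).trans ((sum_le_sum fun a _ => norm_sum_le _ _).trans ?_)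
  have h3 : ∀ a b : F, ‖lp 1 a b X - P5 (tr a b) (ep (D a b = 0)) (Fintype.card F) X‖ ≤
      239 * ((1 - r₀) ^ 2)⁻¹ * r ^ 6 := by
    intro a b
    set q : ℂ := (Fintype.card F : ℂ) with hq
    set t : ℂ := (tr a b : ℂ) with ht
    set ε : ℂ := ep (D a b = 0) with hε
    have hlp : lpol a b X = 1 - t * X + ε * (q * X ^ 2) := rfl
    have hne := lpol_ne h6 a b hr1
    have hlow : (1 - r) ^ 2 ≤ ‖lpol a b X‖ := by
      rw [lpol_eq h6, norm_mul, sq]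
      exact mul_le_mul (one_sub_norm (z_le h6 a b X)) (one_sub_norm (w_le h6 a b X))
        (by linarith) (norm_nonneg _)
    have e1 : lp 1 a b X = (lpol a b X)⁻¹ := by
      unfold lp
      rw [Complex.cpow_neg_one]
    have e2 : lp 1 a b X - P5 t ε q X =
        ((t ^ 6 - 5 * ε * q * t ^ 4 + 6 * ε * q ^ 2 * t ^ 2 - ε * q ^ 3) * X ^ 6 -
          ε * q * (t ^ 5 - 4 * q * t ^ 3 + 3 * q ^ 2 * t) * X ^ 7) / lpol a b X := by
      have h5 := P5_mul t ε q X (ep_sq _)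
      rw [← hlp] at h5
      rw [e1, eq_div_iff hne, sub_mul, inv_mul_cancel₀ hne]
      linear_combination -h5
    have htX : ‖t * X‖ ≤ 2 * r := by
      have : t * X = r1 a b * X + r2 a b * X := by
        rw [← add_mul, r_add]
      rw [this]
      refine (norm_add_le _ _).trans ?_
      linarith [z_le h6 a b X, w_le h6 a b X]
    have hqX : ‖q * X ^ 2‖ = r ^ 2 := by
      rw [hr, sz, norm_mul, norm_pow, mul_pow, Real.sq_sqrt (by positivity), hq,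
        Complex.norm_natCast]
    have hεn : ‖ε‖ ≤ 1 := by
      rw [hε]
      by_cases h : D a b = 0
      · rw [ep_true h, norm_zero]; norm_num
      · rw [ep_false h, norm_one]
    have hT : ∀ n : ℕ, ‖t * X‖ ^ n ≤ (2 * r) ^ n := fun n => by gcongr
    have e3 : (t ^ 6 - 5 * ε * q * t ^ 4 + 6 * ε * q ^ 2 * t ^ 2 - ε * q ^ 3) * X ^ 6 -
        ε * q * (t ^ 5 - 4 * q * t ^ 3 + 3 * q ^ 2 * t) * X ^ 7 =
        (t * X) ^ 6 - 5 * ε * (q * X ^ 2) * (t * X) ^ 4 + 6 * ε * (q * X ^ 2) ^ 2 * (t * X) ^ 2 -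
        ε * (q * X ^ 2) ^ 3 - ε * (q * X ^ 2) * ((t * X) ^ 5 - 4 * (q * X ^ 2) * (t * X) ^ 3 +
          3 * (q * X ^ 2) ^ 2 * (t * X)) := by ring
    have hrp : ∀ n : ℕ, 6 ≤ n → r ^ n ≤ r ^ 6 := fun n hn =>
      pow_le_pow_of_le_one hr0 hr1.le hn
    have e4 : ‖(t ^ 6 - 5 * ε * q * t ^ 4 + 6 * ε * q ^ 2 * t ^ 2 - ε * q ^ 3) * X ^ 6 -
        ε * q * (t ^ 5 - 4 * q * t ^ 3 + 3 * q ^ 2 * t) * X ^ 7‖ ≤ 239 * r ^ 6 := by
      rw [e3]
      have t1 : ‖(t * X) ^ 6‖ ≤ 64 * r ^ 6 := by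
        rw [norm_pow]
        refine (hT 6).trans (le_of_eq ?_)
        ring
      have t2 : ‖5 * ε * (q * X ^ 2) * (t * X) ^ 4‖ ≤ 80 * r ^ 6 := by
        rw [norm_mul, norm_mul, norm_mul, hqX, norm_pow]
        simp only [Complex.norm_ofNat]
        calc 5 * ‖ε‖ * r ^ 2 * ‖t * X‖ ^ 4 ≤ 5 * 1 * r ^ 2 * (2 * r) ^ 4 := by
              gcongr
          _ = 80 * r ^ 6 := by ring
      have t3 : ‖6 * ε * (q * X ^ 2) ^ 2 * (t * X) ^ 2‖ ≤ 24 * r ^ 6 := by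
        rw [norm_mul, norm_mul, norm_mul, norm_pow, hqX, norm_pow]
        simp only [Complex.norm_ofNat]
        calc 6 * ‖ε‖ * (r ^ 2) ^ 2 * ‖t * X‖ ^ 2 ≤ 6 * 1 * (r ^ 2) ^ 2 * (2 * r) ^ 2 := by
              gcongr
          _ = 24 * r ^ 6 := by ring
      have t4 : ‖ε * (q * X ^ 2) ^ 3‖ ≤ r ^ 6 := by
        rw [norm_mul, norm_pow, hqX]
        calc ‖ε‖ * (r ^ 2) ^ 3 ≤ 1 * (r ^ 2) ^ 3 := by gcongr
          _ = r ^ 6 := by ring
      have t5 : ‖ε * (q * X ^ 2) * ((t * X) ^ 5 - 4 * (q * X ^ 2) * (t * X) ^ 3 +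
          3 * (q * X ^ 2) ^ 2 * (t * X))‖ ≤ 70 * r ^ 6 := by
        rw [norm_mul, norm_mul, hqX]
        have u1 : ‖(t * X) ^ 5‖ ≤ 32 * r ^ 5 := by
          rw [norm_pow]
          refine (hT 5).trans (le_of_eq ?_)
          ring
        have u2 : ‖4 * (q * X ^ 2) * (t * X) ^ 3‖ ≤ 32 * r ^ 5 := by
          rw [norm_mul, norm_mul, hqX, norm_pow]
          simp only [Complex.norm_ofNat]
          calc 4 * r ^ 2 * ‖t * X‖ ^ 3 ≤ 4 * r ^ 2 * (2 * r) ^ 3 := by gcongr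
            _ = 32 * r ^ 5 := by ring
        have u3 : ‖3 * (q * X ^ 2) ^ 2 * (t * X)‖ ≤ 6 * r ^ 5 := by
          rw [norm_mul, norm_mul, norm_pow, hqX]
          simp only [Complex.norm_ofNat]
          calc 3 * (r ^ 2) ^ 2 * ‖t * X‖ ≤ 3 * (r ^ 2) ^ 2 * (2 * r) := by gcongr
            _ = 6 * r ^ 5 := by ring
        have u4 : ‖(t * X) ^ 5 - 4 * (q * X ^ 2) * (t * X) ^ 3 +
            3 * (q * X ^ 2) ^ 2 * (t * X)‖ ≤ 70 * r ^ 5 := by
          refine (norm_add_le _ _).trans ?_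
          have := norm_sub_le ((t * X) ^ 5) (4 * (q * X ^ 2) * (t * X) ^ 3)
          linarith
        calc ‖ε‖ * r ^ 2 * ‖(t * X) ^ 5 - 4 * (q * X ^ 2) * (t * X) ^ 3 +
            3 * (q * X ^ 2) ^ 2 * (t * X)‖ ≤ 1 * r ^ 2 * (70 * r ^ 5) := by gcongr
          _ = 70 * r ^ 7 := by ring
          _ ≤ 70 * r ^ 6 := by linarith [hrp 7 (by norm_num)]
      refine (norm_sub_le _ _).trans ((add_le_add ((norm_sub_le _ _).trans (add_le_add
        ((norm_add_le _ _).trans (add_le_add ((norm_sub_le _ _).trans (add_le_add t1 t2)) t3))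
        t4)) t5).trans ?_)
      linarith
    rw [e2, norm_div]
    have h7 : (1 - r₀) ^ 2 ≤ ‖lpol a b X‖ := by
      refine le_trans ?_ hlow
      have : 0 ≤ 1 - r₀ := by linarith
      gcongr
    have h8 : 0 < (1 - r₀) ^ 2 := by
      have : 0 < 1 - r₀ := by linarith
      positivity
    rw [div_le_iff₀ (lt_of_lt_of_le h8 h7)]
    calc _ ≤ 239 * r ^ 6 := e4
      _ = 239 * ((1 - r₀) ^ 2)⁻¹ * r ^ 6 * (1 - r₀) ^ 2 := by
          have h9 : ((1 - r₀) ^ 2)⁻¹ * (1 - r₀) ^ 2 = 1 := inv_mul_cancel₀ h8.ne'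
          linear_combination (-(239 * r ^ 6)) * h9
      _ ≤ 239 * ((1 - r₀) ^ 2)⁻¹ * r ^ 6 * ‖lpol a b X‖ := by gcongr
  refine (sum_le_sum fun a _ => sum_le_sum fun b _ => h3 a b).trans (le_of_eq ?_)
  rw [sum_const, sum_const, card_univ, nsmul_eq_mul, nsmul_eq_mul, norm_pow, Complex.norm_natCast]
  ring

end loc

variable {K : Type} [Field K] [NumberField K]

theorem Mv_one {σ : ℝ} (hσ : 1 / 2 < σ) : ∃ A : ℝ, 0 ≤ A ∧
    ∀ (s : ℂ), σ ≤ s.re → ∀ (v : HeightOneSpectrum (𝓞 K)),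
      ‖Mv 1 s v - 1‖ ≤ A * (nm v : ℝ) ^ (3 - 6 * σ) := by
  obtain ⟨hy0, hy1⟩ := y₀_bounds hσ
  set A : ℝ := 239 * ((1 - (2 : ℝ) ^ (1 / 2 - σ)) ^ 2)⁻¹ with hA
  refine ⟨2 * A, by positivity, fun s hs v => ?_⟩
  have hq : (0 : ℝ) < nm v := by exact_mod_cast nm_pos v
  rw [mul_assoc]
  refine Mv_sub_one_le 1 s v (by positivity) fun h6 => ?_
  have h1 := lm_one (six_ne h6) hy1 (X := xv v s) ((sz_le v hs).trans (pow_le_two v hσ))
  refine h1.trans ?_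
  have h2 : sz (𝓞 K ⧸ v.asIdeal) (xv v s) ^ 6 ≤ (nm v : ℝ) ^ (3 - 6 * σ) := by
    have h3 : 0 ≤ sz (𝓞 K ⧸ v.asIdeal) (xv v s) := by
      unfold sz
      positivity
    calc sz (𝓞 K ⧸ v.asIdeal) (xv v s) ^ 6 ≤ ((nm v : ℝ) ^ (1 / 2 - σ)) ^ 6 := by
          gcongr
          exact sz_le v hs
      _ = (nm v : ℝ) ^ (3 - 6 * σ) := by
          rw [← Real.rpow_natCast, ← Real.rpow_mul hq.le]
          congr 1
          push_cast
          ring
  gcongr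

/-- **the first moment is holomorphic for `Re s > 2/3`** -/
theorem Mf_one_diff : DifferentiableOn ℂ (Mf K 1) {s : ℂ | 2 / 3 < s.re} := by
  refine tprod_diff (fun v s => Mv 1 s v) (2 / 3) (fun v s hs => Mv_diff 1 v (by linarith))
    (fun σ hσ => ?_)
  obtain ⟨A, hA, h⟩ := Mv_one (K := K) (σ := σ) (by linarith)
  exact ⟨_, (nm_summable' (by linarith)).mul_left A, fun s hs v => h s hs v⟩

theorem Mf_one_pos {σ : ℝ} (hσ : 2 / 3 < σ) : ∃ r : ℝ, 0 < r ∧ Mf K 1 (σ : ℂ) = r := by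
  obtain ⟨A, hA, h⟩ := Mv_one (K := K) (σ := σ) (by linarith)
  refine tprod_pos _ _ ((nm_summable' (by linarith)).mul_left A) (fun v => h (σ : ℂ) (by simp) v)
    fun v => ?_
  have := Mv_pos 1 v (σ := σ) (by linarith)
  rwa [Complex.ofReal_one] at this

end Pool.Agent.P8H18.MF
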