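import Pool.Agent.P8H18.MF.Cont
import Pool.Agent.H341R2.NF.SysK

/-! The behaviour of the mean functions at the central point. -/

set_option autoImplicit false
set_option linter.unusedSectionVars false

namespace Pool.Agent.P8H18.MF

open Finset Filter Topology NumberField IsDedekindDomain
open Pool.Agent.H921R2.TatePole (nm two_le_nm nm_summable)
open Pool.Agent.H341R2 (card_v finite_v sysK)

variable {K : Type} [Field K] [NumberField K]

/-- the sum over the primes prime to `6` at a real point -/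
noncomputable def Zr (K : Type) [Field K] [NumberField K] (σ : ℝ) : ℝ :=
  ∑' v : HeightOneSpectrum (𝓞 K), (zv (σ : ℂ) v).re

theorem zv_re (v : HeightOneSpectrum (𝓞 K)) (σ : ℝ) : zv (σ : ℂ) v = ((zv (σ : ℂ) v).re : ℂ) := by
  obtain ⟨r, hr⟩ := zv_real v σ
  rw [hr, Complex.ofReal_re]

theorem Zr_eq {σ : ℝ} : ∑' v : HeightOneSpectrum (𝓞 K), zv (σ : ℂ) v = (Zr K σ : ℂ) := by
  unfold Zr
  rw [Complex.ofReal_tsum]
  exact tsum_congr fun v => zv_re v σ

theorem Zr_bound : ∃ C : ℝ, ∀ᶠ σ : ℝ in 𝓝[>] 1, |Zr K σ + Real.log (σ - 1)| ≤ C := by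
  classical
  obtain ⟨C, hC⟩ := (sysK K).lam_bounded
  have h6 : (6 : 𝓞 K) ≠ 0 := by norm_num
  set W : Finset (HeightOneSpectrum (𝓞 K)) :=
    (Pool.Agent.H341R2.EC.finite_mem (K := K) h6).toFinset with hW
  have hWm : ∀ v : HeightOneSpectrum (𝓞 K), v ∈ W ↔ (6 : 𝓞 K) ∈ v.asIdeal := by
    intro v
    rw [hW, Set.Finite.mem_toFinset]
    rfl
  refine ⟨C + W.card + Real.log 2, ?_⟩
  have ht : Tendsto (fun σ : ℝ => 2 * (σ - 1)) (𝓝[>] 1) (𝓝[>] 0) := by
    rw [tendsto_nhdsWithin_iff]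
    constructor
    · have : Tendsto (fun σ : ℝ => 2 * (σ - 1)) (𝓝 1) (𝓝 (2 * (1 - 1))) :=
        (tendsto_id.sub_const 1).const_mul 2
      rw [sub_self, mul_zero] at this
      exact this.mono_left nhdsWithin_le_nhds
    · filter_upwards [self_mem_nhdsWithin] with x hx
      have hx' : (1 : ℝ) < x := hx
      simp only [Set.mem_Ioi]
      linarith
  filter_upwards [ht.eventually hC, self_mem_nhdsWithin] with σ h1 hσ
  have hσ' : (1 : ℝ) < σ := hσ
  have hsum : Summable fun v : HeightOneSpectrum (𝓞 K) => (nm v : ℝ) ^ (1 - 2 * σ) :=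
    nm_summable' (by linarith)
  have hlam : (sysK K).lam (2 * (σ - 1)) = ∑' v : HeightOneSpectrum (𝓞 K),
      (nm v : ℝ) ^ (1 - 2 * σ) := by
    have e : -(1 + 2 * (σ - 1)) = 1 - 2 * σ := by ring
    unfold Pool.Agent.H341R2.NormSys.lam
    rw [e]
    rfl
  have hz : ∀ v : HeightOneSpectrum (𝓞 K), (zv (σ : ℂ) v).re =
      (nm v : ℝ) ^ (1 - 2 * σ) - if v ∈ W then (nm v : ℝ) ^ (1 - 2 * σ) else 0 := by
    intro v
    unfold zv
    by_cases h : (6 : 𝓞 K) ∈ v.asIdeal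
    · rw [if_pos h, if_pos ((hWm v).2 h)]
      simp
    · rw [if_neg h, if_neg (fun h' => h ((hWm v).1 h')), sub_zero]
      have : ((nm v : ℕ) : ℂ) ^ (1 - 2 * (σ : ℂ)) = (((nm v : ℝ) ^ (1 - 2 * σ) : ℝ) : ℂ) := by
        rw [Complex.ofReal_cpow (by positivity)]
        push_cast
        rfl
      rw [this, Complex.ofReal_re]
  have hW1 : ∀ v, v ∉ W → (if v ∈ W then (nm v : ℝ) ^ (1 - 2 * σ) else 0) = 0 :=
    fun v hv => if_neg hv
  have hZ : Zr K σ = (sysK K).lam (2 * (σ - 1)) - ∑ v ∈ W, (nm v : ℝ) ^ (1 - 2 * σ) := by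
    unfold Zr
    rw [tsum_congr hz, hlam]
    have hs2 : Summable fun v : HeightOneSpectrum (𝓞 K) =>
        if v ∈ W then (nm v : ℝ) ^ (1 - 2 * σ) else 0 :=
      summable_of_ne_finset_zero hW1
    rw [hsum.tsum_sub hs2, tsum_eq_sum hW1]
    congr 1
    exact sum_congr rfl fun v hv => if_pos hv
  have hfin0 : 0 ≤ ∑ v ∈ W, (nm v : ℝ) ^ (1 - 2 * σ) := sum_nonneg fun v _ => by positivity
  have hfin1 : ∑ v ∈ W, (nm v : ℝ) ^ (1 - 2 * σ) ≤ W.card := by
    calc ∑ v ∈ W, (nm v : ℝ) ^ (1 - 2 * σ) ≤ ∑ _v ∈ W, (1 : ℝ) := by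
          refine sum_le_sum fun v _ => ?_
          exact Real.rpow_le_one_of_one_le_of_nonpos (by exact_mod_cast nm_pos v) (by linarith)
      _ = W.card := by simp
  have hlog : Real.log (2 * (σ - 1)) = Real.log 2 + Real.log (σ - 1) :=
    Real.log_mul (by norm_num) (by linarith)
  rw [hlog] at h1
  have hl2 : 0 < Real.log 2 := Real.log_pos (by norm_num)
  rw [hZ]
  rw [abs_le] at h1 ⊢
  constructor <;> linarith [h1.1, h1.2]

/-- **The mean functions at the central point.** -/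
theorem Mf_asym (k : ℝ) : ∃ C : ℝ, ∀ᶠ σ : ℝ in 𝓝[>] 1, ∃ m : ℝ, 0 < m ∧
    Mf K (k : ℂ) (σ : ℂ) = m ∧ |Real.log m + k * (k - 1) / 2 * Real.log (σ - 1)| ≤ C := by
  obtain ⟨C, hC⟩ := Zr_bound (K := K)
  obtain ⟨g, hg, hg2⟩ := Gf_pos (K := K) k (σ := 1) (by norm_num)
  have hcont : ContinuousAt (fun σ : ℝ => (Gf K (k : ℂ) (σ : ℂ)).re) 1 := by
    have h1 : ContinuousAt (Gf K (k : ℂ)) ((1 : ℝ) : ℂ) := by
      have h2 : IsOpen {s : ℂ | 3 / 4 < s.re} := isOpen_lt continuous_const Complex.continuous_re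
      exact ((Gf_diff (K := K) (k : ℂ)).differentiableAt (h2.mem_nhds (by
        simp only [Set.mem_ofPred_eq, Complex.ofReal_re]; norm_num))).continuousAt
    exact Complex.continuous_re.continuousAt.comp
      (ContinuousAt.comp (g := Gf K (k : ℂ)) h1 Complex.continuous_ofReal.continuousAt)
  have hre : (Gf K (k : ℂ) ((1 : ℝ) : ℂ)).re = g := by rw [hg2, Complex.ofReal_re]
  have hlogc : ContinuousAt (fun σ : ℝ => Real.log (Gf K (k : ℂ) (σ : ℂ)).re) 1 :=
    ContinuousAt.log hcont (by rw [hre]; exact hg.ne')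
  have hev : ∀ᶠ σ : ℝ in 𝓝[>] 1, |Real.log (Gf K (k : ℂ) (σ : ℂ)).re| ≤ |Real.log g| + 1 := by
    have h1 := (hlogc.abs.tendsto).mono_left (nhdsWithin_le_nhds (s := Set.Ioi (1 : ℝ)))
    rw [hre] at h1
    filter_upwards [h1.eventually (gt_mem_nhds (by linarith : |Real.log g| < |Real.log g| + 1))]
      with σ h
    exact h.le
  refine ⟨|Real.log g| + 1 + |k * (k - 1) / 2| * C, ?_⟩
  filter_upwards [hC, hev, self_mem_nhdsWithin] with σ h1 h2 hσ
  have hσ' : (1 : ℝ) < σ := hσ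
  obtain ⟨r, hr, hr2⟩ := Gf_pos (K := K) k (σ := σ) (by linarith)
  rw [hr2, Complex.ofReal_re] at h2
  refine ⟨r * Real.exp (k * (k - 1) / 2 * Zr K σ), by positivity, ?_, ?_⟩
  · rw [Mf_eq' (k : ℂ) (s := (σ : ℂ)) (by simpa using hσ'), hr2, Zr_eq]
    push_cast
    rfl
  · rw [Real.log_mul hr.ne' (Real.exp_pos _).ne', Real.log_exp]
    have e : Real.log r + k * (k - 1) / 2 * Zr K σ + k * (k - 1) / 2 * Real.log (σ - 1) =
        Real.log r + k * (k - 1) / 2 * (Zr K σ + Real.log (σ - 1)) := by ring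
    rw [e]
    refine (abs_add_le _ _).trans (add_le_add h2 ?_)
    rw [abs_mul]
    exact mul_le_mul_of_nonneg_left h1 (abs_nonneg _)

end Pool.Agent.P8H18.MF
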