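import Pool.Agent.P8H18.MF.Log
import Pool.Agent.P8H18.MF.Asym

/-! The mean of the logarithms of the `L`-functions: global part. -/

set_option autoImplicit false
set_option linter.unusedSectionVars false

namespace Pool.Agent.P8H18.MF

open Finset Filter Topology NumberField IsDedekindDomain
open Pool.Agent.H921R2.TatePole (nm two_le_nm nm_summable)
open Pool.Agent.H341R2 (card_v finite_v)

variable {K : Type} [Field K] [NumberField K] {ι : Type} [Fintype ι] [DecidableEq ι]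
  (β : Module.Basis ι ℤ (𝓞 K))

/-- the logarithm of the Euler factor -/
noncomputable def lv (s : ℂ) (v : HeightOneSpectrum (𝓞 K)) (a b : 𝓞 K) : ℂ := by
  classical
  exact if (6 : 𝓞 K) ∈ v.asIdeal then 0 else
    ll (Ideal.Quotient.mk v.asIdeal a) (Ideal.Quotient.mk v.asIdeal b) (xv v s)

theorem lv_bound {σ : ℝ} (hσ : 1 / 2 < σ) : ∃ C : ℝ, 0 ≤ C ∧
    ∀ (s : ℂ), σ ≤ s.re → ∀ (v : HeightOneSpectrum (𝓞 K)) (a b : 𝓞 K),
      ‖lv s v a b‖ ≤ C * (nm v : ℝ) ^ (1 / 2 - σ) := by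
  classical
  obtain ⟨hy0, hy1⟩ := y₀_bounds hσ
  have h4 : 0 ≤ 2 * (3 + (1 - (2 : ℝ) ^ (1 / 2 - σ))⁻¹) := by
    have : 0 ≤ (1 - (2 : ℝ) ^ (1 / 2 - σ))⁻¹ := by
      rw [inv_nonneg]
      linarith
    positivity
  refine ⟨2 * (3 + (1 - (2 : ℝ) ^ (1 / 2 - σ))⁻¹), h4, fun s hs v a b => ?_⟩
  unfold lv
  split_ifs with h6
  · rw [norm_zero]
    positivity
  · refine (ll_bound (six_ne h6) _ _ hy0 hy1 ((sz_le v hs).trans (pow_le_two v hσ))).trans ?_
    exact mul_le_mul_of_nonneg_left (sz_le v hs) h4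

theorem lv_summable {s : ℂ} (hs : 3 / 2 < s.re) (a b : 𝓞 K) :
    Summable fun v : HeightOneSpectrum (𝓞 K) => lv s v a b := by
  obtain ⟨C, hC, h⟩ := lv_bound (K := K) (σ := s.re) (by linarith)
  exact Summable.of_norm_bounded ((nm_summable' (by linarith)).mul_left C)
    fun v => h s le_rfl v a b

/-- the powers of the Euler factors are exponentials -/
theorem psi_eq_exp (k : ℂ) {s : ℂ} (hs : 1 / 2 < s.re) (v : HeightOneSpectrum (𝓞 K)) (a b : 𝓞 K) :
    psi k s v a b = Complex.exp (k * lv s v a b) := by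
  classical
  unfold psi lv
  split_ifs with h6
  · simp
  · unfold lp ll
    rw [Complex.cpow_def_of_ne_zero (lpol_ne (six_ne h6) _ _ (sz_lt_one v hs))]
    congr 1
    ring

theorem tprod_psi (k : ℂ) {s : ℂ} (hs : 3 / 2 < s.re) (a b : 𝓞 K) :
    HasProd (fun v : HeightOneSpectrum (𝓞 K) => psi k s v a b)
      (Complex.exp (k * ∑' v : HeightOneSpectrum (𝓞 K), lv s v a b)) := by
  have h := ((lv_summable hs a b).hasSum.mul_left k).cexp
  have e : (fun v : HeightOneSpectrum (𝓞 K) => psi k s v a b) =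
      Complex.exp ∘ fun v => k * lv s v a b := by
    funext v
    rw [psi_eq_exp k (by linarith)]
    rfl
  rw [e]
  exact h

/-- the mean of the logarithm of the Euler factor -/
noncomputable def Dv (s : ℂ) (v : HeightOneSpectrum (𝓞 K)) : ℂ := by
  classical
  exact if (6 : 𝓞 K) ∈ v.asIdeal then 0 else
    lam (𝓞 K ⧸ v.asIdeal) (xv v s) / (1 - ((nm v : ℂ) ^ 10)⁻¹)

theorem ll_zero {F : Type} [Field F] [Fintype F] [DecidableEq F] (h6 : (6 : F) ≠ 0) (X : ℂ) :
    ll (0 : F) 0 X = 0 := by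
  unfold ll lpol
  rw [tr_zero_zero h6, ep_true (by unfold Pool.Agent.P8H18.MF.D; ring)]
  simp

theorem meanR_one (c : Prop) : Tendsto (meanR β c fun _ _ => (1 : ℂ)) atTop (𝓝 1) := by
  classical
  have h0 := meanR_general (K := K) β c (φ := fun _ _ _ => 1) (fun _ _ => rfl) (u := fun _ => 0)
    summable_zero (fun v a b => by unfold psiG; split_ifs <;> simp)
  have e1 : ∀ a b : 𝓞 K, ∏' v, psiG (fun _ _ _ => (1 : ℂ)) v a b = 1 := by
    intro a b
    have : ∀ v : HeightOneSpectrum (𝓞 K), psiG (fun _ _ _ => (1 : ℂ)) v a b = 1 := by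
      intro v
      unfold psiG
      split_ifs <;> rfl
    simp [this]
  have e2 : ∀ v : HeightOneSpectrum (𝓞 K), MG (fun _ _ _ => (1 : ℂ)) v = 1 := by
    intro v
    unfold MG
    split_ifs
    · rfl
    · rw [sum_const2, mul_one, div_self card_ne, sub_self, zero_div, add_zero]
  simp only [e1, e2, tprod_one] at h0
  exact h0

theorem meanR_sub (c : Prop) (f g : 𝓞 K → 𝓞 K → ℂ) (N : ℕ × ℕ) :
    meanR β c (fun a b => f a b - g a b) N = meanR β c f N - meanR β c g N := by
  unfold meanR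
  rw [sum_sub_distrib, sub_div]

theorem norm_meanR_le (c : Prop) (f : 𝓞 K → 𝓞 K → ℂ) (N : ℕ × ℕ) {B : ℝ} (hB : 0 ≤ B)
    (h : ∀ a b, ‖f a b‖ ≤ B) : ‖meanR β c f N‖ ≤ B := by
  classical
  unfold meanR
  set A := (box β N.1 ×ˢ box β N.2).filter (fun p => Red c p.1 p.2) with hA
  by_cases h0 : A.card = 0
  · rw [h0, Nat.cast_zero, div_zero, norm_zero]
    exact hB
  · have h1 : (0 : ℝ) < A.card := by exact_mod_cast Nat.pos_of_ne_zero h0
    rw [norm_div, Complex.norm_natCast, div_le_iff₀ h1]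
    refine (norm_sum_le _ _).trans ((sum_le_card_nsmul _ _ B fun p _ => h _ _).trans_eq ?_)
    rw [nsmul_eq_mul, mul_comm]

/-- the mean of the logarithm of one Euler factor -/
theorem meanR_lv (c : Prop) {s : ℂ} (hs : 3 / 2 < s.re) (v : HeightOneSpectrum (𝓞 K)) :
    Tendsto (meanR β c (lv s v)) atTop (𝓝 (Dv s v)) := by
  classical
  obtain ⟨C, hC, hb⟩ := lv_bound (K := K) (σ := s.re) (by linarith)
  set B : ℝ := C * (nm v : ℝ) ^ (1 / 2 - s.re) with hB
  set φ : ∀ w : HeightOneSpectrum (𝓞 K), 𝓞 K ⧸ w.asIdeal → 𝓞 K ⧸ w.asIdeal → ℂ :=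
    fun w x y => 1 + (if w = v then ll x y (xv w s) else 0) with hφ
  have hpsi : ∀ w a b, psiG φ w a b = 1 + (if w = v then lv s v a b else 0) := by
    intro w a b
    unfold psiG
    by_cases hw : w = v
    · subst hw
      unfold lv
      by_cases h6 : (6 : 𝓞 K) ∈ w.asIdeal
      · simp [h6]
      · simp [h6, hφ]
    · by_cases h6 : (6 : 𝓞 K) ∈ w.asIdeal
      · simp [h6, hw]
      · simp [h6, hφ, hw]
  have h1 := meanR_general (K := K) β c (φ := φ) (fun w h6 => by
      simp only [hφ]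
      split_ifs
      · rw [ll_zero (six_ne h6), add_zero]
      · rw [add_zero]) (u := fun w => if w = v then B else 0)
    (summable_of_ne_finset_zero (s := {v}) fun w hw => by
      rw [mem_singleton] at hw
      rw [if_neg hw]) (fun w a b => by
      rw [hpsi, add_sub_cancel_left]
      split_ifs
      · exact hb s le_rfl v a b
      · rw [norm_zero])
  have e1 : ∀ a b : 𝓞 K, ∏' w, psiG φ w a b = 1 + lv s v a b := by
    intro a b
    rw [tprod_eq_mulSingle v fun w hw => by rw [hpsi, if_neg hw, add_zero], hpsi, if_pos rfl]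
  have e2 : ∏' w, MG φ w = 1 + Dv s v := by
    rw [tprod_eq_mulSingle v fun w hw => ?_]
    · unfold MG Dv
      by_cases h6 : (6 : 𝓞 K) ∈ v.asIdeal
      · simp [h6]
      · rw [if_neg h6, if_neg h6]
        congr 2
        simp only [hφ, if_true, sum_add_distrib]
        rw [sum_const2, mul_one, add_div, div_self card_ne, add_sub_cancel_left]
        rfl
    · unfold MG
      split_ifs
      · rfl
      · simp only [hφ, if_neg hw, add_zero]
        rw [sum_const2, mul_one, div_self card_ne, sub_self, zero_div, add_zero]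
  simp only [e1] at h1
  rw [e2] at h1
  have h2 := h1.sub (meanR_one β c)
  rw [add_sub_cancel_left] at h2
  refine h2.congr fun N => ?_
  rw [← meanR_sub]
  congr 1
  funext a b
  ring

/-- the mean function of the logarithms -/
noncomputable def Df (K : Type) [Field K] [NumberField K] (s : ℂ) : ℂ :=
  ∑' v : HeightOneSpectrum (𝓞 K), Dv s v

/-- **the mean of the logarithms** -/
theorem meanR_log (c : Prop) {s : ℂ} (hs : 3 / 2 < s.re) :
    Tendsto (meanR β c fun a b => ∑' v : HeightOneSpectrum (𝓞 K), lv s v a b) atTop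
      (𝓝 (Df K s)) := by
  classical
  obtain ⟨C, hC, hb⟩ := lv_bound (K := K) (σ := s.re) (by linarith)
  have h1 := tendsto_tsum_of_dominated_convergence (𝓕 := atTop)
    (f := fun (N : ℕ × ℕ) (v : HeightOneSpectrum (𝓞 K)) => meanR β c (lv s v) N)
    (g := fun v => Dv s v) (bound := fun v => C * (nm v : ℝ) ^ (1 / 2 - s.re))
    ((nm_summable' (by linarith)).mul_left C) (fun v => meanR_lv β c hs v)
    (Filter.Eventually.of_forall fun N v => norm_meanR_le β c _ N (by positivity)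
      fun a b => hb s le_rfl v a b)
  refine h1.congr fun N => ?_
  unfold meanR
  rw [tsum_div_const, Summable.tsum_finsetSum fun p _ => lv_summable hs p.1 p.2]

/-! ### continuation -/

theorem Dv_diff (v : HeightOneSpectrum (𝓞 K)) {s : ℂ} (hs : 1 / 2 < s.re) :
    DifferentiableAt ℂ (fun s => Dv s v) s := by
  classical
  unfold Dv
  by_cases h6 : (6 : 𝓞 K) ∈ v.asIdeal
  · simp only [if_pos h6]
    exact differentiableAt_const 0
  · simp only [if_neg h6]
    refine DifferentiableAt.div_const ?_ _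
    unfold lam
    refine DifferentiableAt.div_const ?_ _
    refine DifferentiableAt.fun_sum fun x _ => DifferentiableAt.fun_sum fun y _ => ?_
    exact DifferentiableAt.comp (g := ll x y) s (ll_diff (six_ne h6) x y (sz_lt_one v hs))
      (differentiable_xv v s)

theorem Dv_expand {σ : ℝ} (hσ : 1 / 2 < σ) : ∃ A : ℝ, 0 ≤ A ∧
    ∀ (s : ℂ), σ ≤ s.re → ∀ (v : HeightOneSpectrum (𝓞 K)),
      ‖Dv s v + 1 / 2 * zv s v‖ ≤
        A * ((nm v : ℝ) ^ (2 - 4 * σ) + (nm v : ℝ) ^ (-(2 * σ))) := by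
  classical
  obtain ⟨hy0, hy1⟩ := y₀_bounds hσ
  set C : ℝ := 2 * (1 - (2 : ℝ) ^ (1 / 2 - σ))⁻¹ with hCdef
  have hC : 0 ≤ C := by
    have : 0 ≤ (1 - (2 : ℝ) ^ (1 / 2 - σ))⁻¹ := by
      rw [inv_nonneg]
      linarith
    positivity
  refine ⟨2 * C + 2, by positivity, fun s hs v => ?_⟩
  have hq : (0 : ℝ) < nm v := by exact_mod_cast nm_pos v
  have hq1 : (1 : ℝ) ≤ nm v := by exact_mod_cast nm_pos v
  by_cases h6 : (6 : 𝓞 K) ∈ v.asIdeal
  · unfold Dv zv
    rw [if_pos h6, if_pos h6, mul_zero, add_zero, norm_zero]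
    positivity
  · have e := lam_expand hy1 (six_ne h6) (X := xv v s) ((sz_le v hs).trans (pow_le_two v hσ))
    rw [card_v] at e
    have hsz : sz (𝓞 K ⧸ v.asIdeal) (xv v s) ^ 4 ≤ (nm v : ℝ) ^ (2 - 4 * σ) := by
      have h1 : 0 ≤ sz (𝓞 K ⧸ v.asIdeal) (xv v s) := by
        unfold sz
        positivity
      calc sz (𝓞 K ⧸ v.asIdeal) (xv v s) ^ 4 ≤ ((nm v : ℝ) ^ (1 / 2 - σ)) ^ 4 := by
            gcongr
            exact sz_le v hs
        _ = (nm v : ℝ) ^ (2 - 4 * σ) := by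
            rw [← Real.rpow_natCast, ← Real.rpow_mul hq.le]
            congr 1
            push_cast
            ring
    have hx2 : xv v s ^ 2 * (nm v : ℂ) = zv s v := by
      unfold xv zv
      rw [if_neg h6]
      have h1 : (((nm v : ℕ) : ℂ) ^ (-s)) ^ 2 = ((nm v : ℕ) : ℂ) ^ (-(2 * s)) := by
        rw [← Complex.cpow_nat_mul]
        congr 1
        push_cast
        ring
      have h2 : ((nm v : ℕ) : ℂ) ^ (1 - 2 * s) = ((nm v : ℕ) : ℂ) ^ (-(2 * s)) * (nm v : ℂ) := by
        rw [sub_eq_neg_add, Complex.cpow_add _ _ (nm_ne v), Complex.cpow_one]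
      rw [h1, h2]
    have hxn : ‖xv v s ^ 2‖ ≤ (nm v : ℝ) ^ (-(2 * σ)) := by
      rw [norm_pow, norm_xv, ← Real.rpow_natCast, ← Real.rpow_mul hq.le]
      refine Real.rpow_le_rpow_of_exponent_le hq1 ?_
      push_cast
      linarith
    unfold Dv
    rw [if_neg h6, one_sub_eq h6]
    obtain ⟨r, hr1, hr2, hr3⟩ := dv_real v
    have hr0 : (r : ℂ) ≠ 0 := by exact_mod_cast (by linarith : (0 : ℝ) < r).ne'
    rw [hr3]
    set L := lam (𝓞 K ⧸ v.asIdeal) (xv v s) with hL
    have hd : dv v = 1 - ((nm v : ℂ) ^ 10)⁻¹ := (one_sub_eq h6).symm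
    have hr4 : (r : ℂ) = 1 - ((nm v : ℂ) ^ 10)⁻¹ := by rw [← hr3, hd]
    have hsplit : L / r + 1 / 2 * zv s v = (L - (-(1 / 2) * (((nm v : ℂ) - 1) * xv v s ^ 2))) / r +
        (-(1 / 2)) * (xv v s ^ 2 * ((((nm v : ℂ) - 1) - r * nm v) / r)) := by
      rw [← hx2]
      field_simp
      ring
    rw [hsplit]
    refine (norm_add_le _ _).trans ?_
    have t1 : ‖(L - (-(1 / 2) * (((nm v : ℂ) - 1) * xv v s ^ 2))) / r‖ ≤
        2 * (C * (nm v : ℝ) ^ (2 - 4 * σ)) := by
      rw [norm_div, Complex.norm_real, Real.norm_of_nonneg (by linarith), div_le_iff₀ (by linarith)]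
      have h1 := e.trans (mul_le_mul_of_nonneg_left hsz hC)
      have h2 : 0 ≤ C * (nm v : ℝ) ^ (2 - 4 * σ) := by positivity
      nlinarith
    have t2 : ‖(-(1 / 2) : ℂ) * (xv v s ^ 2 * ((((nm v : ℂ) - 1) - r * nm v) / r))‖ ≤
        (1 / 2) * ((nm v : ℝ) ^ (-(2 * σ)) * 4) := by
      rw [norm_mul, norm_mul]
      have h0 : ‖(-(1 / 2) : ℂ)‖ = 1 / 2 := by norm_num
      rw [h0]
      have h1 : ‖((((nm v : ℂ) - 1) - r * nm v) / r)‖ ≤ 4 := by
        have h2 : (((nm v : ℂ) - 1) - r * nm v) = (((nm v : ℝ) ^ 9)⁻¹ - 1 : ℝ) := by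
          rw [hr4]
          push_cast
          have := nm_ne v
          field_simp
          ring
        rw [h2, norm_div, Complex.norm_real, Complex.norm_real, Real.norm_of_nonneg
          (by linarith : (0 : ℝ) ≤ r), div_le_iff₀ (by linarith), Real.norm_eq_abs, abs_le]
        have h3 : 0 ≤ ((nm v : ℝ) ^ 9)⁻¹ := by positivity
        have h4 : ((nm v : ℝ) ^ 9)⁻¹ ≤ 1 := inv_le_one_of_one_le₀ (one_le_pow₀ hq1)
        constructor <;> linarith
      exact mul_le_mul_of_nonneg_left (mul_le_mul hxn h1 (norm_nonneg _) (by positivity))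
        (by norm_num)
    refine (add_le_add t1 t2).trans ?_
    have g1 : 0 ≤ (nm v : ℝ) ^ (2 - 4 * σ) := by positivity
    have g2 : 0 ≤ (nm v : ℝ) ^ (-(2 * σ)) := by positivity
    nlinarith [mul_nonneg hC g2]

/-- the regular part of the mean of the logarithms -/
noncomputable def Rf (K : Type) [Field K] [NumberField K] (s : ℂ) : ℂ :=
  ∑' v : HeightOneSpectrum (𝓞 K), (Dv s v + 1 / 2 * zv s v)

theorem Rf_summable {s : ℂ} (hs : 3 / 4 < s.re) :
    Summable fun v : HeightOneSpectrum (𝓞 K) => Dv s v + 1 / 2 * zv s v := by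
  obtain ⟨A, hA, h⟩ := Dv_expand (K := K) (σ := s.re) (by linarith)
  exact Summable.of_norm_bounded ((tail_summable hs).mul_left A) fun v => h s le_rfl v

theorem Rf_diff : DifferentiableOn ℂ (Rf K) {s : ℂ | 3 / 4 < s.re} := by
  intro s hs
  rw [Set.mem_ofPred_eq] at hs
  obtain ⟨σ, h1, h2⟩ := exists_between hs
  obtain ⟨A, hA, h⟩ := Dv_expand (K := K) (σ := σ) (by linarith)
  have hUo : IsOpen {s : ℂ | σ < s.re} := isOpen_lt continuous_const Complex.continuous_re
  have h3 := Complex.differentiableOn_tsum_of_summable_norm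
    (F := fun (v : HeightOneSpectrum (𝓞 K)) (s : ℂ) => Dv s v + 1 / 2 * zv s v)
    ((tail_summable h1).mul_left A) (fun v z hz => by
      have hz' : σ < z.re := hz
      exact ((Dv_diff v (by linarith)).add
        (((differentiable_const _).mul (zv_diff v)) z)).differentiableWithinAt) hUo
    (fun v z hz => by
      have hz' : σ < z.re := hz
      exact h z hz'.le v)
  exact (h3.differentiableAt (hUo.mem_nhds h2)).differentiableWithinAt

theorem Df_eq {s : ℂ} (hs : 1 < s.re) :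
    Df K s = Rf K s - 1 / 2 * ∑' v : HeightOneSpectrum (𝓞 K), zv s v := by
  have h1 := Rf_summable (K := K) (s := s) (by linarith)
  have h2 := (zv_summable (K := K) hs).mul_left (1 / 2)
  unfold Df Rf
  rw [← tsum_mul_left, ← h1.tsum_sub h2]
  exact tsum_congr fun v => by ring

theorem Df_asym : ∃ C : ℝ, ∀ᶠ σ : ℝ in 𝓝[>] 1,
    ‖Df K (σ : ℂ) - 1 / 2 * Real.log (σ - 1)‖ ≤ C := by
  obtain ⟨C, hC⟩ := Zr_bound (K := K)
  have hcont : ContinuousAt (fun σ : ℝ => ‖Rf K (σ : ℂ)‖) 1 := by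
    have h1 : ContinuousAt (Rf K) ((1 : ℝ) : ℂ) := by
      have h2 : IsOpen {s : ℂ | 3 / 4 < s.re} := isOpen_lt continuous_const Complex.continuous_re
      exact ((Rf_diff (K := K)).differentiableAt (h2.mem_nhds (by
        simp only [Set.mem_ofPred_eq, Complex.ofReal_re]; norm_num))).continuousAt
    exact (ContinuousAt.comp (g := Rf K) h1 Complex.continuous_ofReal.continuousAt).norm
  have hev : ∀ᶠ σ : ℝ in 𝓝[>] 1, ‖Rf K (σ : ℂ)‖ ≤ ‖Rf K ((1 : ℝ) : ℂ)‖ + 1 := by
    have h1 := (hcont.tendsto).mono_left (nhdsWithin_le_nhds (s := Set.Ioi (1 : ℝ)))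
    filter_upwards [h1.eventually (gt_mem_nhds (lt_add_one ‖Rf K ((1 : ℝ) : ℂ)‖))] with σ h
    exact h.le
  refine ⟨‖Rf K ((1 : ℝ) : ℂ)‖ + 1 + C, ?_⟩
  filter_upwards [hC, hev, self_mem_nhdsWithin] with σ h1 h2 hσ
  have hσ' : (1 : ℝ) < σ := hσ
  have hC0 : 0 ≤ C := (abs_nonneg _).trans h1
  rw [Df_eq (s := (σ : ℂ)) (by simpa using hσ'), Zr_eq]
  have e : Rf K (σ : ℂ) - 1 / 2 * (Zr K σ : ℂ) - 1 / 2 * (Real.log (σ - 1) : ℂ) =
      Rf K (σ : ℂ) - ((1 / 2 * (Zr K σ + Real.log (σ - 1)) : ℝ) : ℂ) := by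
    push_cast
    ring
  rw [e]
  refine (norm_sub_le _ _).trans (add_le_add h2 ?_)
  rw [Complex.norm_real, Real.norm_eq_abs, abs_mul]
  rw [abs_of_pos (by norm_num : (0 : ℝ) < 1 / 2)]
  linarith

theorem Df_diff : DifferentiableOn ℂ (Df K) {s : ℂ | 1 < s.re} := by
  intro s hs
  rw [Set.mem_ofPred_eq] at hs
  obtain ⟨σ, h1, h2⟩ := exists_between hs
  have hUo : IsOpen {s : ℂ | σ < s.re} := isOpen_lt continuous_const Complex.continuous_re
  have h3 := Complex.differentiableOn_tsum_of_summable_norm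
    (F := fun (v : HeightOneSpectrum (𝓞 K)) (s : ℂ) => zv s v)
    (u := fun v : HeightOneSpectrum (𝓞 K) => (nm v : ℝ) ^ (1 - 2 * σ))
    (nm_summable' (by linarith)) (fun v z _ => (zv_diff v z).differentiableWithinAt) hUo
    (fun v z hz => by
      have hz' : σ < z.re := hz
      refine (norm_zv_le z v).trans ?_
      exact Real.rpow_le_rpow_of_exponent_le (by exact_mod_cast nm_pos v) (by linarith))
  have h4 : DifferentiableAt ℂ (fun s => Rf K s - 1 / 2 * ∑' v : HeightOneSpectrum (𝓞 K), zv s v)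
      s := by
    have h5 : IsOpen {s : ℂ | 3 / 4 < s.re} := isOpen_lt continuous_const Complex.continuous_re
    exact ((Rf_diff (K := K)).differentiableAt (h5.mem_nhds (by
      simp only [Set.mem_ofPred_eq]; linarith))).sub
      ((h3.differentiableAt (hUo.mem_nhds h2)).const_mul _)
  refine (h4.congr_of_eventuallyEq ?_).differentiableWithinAt
  filter_upwards [(isOpen_lt continuous_const Complex.continuous_re).mem_nhds hs] with z hz
  exact Df_eq hz

end Pool.Agent.P8H18.MF
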