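import Mathlib

/-! Means over boxes in the ring of integers of a number field of functions that are periodic
modulo an ideal. -/

set_option autoImplicit false
set_option linter.unusedSectionVars false

namespace Pool.Agent.P8H18.MF

open Finset Filter Topology

variable {R : Type} [CommRing R] {ι : Type} [Fintype ι] [DecidableEq ι]

/-- the elements all of whose coordinates in the basis `β` are at most `X` in absolute value -/
noncomputable def box (β : Module.Basis ι ℤ R) (X : ℕ) : Finset R :=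
  (Fintype.piFinset fun _ : ι => Icc (-(X : ℤ)) X).map β.equivFun.symm.toEquiv.toEmbedding

theorem mem_box (β : Module.Basis ι ℤ R) (X : ℕ) (a : R) :
    a ∈ box β X ↔ ∀ i, |β.repr a i| ≤ X := by
  unfold box
  rw [Finset.mem_map]
  constructor
  · rintro ⟨c, hc, rfl⟩ i
    have h1 : β.repr (β.equivFun.symm.toEquiv.toEmbedding c) i = c i := by
      have : β.equivFun (β.equivFun.symm c) = c := β.equivFun.apply_symm_apply c
      exact congrFun this i
    rw [h1]
    have := Fintype.mem_piFinset.1 hc i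
    rw [mem_Icc] at this
    exact abs_le.2 this
  · intro h
    refine ⟨β.equivFun a, ?_, β.equivFun.symm_apply_apply a⟩
    rw [Fintype.mem_piFinset]
    intro i
    rw [mem_Icc]
    exact abs_le.1 (h i)

theorem card_box (β : Module.Basis ι ℤ R) (X : ℕ) :
    (box β X).card = (2 * X + 1) ^ Fintype.card ι := by
  unfold box
  rw [card_map, Fintype.card_piFinset]
  simp only [Int.card_Icc, prod_const, card_univ]
  congr 1
  omega

theorem card_box_pos (β : Module.Basis ι ℤ R) (X : ℕ) : 0 < (box β X).card := by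
  rw [card_box]
  positivity

theorem box_mono (β : Module.Basis ι ℤ R) {X Y : ℕ} (h : X ≤ Y) : box β X ⊆ box β Y := by
  intro a ha
  rw [mem_box] at ha ⊢
  exact fun i => (ha i).trans (by exact_mod_cast h)

theorem exists_size (β : Module.Basis ι ℤ R) (t : R) : ∃ T : ℕ, ∀ i, |β.repr t i| ≤ T := by
  refine ⟨∑ i, (|β.repr t i|).toNat, fun i => ?_⟩
  have h1 : (|β.repr t i|).toNat ≤ ∑ i, (|β.repr t i|).toNat :=
    single_le_sum (f := fun i => (|β.repr t i|).toNat) (fun _ _ => Nat.zero_le _) (mem_univ i)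
  have h2 : |β.repr t i| = ((|β.repr t i|).toNat : ℤ) := (Int.toNat_of_nonneg (abs_nonneg _)).symm
  rw [h2]
  exact_mod_cast h1

/-- the ratio of the sizes of boxes -/
theorem ratio_tendsto (β : Module.Basis ι ℤ R) (T : ℕ) :
    Tendsto (fun X : ℕ => ((box β (X + T)).card - (box β X).card : ℝ) / (box β X).card) atTop
      (𝓝 0) := by
  have h1 : ∀ X : ℕ, ((box β (X + T)).card - (box β X).card : ℝ) / (box β X).card =
      (1 + 2 * T / (2 * X + 1 : ℝ)) ^ Fintype.card ι - 1 := by
    intro X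
    rw [card_box, card_box]
    have h2 : (2 * (X : ℝ) + 1) ≠ 0 := by positivity
    push_cast
    rw [sub_div, div_self (pow_ne_zero _ h2), ← div_pow]
    congr 2
    field_simp
    ring
  simp_rw [h1]
  have h2 : Tendsto (fun X : ℕ => 2 * T / (2 * (X : ℝ) + 1)) atTop (𝓝 0) := by
    refine Tendsto.const_div_atTop ?_ _
    refine tendsto_atTop_add_const_right _ _ ?_
    exact tendsto_natCast_atTop_atTop.const_mul_atTop (by norm_num)
  have h3 := (h2.const_add 1).pow (Fintype.card ι)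
  simpa using h3.sub_const 1

section count
variable (β : Module.Basis ι ℤ R) (I : Ideal R)

open Classical in
/-- number of the elements of the box in a residue class -/
noncomputable def cnt (X : ℕ) (α : R ⧸ I) : ℕ :=
  ((box β X).filter fun a => Ideal.Quotient.mk I a = α).card

open Classical in
theorem cnt_mono {X Y : ℕ} (h : X ≤ Y) (α : R ⧸ I) : cnt β I X α ≤ cnt β I Y α :=
  card_le_card (filter_subset_filter _ (box_mono β h))

open Classical in
theorem cnt_shift (X : ℕ) (α α' : R ⧸ I) {t : R} {T : ℕ} (ht : Ideal.Quotient.mk I t = α' - α)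
    (hT : ∀ i, |β.repr t i| ≤ T) : cnt β I X α ≤ cnt β I (X + T) α' := by
  refine card_le_card_of_injOn (fun a => a + t) ?_ (fun a _ b _ h => add_right_cancel h)
  intro a ha
  have ha' := mem_coe.1 ha
  rw [mem_filter, mem_box] at ha'
  rw [mem_coe, mem_filter, mem_box]
  refine ⟨fun i => ?_, ?_⟩
  · rw [map_add, Finsupp.add_apply]
    push_cast
    exact (abs_add_le _ _).trans (add_le_add (ha'.1 i) (hT i))
  · rw [map_add, ha'.2, ht]
    ring

open Classical in
theorem cnt_sum [Fintype (R ⧸ I)] (X : ℕ) : ∑ α, cnt β I X α = (box β X).card := by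
  unfold cnt
  exact (card_eq_sum_card_fiberwise (fun _ _ => mem_univ _)).symm

open Classical in
theorem cnt_diff [Fintype (R ⧸ I)] (X : ℕ) (α α' : R ⧸ I) {t : R} {T : ℕ}
    (ht : Ideal.Quotient.mk I t = α' - α) (hT : ∀ i, |β.repr t i| ≤ T) :
    (cnt β I X α : ℝ) - cnt β I X α' ≤ (box β (X + T)).card - (box β X).card := by
  have h1 := cnt_shift β I X α α' ht hT
  have h2 : ∑ γ, (cnt β I (X + T) γ - cnt β I X γ : ℝ) =
      (box β (X + T)).card - (box β X).card := by
    rw [sum_sub_distrib]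
    rw [← cnt_sum β I (X + T), ← cnt_sum β I X]
    push_cast
    rfl
  have h3 : (cnt β I (X + T) α' - cnt β I X α' : ℝ) ≤
      ∑ γ, (cnt β I (X + T) γ - cnt β I X γ : ℝ) := by
    refine single_le_sum (f := fun γ => (cnt β I (X + T) γ - cnt β I X γ : ℝ)) (fun γ _ => ?_)
      (mem_univ α')
    have := cnt_mono β I (Nat.le_add_right X T) γ
    have h4 : (cnt β I X γ : ℝ) ≤ cnt β I (X + T) γ := by exact_mod_cast this
    linarith
  have h4 : (cnt β I X α : ℝ) ≤ cnt β I (X + T) α' := by exact_mod_cast h1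
  linarith

open Classical in
/-- equidistribution in residue classes -/
theorem cnt_tendsto [Fintype (R ⧸ I)] (α : R ⧸ I) :
    Tendsto (fun X : ℕ => (cnt β I X α : ℝ) / (box β X).card) atTop
      (𝓝 (1 / Fintype.card (R ⧸ I))) := by
  -- a bound for all shifts
  choose t ht using fun p : (R ⧸ I) × (R ⧸ I) => Ideal.Quotient.mk_surjective (p.2 - p.1)
  choose T hT using fun p : (R ⧸ I) × (R ⧸ I) => exists_size β (t p)
  set U : ℕ := ∑ p, T p with hU
  have hTU : ∀ p, T p ≤ U := fun p => single_le_sum (f := T) (fun _ _ => Nat.zero_le _) (mem_univ p)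
  have hTU' : ∀ p i, |β.repr (t p) i| ≤ U := fun p i => (hT p i).trans (by exact_mod_cast hTU p)
  have hd : ∀ X α α', (cnt β I X α : ℝ) - cnt β I X α' ≤
      (box β (X + U)).card - (box β X).card := fun X α α' =>
    cnt_diff β I X α α' (ht (α, α')) (hTU' (α, α'))
  have hq : (0 : ℝ) < Fintype.card (R ⧸ I) := by exact_mod_cast Fintype.card_pos
  rw [tendsto_iff_norm_sub_tendsto_zero]
  refine squeeze_zero (fun _ => norm_nonneg _) (fun X => ?_) (ratio_tendsto β U)
  have hb : (0 : ℝ) < (box β X).card := by exact_mod_cast card_box_pos β X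
  set δ : ℝ := (box β (X + U)).card - (box β X).card with hδ
  have hδ0 : 0 ≤ δ := by
    have := hd X α α
    rwa [sub_self] at this
  have h1 : (Fintype.card (R ⧸ I) : ℝ) * cnt β I X α - (box β X).card =
      ∑ α', ((cnt β I X α : ℝ) - cnt β I X α') := by
    rw [sum_sub_distrib, sum_const, card_univ, nsmul_eq_mul, ← cnt_sum β I X]
    push_cast
    rfl
  have h2 : |(Fintype.card (R ⧸ I) : ℝ) * cnt β I X α - (box β X).card| ≤
      Fintype.card (R ⧸ I) * δ := by
    rw [h1]
    refine (abs_sum_le_sum_abs _ _).trans ((sum_le_card_nsmul _ _ δ fun α' _ => ?_).trans_eq ?_)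
    · rw [abs_le]
      constructor
      · have := hd X α' α
        linarith
      · exact hd X α α'
    · rw [card_univ, nsmul_eq_mul]
  have h3 : (cnt β I X α : ℝ) / (box β X).card - 1 / Fintype.card (R ⧸ I) =
      ((Fintype.card (R ⧸ I) : ℝ) * cnt β I X α - (box β X).card) /
        (Fintype.card (R ⧸ I) * (box β X).card) := by
    field_simp
  rw [h3, norm_div, Real.norm_eq_abs, Real.norm_of_nonneg (by positivity), div_le_div_iff₀
    (by positivity) hb]
  calc |(Fintype.card (R ⧸ I) : ℝ) * cnt β I X α - (box β X).card| * (box β X).card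
      ≤ (Fintype.card (R ⧸ I) * δ) * (box β X).card := by gcongr
    _ = δ * (Fintype.card (R ⧸ I) * (box β X).card) := by ring

end count

section mean
variable (β : Module.Basis ι ℤ R)

/-- the mean over pairs -/
noncomputable def mean2 (f : R → R → ℂ) (N : ℕ × ℕ) : ℂ :=
  (∑ a ∈ box β N.1, ∑ b ∈ box β N.2, f a b) / ((box β N.1).card * (box β N.2).card)

/-- the limit of the means is `c` -/
def HasM (f : R → R → ℂ) (c : ℂ) : Prop := Tendsto (mean2 β f) atTop (𝓝 c)

variable {β}

theorem HasM.unique {f : R → R → ℂ} {c d : ℂ} (h1 : HasM β f c) (h2 : HasM β f d) : c = d :=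
  tendsto_nhds_unique h1 h2

theorem HasM.sub {f g : R → R → ℂ} {c d : ℂ} (h1 : HasM β f c) (h2 : HasM β g d) :
    HasM β (fun a b => f a b - g a b) (c - d) := by
  have := Tendsto.sub h1 h2
  refine this.congr fun N => ?_
  unfold mean2
  rw [← sub_div]
  congr 1
  simp_rw [sum_sub_distrib]

theorem card_ne' (X : ℕ) : ((box β X).card : ℂ) ≠ 0 := by
  have := card_box_pos β X
  exact_mod_cast this.ne'

theorem norm_mean2_le (f : R → R → ℂ) (N : ℕ × ℕ) {B : ℝ}
    (h : ∀ a b, ‖f a b‖ ≤ B) : ‖mean2 β f N‖ ≤ B := by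
  unfold mean2
  have h0 : (0 : ℝ) < (box β N.1).card * (box β N.2).card := by
    have h1 := card_box_pos β N.1
    have h2 := card_box_pos β N.2
    positivity
  rw [norm_div, norm_mul, Complex.norm_natCast, Complex.norm_natCast, div_le_iff₀ h0]
  refine (norm_sum_le _ _).trans ((sum_le_sum fun a _ => norm_sum_le _ _).trans ?_)
  refine (sum_le_sum fun a _ => sum_le_sum fun b _ => h a b).trans (le_of_eq ?_)
  rw [sum_const, sum_const, nsmul_eq_mul, nsmul_eq_mul]
  ring

theorem tendsto_fst_atTop : Tendsto (fun N : ℕ × ℕ => N.1) atTop atTop := by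
  rw [← prod_atTop_atTop_eq]
  exact tendsto_fst

theorem tendsto_snd_atTop : Tendsto (fun N : ℕ × ℕ => N.2) atTop atTop := by
  rw [← prod_atTop_atTop_eq]
  exact tendsto_snd

open Classical in
/-- the mean of a function periodic modulo `I` -/
theorem hasM_mod (I : Ideal R) [Fintype (R ⧸ I)] (φ : R ⧸ I → R ⧸ I → ℂ) :
    HasM β (fun a b => φ (Ideal.Quotient.mk I a) (Ideal.Quotient.mk I b))
      ((∑ x, ∑ y, φ x y) / (Fintype.card (R ⧸ I) : ℂ) ^ 2) := by
  have h1 : ∀ N : ℕ × ℕ, mean2 β (fun a b => φ (Ideal.Quotient.mk I a) (Ideal.Quotient.mk I b)) N =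
      ∑ x, ∑ y, φ x y * ((((cnt β I N.1 x : ℝ) / (box β N.1).card : ℝ) : ℂ) *
        (((cnt β I N.2 y : ℝ) / (box β N.2).card : ℝ) : ℂ)) := by
    intro N
    unfold mean2
    have h2 : ∀ (X : ℕ) (g : R ⧸ I → ℂ), ∑ a ∈ box β X, g (Ideal.Quotient.mk I a) =
        ∑ x, (cnt β I X x : ℂ) * g x := by
      intro X g
      rw [← sum_fiberwise_of_maps_to (t := (univ : Finset (R ⧸ I)))
        (g := fun a => Ideal.Quotient.mk I a) (fun _ _ => mem_univ _)]
      refine sum_congr rfl fun x _ => ?_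
      rw [cnt, ← nsmul_eq_mul, ← sum_const]
      refine sum_congr rfl fun a ha => ?_
      rw [mem_filter] at ha
      rw [ha.2]
    rw [h2 N.1 (fun x => ∑ b ∈ box β N.2, φ x (Ideal.Quotient.mk I b))]
    rw [sum_div]
    refine sum_congr rfl fun x _ => ?_
    rw [h2 N.2 (φ x), mul_sum, sum_div]
    refine sum_congr rfl fun y _ => ?_
    push_cast
    field_simp
  unfold HasM
  simp_rw [funext h1]
  have h3 : (∑ x, ∑ y, φ x y) / (Fintype.card (R ⧸ I) : ℂ) ^ 2 =
      ∑ x, ∑ y, φ x y * ((((1 / Fintype.card (R ⧸ I) : ℝ)) : ℂ) *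
        (((1 / Fintype.card (R ⧸ I) : ℝ)) : ℂ)) := by
    rw [sum_div]
    refine sum_congr rfl fun x _ => ?_
    rw [sum_div]
    refine sum_congr rfl fun y _ => ?_
    push_cast
    field_simp
  rw [h3]
  refine tendsto_finsetSum _ fun x _ => tendsto_finsetSum _ fun y _ => tendsto_const_nhds.mul ?_
  refine Tendsto.mul ?_ ?_
  · exact ((Complex.continuous_ofReal.tendsto _).comp (cnt_tendsto β I x)).comp tendsto_fst_atTop
  · exact ((Complex.continuous_ofReal.tendsto _).comp (cnt_tendsto β I y)).comp tendsto_snd_atTop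

open Classical in
/-- the density of `I × J` -/
theorem hasM_indicator (I J : Ideal R) [Fintype (R ⧸ I)] [Fintype (R ⧸ J)] :
    HasM β (fun a b => if a ∈ I ∧ b ∈ J then 1 else 0)
      (1 / ((Fintype.card (R ⧸ I) : ℂ) * Fintype.card (R ⧸ J))) := by
  have h1 : ∀ N : ℕ × ℕ, mean2 β (fun a b => if a ∈ I ∧ b ∈ J then (1 : ℂ) else 0) N =
      ((((cnt β I N.1 0 : ℝ) / (box β N.1).card : ℝ) : ℂ) *
        (((cnt β J N.2 0 : ℝ) / (box β N.2).card : ℝ) : ℂ)) := by
    intro N
    unfold mean2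
    have h2 : ∀ (L : Ideal R) (X : ℕ), ∑ a ∈ box β X, (if a ∈ L then (1 : ℂ) else 0) =
        (cnt β L X 0 : ℂ) := by
      intro L X
      rw [← sum_filter, sum_const, nsmul_one, cnt]
      congr 2
      ext a
      rw [mem_filter, mem_filter, Ideal.Quotient.eq_zero_iff_mem]
    have h3 : ∀ a b : R, (if a ∈ I ∧ b ∈ J then (1 : ℂ) else 0) =
        (if a ∈ I then (1 : ℂ) else 0) * (if b ∈ J then (1 : ℂ) else 0) := by
      intro a b
      by_cases ha : a ∈ I <;> by_cases hb : b ∈ J <;> simp [ha, hb]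
    simp_rw [h3]
    rw [← sum_mul_sum, h2, h2]
    push_cast
    rw [div_mul_div_comm]
  unfold HasM
  simp_rw [funext h1]
  have h4 : (1 / ((Fintype.card (R ⧸ I) : ℂ) * Fintype.card (R ⧸ J))) =
      (((1 / Fintype.card (R ⧸ I) : ℝ)) : ℂ) * (((1 / Fintype.card (R ⧸ J) : ℝ)) : ℂ) := by
    push_cast
    field_simp
  rw [h4]
  refine Tendsto.mul ?_ ?_
  · exact ((Complex.continuous_ofReal.tendsto _).comp (cnt_tendsto β I 0)).comp tendsto_fst_atTop
  · exact ((Complex.continuous_ofReal.tendsto _).comp (cnt_tendsto β J 0)).comp tendsto_snd_atTop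

/-- periodicity modulo `I` -/
def Per (I : Ideal R) (f : R → R → ℂ) : Prop :=
  ∀ a b a' b', a - a' ∈ I → b - b' ∈ I → f a b = f a' b'

theorem Per.mono {I J : Ideal R} (h : I ≤ J) {f : R → R → ℂ} (hf : Per J f) : Per I f :=
  fun a b a' b' ha hb => hf a b a' b' (h ha) (h hb)

theorem Per.mul {I : Ideal R} {f g : R → R → ℂ} (hf : Per I f) (hg : Per I g) :
    Per I (fun a b => f a b * g a b) := fun a b a' b' ha hb => by
  simp only [hf a b a' b' ha hb, hg a b a' b' ha hb]

theorem Per.exists {I : Ideal R} {f : R → R → ℂ} (hf : Per I f) :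
    ∃ φ : R ⧸ I → R ⧸ I → ℂ, ∀ a b, f a b = φ (Ideal.Quotient.mk I a) (Ideal.Quotient.mk I b) := by
  refine ⟨fun x y => f (Quotient.out x) (Quotient.out y), fun a b => ?_⟩
  have h1 : ∀ a : R, a - Quotient.out (Ideal.Quotient.mk I a) ∈ I := by
    intro a
    rw [← Ideal.Quotient.eq, Ideal.Quotient.mk_out]
  exact hf _ _ _ _ (h1 a) (h1 b)

open Classical in
/-- **Chinese remainder theorem for means** -/
theorem hasM_mul {I J : Ideal R} [Finite (R ⧸ I)] [Finite (R ⧸ J)] (hIJ : IsCoprime I J)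
    {f g : R → R → ℂ} (hf : Per I f) (hg : Per J g) {c d : ℂ} (h1 : HasM β f c)
    (h2 : HasM β g d) : HasM β (fun a b => f a b * g a b) (c * d) := by
  obtain ⟨φ, hφ⟩ := hf.exists
  obtain ⟨ψ, hψ⟩ := hg.exists
  have hfI : Fintype (R ⧸ I) := Fintype.ofFinite _
  have hfJ : Fintype (R ⧸ J) := Fintype.ofFinite _
  let e := Ideal.quotientInfEquivQuotientProd I J hIJ
  have hfin : Fintype (R ⧸ (I ⊓ J)) := Fintype.ofEquiv _ e.symm.toEquiv
  have hc : c = (∑ x, ∑ y, φ x y) / (Fintype.card (R ⧸ I) : ℂ) ^ 2 := by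
    have := hasM_mod (β := β) I φ
    refine h1.unique ?_
    have e1 : (fun a b => φ (Ideal.Quotient.mk I a) (Ideal.Quotient.mk I b)) = f := by
      funext a b
      exact (hφ a b).symm
    rwa [e1] at this
  have hd : d = (∑ x, ∑ y, ψ x y) / (Fintype.card (R ⧸ J) : ℂ) ^ 2 := by
    have := hasM_mod (β := β) J ψ
    refine h2.unique ?_
    have e1 : (fun a b => ψ (Ideal.Quotient.mk J a) (Ideal.Quotient.mk J b)) = g := by
      funext a b
      exact (hψ a b).symm
    rwa [e1] at this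
  have h3 := hasM_mod (β := β) (I ⊓ J)
    (fun x y => φ (e x).1 (e y).1 * ψ (e x).2 (e y).2)
  have he : ∀ a : R, e (Ideal.Quotient.mk (I ⊓ J) a) =
      (Ideal.Quotient.mk I a, Ideal.Quotient.mk J a) := fun a => rfl
  have e1 : (fun a b => φ (e (Ideal.Quotient.mk (I ⊓ J) a)).1 (e (Ideal.Quotient.mk (I ⊓ J) b)).1 *
      ψ (e (Ideal.Quotient.mk (I ⊓ J) a)).2 (e (Ideal.Quotient.mk (I ⊓ J) b)).2) =
      fun a b => f a b * g a b := by
    funext a b
    rw [he, he, hφ, hψ]
  rw [e1] at h3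
  have e2 : (∑ x : R ⧸ (I ⊓ J), ∑ y : R ⧸ (I ⊓ J), φ (e x).1 (e y).1 * ψ (e x).2 (e y).2) /
      (Fintype.card (R ⧸ (I ⊓ J)) : ℂ) ^ 2 = c * d := by
    rw [Fintype.card_congr e.toEquiv, Fintype.card_prod, hc, hd]
    have e3 : (∑ x : R ⧸ (I ⊓ J), ∑ y : R ⧸ (I ⊓ J), φ (e x).1 (e y).1 * ψ (e x).2 (e y).2) =
        ∑ x : (R ⧸ I) × (R ⧸ J), ∑ y : (R ⧸ I) × (R ⧸ J), φ x.1 y.1 * ψ x.2 y.2 := by
      rw [← e.toEquiv.sum_comp fun x => ∑ y : (R ⧸ I) × (R ⧸ J), φ x.1 y.1 * ψ x.2 y.2]
      refine sum_congr rfl fun x _ => ?_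
      rw [← e.toEquiv.sum_comp fun y => φ (e.toEquiv x).1 y.1 * ψ (e.toEquiv x).2 y.2]
      rfl
    rw [e3]
    have e4 : (∑ x : (R ⧸ I) × (R ⧸ J), ∑ y : (R ⧸ I) × (R ⧸ J), φ x.1 y.1 * ψ x.2 y.2) =
        (∑ x, ∑ y, φ x y) * (∑ x, ∑ y, ψ x y) := by
      rw [Fintype.sum_prod_type]
      simp_rw [Fintype.sum_prod_type]
      simp_rw [← mul_sum, ← sum_mul]
      rw [sum_mul_sum]
    rw [e4]
    push_cast
    rw [mul_pow, mul_div_mul_comm]
  rw [e2] at h3
  exact h3

end mean

end Pool.Agent.P8H18.MF
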