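import Pool.Agent.P8H18.MF.Glob

/-! Continuation of the mean functions. -/

set_option autoImplicit false
set_option linter.unusedSectionVars false

namespace Pool.Agent.P8H18.MF

open Finset Filter Topology NumberField IsDedekindDomain
open Pool.Agent.H921R2.TatePole (nm two_le_nm nm_summable)
open Pool.Agent.H341R2 (card_v finite_v)

section gen

/-- holomorphy of infinite products -/
theorem tprod_diff {V : Type*} (f : V → ℂ → ℂ) (σ₀ : ℝ)
    (hd : ∀ v s, σ₀ < s.re → DifferentiableAt ℂ (f v) s)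
    (hb : ∀ σ : ℝ, σ₀ < σ → ∃ u : V → ℝ, Summable u ∧ ∀ s : ℂ, σ ≤ s.re → ∀ v,
      ‖f v s - 1‖ ≤ u v) :
    DifferentiableOn ℂ (fun s => ∏' v, f v s) {s : ℂ | σ₀ < s.re} := by
  intro s hs
  rw [Set.mem_ofPred_eq] at hs
  obtain ⟨σ, h1, h2⟩ := exists_between hs
  obtain ⟨u, hu, hub⟩ := hb σ h1
  set U : Set ℂ := {s : ℂ | σ < s.re} with hU
  have hUo : IsOpen U := isOpen_lt continuous_const Complex.continuous_re
  have hd' : ∀ v, DifferentiableOn ℂ (fun s => f v s - 1) U := fun v s hs =>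
    ((hd v s (by
      have : σ < s.re := hs
      linarith)).sub_const 1).differentiableWithinAt
  have h3 := Summable.hasProdLocallyUniformlyOn_one_add (f := fun v s => f v s - 1) hUo hu
    (Filter.Eventually.of_forall fun v s hs => by
      have hs' : σ < s.re := hs
      exact hub s hs'.le v)
    (fun v => (hd' v).continuousOn)
  have h4 : DifferentiableOn ℂ (fun s => ∏' v, (1 + (f v s - 1))) U := by
    refine TendstoLocallyUniformlyOn.differentiableOn h3 ?_ hUo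
    refine Filter.Eventually.of_forall fun S => ?_
    have : (fun b => ∏ i ∈ S, (1 + (f i b - 1))) = fun b => ∏ i ∈ S, f i b := by
      funext b
      exact prod_congr rfl fun i _ => by ring
    rw [this]
    refine DifferentiableOn.fun_finsetProd fun v _ => ?_
    intro z hz
    have hz' : σ < z.re := hz
    exact (hd v z (by linarith)).differentiableWithinAt
  have h5 : (fun s => ∏' v, f v s) = fun s => ∏' v, (1 + (f v s - 1)) := by
    funext s
    exact tprod_congr fun v => by ring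
  rw [h5]
  exact (h4.differentiableAt (hUo.mem_nhds h2)).differentiableWithinAt

/-- positivity of infinite products -/
theorem tprod_pos {V : Type*} (f : V → ℂ) (u : V → ℝ) (hu : Summable u)
    (hb : ∀ v, ‖f v - 1‖ ≤ u v) (hpos : ∀ v, ∃ r : ℝ, 0 < r ∧ f v = r) :
    ∃ r : ℝ, 0 < r ∧ ∏' v, f v = r := by
  choose r hr1 hr2 using hpos
  have h1 := (multipliable_of f u hu hb).hasProd
  have hcl : IsClosed {z : ℂ | z.im = 0 ∧ 0 ≤ z.re} :=
    (isClosed_eq Complex.continuous_im continuous_const).inter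
      (isClosed_le continuous_const Complex.continuous_re)
  have h2 : ∏' v, f v ∈ {z : ℂ | z.im = 0 ∧ 0 ≤ z.re} := by
    refine hcl.mem_of_tendsto h1 (Filter.Eventually.of_forall fun S => ?_)
    have h3 : ∏ v ∈ S, f v = ((∏ v ∈ S, r v : ℝ) : ℂ) := by
      rw [prod_congr rfl fun v _ => hr2 v]
      push_cast
      rfl
    rw [h3]
    exact ⟨Complex.ofReal_im _, by
      rw [Complex.ofReal_re]
      exact prod_nonneg fun v _ => (hr1 v).le⟩
  have h4 : ∏' v, f v ≠ 0 := by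
    have h5 := tprod_one_add_ne_zero_of_summable (f := fun v => f v - 1)
      (fun v => by
        rw [add_sub_cancel, hr2 v]
        exact_mod_cast (hr1 v).ne')
      (Summable.of_nonneg_of_le (fun _ => norm_nonneg _) hb hu)
    simpa using h5
  obtain ⟨h5, h6⟩ := h2
  have h7 : ∏' v, f v = ((∏' v, f v).re : ℂ) := Complex.ext (by simp) (by simp [h5])
  refine ⟨(∏' v, f v).re, lt_of_le_of_ne h6 fun h8 => h4 ?_, h7⟩
  rw [h7, ← h8]
  simp

/-- an algebraic estimate -/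
theorem mul_exp_bound (M y : ℂ) {κ ρ A τ : ℝ} (hκ : 0 ≤ κ) (hρ1 : ρ ≤ 1)
    (hA : 0 ≤ A) (hy : ‖y‖ ≤ κ * ρ) (hM : ‖M - 1 - y‖ ≤ A * τ) (hτ : ρ ^ 2 ≤ τ) :
    ‖M * Complex.exp (-y) - 1‖ ≤
      (A * Real.exp κ + (1 + κ) * κ ^ 2 * Real.exp κ + κ ^ 2) * τ := by
  have hyκ : ‖y‖ ≤ κ := hy.trans (mul_le_of_le_one_right hκ hρ1)
  have hτ0 : 0 ≤ τ := (sq_nonneg ρ).trans hτ
  have hy2 : ‖y‖ ^ 2 ≤ κ ^ 2 * τ := by
    calc ‖y‖ ^ 2 ≤ (κ * ρ) ^ 2 := by gcongr
      _ = κ ^ 2 * ρ ^ 2 := by ring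
      _ ≤ κ ^ 2 * τ := by gcongr
  have he : ‖Complex.exp (-y)‖ ≤ Real.exp κ := by
    refine (Complex.norm_exp_le_exp_norm _).trans (Real.exp_le_exp.2 ?_)
    rwa [norm_neg]
  have he2 : ‖Complex.exp (-y) - 1 + y‖ ≤ ‖y‖ ^ 2 * Real.exp κ := by
    have h1 := Complex.norm_exp_sub_sum_le_norm_mul_exp (-y) 2
    simp only [sum_range_succ, range_zero, sum_empty, pow_zero, Nat.factorial_zero, Nat.cast_one,
      div_one, zero_add, pow_one, Nat.factorial_one, norm_neg] at h1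
    have h2 : Complex.exp (-y) - (1 + -y) = Complex.exp (-y) - 1 + y := by ring
    rw [h2] at h1
    refine h1.trans ?_
    gcongr
  have key : M * Complex.exp (-y) - 1 = (M - 1 - y) * Complex.exp (-y) +
      (1 + y) * (Complex.exp (-y) - 1 + y) - y ^ 2 := by ring
  rw [key]
  have t1 : ‖(M - 1 - y) * Complex.exp (-y)‖ ≤ (A * τ) * Real.exp κ := by
    rw [norm_mul]
    gcongr
  have t2 : ‖(1 + y) * (Complex.exp (-y) - 1 + y)‖ ≤ (1 + κ) * (κ ^ 2 * τ * Real.exp κ) := by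
    rw [norm_mul]
    have h1 : ‖1 + y‖ ≤ 1 + κ := (norm_add_le _ _).trans (by rw [norm_one]; linarith)
    have h2 : ‖y‖ ^ 2 * Real.exp κ ≤ κ ^ 2 * τ * Real.exp κ := by gcongr
    exact mul_le_mul h1 (he2.trans h2) (norm_nonneg _) (by positivity)
  have t3 : ‖y ^ 2‖ ≤ κ ^ 2 * τ := by rwa [norm_pow]
  refine (norm_sub_le _ _).trans ((add_le_add ((norm_add_le _ _).trans (add_le_add t1 t2))
    t3).trans (le_of_eq ?_))
  ring

end gen

variable {K : Type} [Field K] [NumberField K]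

theorem differentiable_xv (v : HeightOneSpectrum (𝓞 K)) : Differentiable ℂ (xv v) := by
  unfold xv
  exact (differentiable_id.neg).const_cpow (Or.inl (nm_ne v))

/-- the local means are holomorphic for `Re s > 1/2` -/
theorem Mv_diff (k : ℂ) (v : HeightOneSpectrum (𝓞 K)) {s : ℂ} (hs : 1 / 2 < s.re) :
    DifferentiableAt ℂ (fun s => Mv k s v) s := by
  classical
  unfold Mv
  by_cases h6 : (6 : 𝓞 K) ∈ v.asIdeal
  · simp only [if_pos h6]
    exact differentiableAt_const 1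
  · simp only [if_neg h6]
    refine DifferentiableAt.const_add _ (DifferentiableAt.div_const
      (DifferentiableAt.sub_const ?_ _) _)
    unfold lm
    refine DifferentiableAt.div_const ?_ _
    refine DifferentiableAt.fun_sum fun x _ => DifferentiableAt.fun_sum fun y _ => ?_
    exact DifferentiableAt.comp (g := lp k x y) s (lp_diff (six_ne h6) k x y (sz_lt_one v hs))
      (differentiable_xv v s)

/-- `q^(1-2s)` for the primes not above `6` -/
noncomputable def zv (s : ℂ) (v : HeightOneSpectrum (𝓞 K)) : ℂ := by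
  classical
  exact if (6 : 𝓞 K) ∈ v.asIdeal then 0 else ((nm v : ℕ) : ℂ) ^ (1 - 2 * s)

theorem norm_zv_le (s : ℂ) (v : HeightOneSpectrum (𝓞 K)) :
    ‖zv s v‖ ≤ (nm v : ℝ) ^ (1 - 2 * s.re) := by
  classical
  unfold zv
  split_ifs
  · rw [norm_zero]
    positivity
  · rw [Complex.norm_natCast_cpow_of_pos (nm_pos v)]
    simp

theorem zv_diff (v : HeightOneSpectrum (𝓞 K)) : Differentiable ℂ fun s : ℂ => zv s v := by
  classical
  unfold zv
  by_cases h6 : (6 : 𝓞 K) ∈ v.asIdeal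
  · simp only [if_pos h6]
    exact differentiable_const 0
  · simp only [if_neg h6]
    exact ((differentiable_const _).sub ((differentiable_const _).mul
      differentiable_id)).const_cpow (Or.inl (nm_ne v))

/-- expansion of the local means -/
theorem Mv_expand (k : ℂ) {σ : ℝ} (hσ : 1 / 2 < σ) : ∃ A : ℝ, 0 ≤ A ∧
    ∀ (s : ℂ), σ ≤ s.re → ∀ (v : HeightOneSpectrum (𝓞 K)),
      ‖Mv k s v - 1 - k * (k - 1) / 2 * zv s v‖ ≤
        A * ((nm v : ℝ) ^ (2 - 4 * σ) + (nm v : ℝ) ^ (-(2 * σ))) := by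
  classical
  obtain ⟨hy0, hy1⟩ := y₀_bounds hσ
  obtain ⟨C, hC, h⟩ := lm_expand k hy0 hy1
  set κ : ℂ := k * (k - 1) / 2 with hκ
  refine ⟨2 * C + 4 * ‖κ‖, by positivity, fun s hs v => ?_⟩
  have hq : (0 : ℝ) < nm v := by exact_mod_cast nm_pos v
  have hq1 : (1 : ℝ) ≤ nm v := by exact_mod_cast nm_pos v
  by_cases h6 : (6 : 𝓞 K) ∈ v.asIdeal
  · unfold Mv zv
    rw [if_pos h6, if_pos h6, sub_self, mul_zero, sub_self, norm_zero]
    positivity
  · have e := h _ (six_ne h6) (xv v s) ((sz_le v hs).trans (pow_le_two v hσ))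
    rw [card_v] at e
    have hsz : sz (𝓞 K ⧸ v.asIdeal) (xv v s) ^ 4 ≤ (nm v : ℝ) ^ (2 - 4 * σ) := by
      have h1 : 0 ≤ sz (𝓞 K ⧸ v.asIdeal) (xv v s) := by
        unfold sz
        positivity
      calc sz (𝓞 K ⧸ v.asIdeal) (xv v s) ^ 4 ≤ ((nm v : ℝ) ^ (1 / 2 - σ)) ^ 4 := by
            gcongr
            exact sz_le v hs
        _ = (nm v : ℝ) ^ (2 - 4 * σ) := by
            rw [← Real.rpow_natCast, ← Real.rpow_mul hq.le]
            congr 1
            push_cast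
            ring
    have hx2 : xv v s ^ 2 * (nm v : ℂ) = zv s v := by
      unfold xv zv
      rw [if_neg h6]
      have h1 : (((nm v : ℕ) : ℂ) ^ (-s)) ^ 2 = ((nm v : ℕ) : ℂ) ^ (-(2 * s)) := by
        rw [← Complex.cpow_nat_mul]
        congr 1
        push_cast
        ring
      have h2 : ((nm v : ℕ) : ℂ) ^ (1 - 2 * s) = ((nm v : ℕ) : ℂ) ^ (-(2 * s)) * (nm v : ℂ) := by
        rw [sub_eq_neg_add, Complex.cpow_add _ _ (nm_ne v), Complex.cpow_one]
      rw [h1, h2]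
    have hxn : ‖xv v s ^ 2‖ ≤ (nm v : ℝ) ^ (-(2 * σ)) := by
      rw [norm_pow, norm_xv, ← Real.rpow_natCast, ← Real.rpow_mul hq.le]
      refine Real.rpow_le_rpow_of_exponent_le hq1 ?_
      push_cast
      linarith
    unfold Mv
    rw [if_neg h6, add_sub_cancel_left, one_sub_eq h6]
    obtain ⟨r, hr1, hr2, hr3⟩ := dv_real v
    have hr0 : (r : ℂ) ≠ 0 := by exact_mod_cast (by linarith : (0 : ℝ) < r).ne'
    rw [hr3]
    set L := lm (𝓞 K ⧸ v.asIdeal) k (xv v s) with hL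
    have hd : dv v = 1 - ((nm v : ℂ) ^ 10)⁻¹ := (one_sub_eq h6).symm
    have hr4 : (r : ℂ) = 1 - ((nm v : ℂ) ^ 10)⁻¹ := by rw [← hr3, hd]
    have hsplit : (L - 1) / r - κ * zv s v = (L - (1 + κ * (((nm v : ℂ) - 1) * xv v s ^ 2))) / r +
        κ * (xv v s ^ 2 * ((((nm v : ℂ) - 1) - r * nm v) / r)) := by
      rw [← hx2]
      field_simp
      ring
    rw [hsplit]
    refine (norm_add_le _ _).trans ?_
    have t1 : ‖(L - (1 + κ * (((nm v : ℂ) - 1) * xv v s ^ 2))) / r‖ ≤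
        2 * (C * (nm v : ℝ) ^ (2 - 4 * σ)) := by
      rw [norm_div, Complex.norm_real, Real.norm_of_nonneg (by linarith), div_le_iff₀ (by linarith)]
      have h1 := e.trans (mul_le_mul_of_nonneg_left hsz hC)
      have h2 : 0 ≤ C * (nm v : ℝ) ^ (2 - 4 * σ) := by positivity
      nlinarith
    have t2 : ‖κ * (xv v s ^ 2 * ((((nm v : ℂ) - 1) - r * nm v) / r))‖ ≤
        ‖κ‖ * ((nm v : ℝ) ^ (-(2 * σ)) * 4) := by
      rw [norm_mul, norm_mul]
      have h1 : ‖((((nm v : ℂ) - 1) - r * nm v) / r)‖ ≤ 4 := by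
        have h2 : (((nm v : ℂ) - 1) - r * nm v) = (((nm v : ℝ) ^ 9)⁻¹ - 1 : ℝ) := by
          rw [hr4]
          push_cast
          have := nm_ne v
          field_simp
          ring
        rw [h2, norm_div, Complex.norm_real, Complex.norm_real, Real.norm_of_nonneg
          (by linarith : (0 : ℝ) ≤ r), div_le_iff₀ (by linarith), Real.norm_eq_abs, abs_le]
        have h3 : 0 ≤ ((nm v : ℝ) ^ 9)⁻¹ := by positivity
        have h4 : ((nm v : ℝ) ^ 9)⁻¹ ≤ 1 := inv_le_one_of_one_le₀ (one_le_pow₀ hq1)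
        constructor <;> linarith
      exact mul_le_mul_of_nonneg_left (mul_le_mul hxn h1 (norm_nonneg _) (by positivity))
        (norm_nonneg _)
    refine (add_le_add t1 t2).trans ?_
    have g1 : 0 ≤ (nm v : ℝ) ^ (2 - 4 * σ) := by positivity
    have g2 : 0 ≤ (nm v : ℝ) ^ (-(2 * σ)) := by positivity
    nlinarith [mul_nonneg hC g2, mul_nonneg (norm_nonneg κ) g1]

/-- the factors of the regular part -/
noncomputable def Gv (k s : ℂ) (v : HeightOneSpectrum (𝓞 K)) : ℂ :=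
  Mv k s v * Complex.exp (-(k * (k - 1) / 2 * zv s v))

theorem Gv_bound (k : ℂ) {σ : ℝ} (hσ : 1 / 2 < σ) : ∃ A : ℝ, 0 ≤ A ∧
    ∀ (s : ℂ), σ ≤ s.re → ∀ (v : HeightOneSpectrum (𝓞 K)),
      ‖Gv k s v - 1‖ ≤ A * ((nm v : ℝ) ^ (2 - 4 * σ) + (nm v : ℝ) ^ (-(2 * σ))) := by
  obtain ⟨A, hA, h⟩ := Mv_expand (K := K) k hσ
  set κ : ℂ := k * (k - 1) / 2 with hκ
  refine ⟨A * Real.exp ‖κ‖ + (1 + ‖κ‖) * ‖κ‖ ^ 2 * Real.exp ‖κ‖ + ‖κ‖ ^ 2, by positivity,
    fun s hs v => ?_⟩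
  have hq : (0 : ℝ) < nm v := by exact_mod_cast nm_pos v
  have hq1 : (1 : ℝ) ≤ nm v := by exact_mod_cast nm_pos v
  refine mul_exp_bound (Mv k s v) (κ * zv s v) (κ := ‖κ‖) (ρ := (nm v : ℝ) ^ (1 - 2 * σ))
    (norm_nonneg _) ?_ hA ?_ (h s hs v) ?_
  · exact Real.rpow_le_one_of_one_le_of_nonpos hq1 (by linarith)
  · rw [norm_mul]
    refine mul_le_mul_of_nonneg_left ((norm_zv_le s v).trans ?_) (norm_nonneg _)
    exact Real.rpow_le_rpow_of_exponent_le hq1 (by linarith)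
  · have h1 : ((nm v : ℝ) ^ (1 - 2 * σ)) ^ 2 = (nm v : ℝ) ^ (2 - 4 * σ) := by
      rw [← Real.rpow_natCast, ← Real.rpow_mul hq.le]
      congr 1
      push_cast
      ring
    rw [h1]
    have : 0 ≤ (nm v : ℝ) ^ (-(2 * σ)) := by positivity
    linarith

theorem tail_summable {σ : ℝ} (hσ : 3 / 4 < σ) : Summable fun v : HeightOneSpectrum (𝓞 K) =>
    ((nm v : ℝ) ^ (2 - 4 * σ) + (nm v : ℝ) ^ (-(2 * σ))) :=
  (nm_summable' (by linarith)).add (nm_summable' (by linarith))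

/-- the regular part -/
noncomputable def Gf (K : Type) [Field K] [NumberField K] (k s : ℂ) : ℂ :=
  ∏' v : HeightOneSpectrum (𝓞 K), Gv k s v

theorem Gf_diff (k : ℂ) : DifferentiableOn ℂ (Gf K k) {s : ℂ | 3 / 4 < s.re} := by
  refine tprod_diff (fun v s => Gv k s v) (3 / 4) (fun v s hs => ?_) (fun σ hσ => ?_)
  · unfold Gv
    refine (Mv_diff k v (by linarith)).mul ?_
    exact ((((differentiable_const _).mul (zv_diff v)).neg).cexp) s
  · obtain ⟨A, hA, h⟩ := Gv_bound (K := K) k (σ := σ) (by linarith)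
    exact ⟨_, (tail_summable hσ).mul_left A, fun s hs v => h s hs v⟩

theorem Gf_multipliable (k : ℂ) {s : ℂ} (hs : 3 / 4 < s.re) :
    Multipliable fun v : HeightOneSpectrum (𝓞 K) => Gv k s v := by
  obtain ⟨A, hA, h⟩ := Gv_bound (K := K) k (σ := s.re) (by linarith)
  exact multipliable_of _ _ ((tail_summable hs).mul_left A) fun v => h s le_rfl v

theorem zv_summable {s : ℂ} (hs : 1 < s.re) : Summable fun v : HeightOneSpectrum (𝓞 K) => zv s v :=
  Summable.of_norm_bounded (nm_summable' (by linarith)) fun v => norm_zv_le s v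

/-- **factorisation of the mean function** -/
theorem Mf_eq (k : ℂ) {s : ℂ} (hs : 1 < s.re) :
    HasProd (fun v : HeightOneSpectrum (𝓞 K) => Mv k s v)
      (Gf K k s * Complex.exp (k * (k - 1) / 2 * ∑' v : HeightOneSpectrum (𝓞 K), zv s v)) := by
  have h1 := (Gf_multipliable (K := K) k (s := s) (by linarith)).hasProd
  have h2 := ((zv_summable (K := K) hs).hasSum.mul_left (k * (k - 1) / 2)).cexp
  have h3 := h1.mul h2
  have e : (fun v : HeightOneSpectrum (𝓞 K) => Mv k s v) =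
      fun b => Gv k s b * (Complex.exp ∘ fun i => k * (k - 1) / 2 * zv s i) b := by
    funext v
    rw [Function.comp_apply, Gv, mul_assoc, ← Complex.exp_add, neg_add_cancel, Complex.exp_zero,
      mul_one]
  rw [e]
  exact h3

theorem Mf_eq' (k : ℂ) {s : ℂ} (hs : 1 < s.re) : Mf K k s =
    Gf K k s * Complex.exp (k * (k - 1) / 2 * ∑' v : HeightOneSpectrum (𝓞 K), zv s v) :=
  (Mf_eq k hs).tprod_eq

/-- better bound for the local means -/
theorem Mv_bound (k : ℂ) {σ : ℝ} (hσ : 1 / 2 < σ) : ∃ A : ℝ, 0 ≤ A ∧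
    ∀ (s : ℂ), σ ≤ s.re → ∀ (v : HeightOneSpectrum (𝓞 K)),
      ‖Mv k s v - 1‖ ≤ A * (nm v : ℝ) ^ (1 - 2 * σ) := by
  obtain ⟨A, hA, h⟩ := Mv_expand (K := K) k hσ
  set κ : ℂ := k * (k - 1) / 2 with hκ
  refine ⟨2 * A + ‖κ‖, by positivity, fun s hs v => ?_⟩
  have hq1 : (1 : ℝ) ≤ nm v := by exact_mod_cast nm_pos v
  have e1 : (nm v : ℝ) ^ (2 - 4 * σ) ≤ (nm v : ℝ) ^ (1 - 2 * σ) :=
    Real.rpow_le_rpow_of_exponent_le hq1 (by linarith)
  have e2 : (nm v : ℝ) ^ (-(2 * σ)) ≤ (nm v : ℝ) ^ (1 - 2 * σ) :=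
    Real.rpow_le_rpow_of_exponent_le hq1 (by linarith)
  have e3 : (nm v : ℝ) ^ (1 - 2 * s.re) ≤ (nm v : ℝ) ^ (1 - 2 * σ) :=
    Real.rpow_le_rpow_of_exponent_le hq1 (by linarith)
  have h1 : Mv k s v - 1 = (Mv k s v - 1 - κ * zv s v) + κ * zv s v := by ring
  rw [h1]
  refine (norm_add_le _ _).trans ?_
  rw [norm_mul]
  have h2 := (norm_zv_le s v).trans e3
  have h3 := mul_le_mul_of_nonneg_left h2 (norm_nonneg κ)
  have h4 := h s hs v
  have h5 := mul_le_mul_of_nonneg_left (add_le_add e1 e2) hA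
  linarith

/-- the mean function is holomorphic for `Re s > 1` -/
theorem Mf_diff (k : ℂ) : DifferentiableOn ℂ (Mf K k) {s : ℂ | 1 < s.re} := by
  refine tprod_diff (fun v s => Mv k s v) 1 (fun v s hs => Mv_diff k v (by linarith))
    (fun σ hσ => ?_)
  obtain ⟨A, hA, h⟩ := Mv_bound (K := K) k (σ := σ) (by linarith)
  exact ⟨_, (nm_summable' (by linarith)).mul_left A, fun s hs v => h s hs v⟩

/-! ### real arguments -/

theorem sz_real {v : HeightOneSpectrum (𝓞 K)} {σ : ℝ} (hσ : 1 / 2 < σ) :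
    ∃ x : ℝ, 0 ≤ x ∧ sz (𝓞 K ⧸ v.asIdeal) (x : ℂ) < 1 ∧ xv v (σ : ℂ) = x := by
  refine ⟨(nm v : ℝ) ^ (-σ), by positivity, ?_, ?_⟩
  · have h := sz_lt_one v (s := (σ : ℂ)) (by simpa using hσ)
    have e : xv v (σ : ℂ) = (((nm v : ℝ) ^ (-σ) : ℝ) : ℂ) := by
      unfold xv
      rw [Complex.ofReal_cpow (by positivity)]
      push_cast
      rfl
    rwa [e] at h
  · unfold xv
    rw [Complex.ofReal_cpow (by positivity)]
    push_cast
    rfl

theorem lm_real {F : Type} [Field F] [Fintype F] [DecidableEq F] (h6 : (6 : F) ≠ 0) (k : ℝ) {x : ℝ}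
    (hx0 : 0 ≤ x) (hx : sz F (x : ℂ) < 1) :
    ∃ r : ℝ, ((Fintype.card F : ℝ) ^ 2)⁻¹ ≤ r ∧ lm F (k : ℂ) (x : ℂ) = r := by
  choose y hy1 hy2 using fun a b : F => lp_pos h6 k a b hx0 hx
  have hq : (0 : ℝ) < Fintype.card F := by exact_mod_cast Fintype.card_pos
  refine ⟨(∑ a : F, ∑ b : F, y a b) / (Fintype.card F : ℝ) ^ 2, ?_, ?_⟩
  · rw [inv_eq_one_div]
    refine div_le_div_of_nonneg_right ?_ (by positivity)
    have h0 : y 0 0 = 1 := by
      have h1 := hy2 0 0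
      rw [lp_zero h6] at h1
      exact_mod_cast h1.symm
    calc (1 : ℝ) = y 0 0 := h0.symm
      _ ≤ ∑ b : F, y 0 b := single_le_sum (f := fun b => y 0 b) (fun b _ => (hy1 0 b).le)
          (mem_univ 0)
      _ ≤ ∑ a : F, ∑ b : F, y a b := single_le_sum (f := fun a => ∑ b : F, y a b)
          (fun a _ => sum_nonneg fun b _ => (hy1 a b).le) (mem_univ 0)
  · unfold lm
    simp_rw [hy2]
    push_cast
    rfl

/-- the local means are positive at the real points -/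
theorem Mv_pos (k : ℝ) (v : HeightOneSpectrum (𝓞 K)) {σ : ℝ} (hσ : 1 / 2 < σ) :
    ∃ r : ℝ, 0 < r ∧ Mv (k : ℂ) (σ : ℂ) v = r := by
  classical
  by_cases h6 : (6 : 𝓞 K) ∈ v.asIdeal
  · exact ⟨1, one_pos, by unfold Mv; rw [if_pos h6]; simp⟩
  · obtain ⟨x, hx0, hx1, hx2⟩ := sz_real (v := v) hσ
    obtain ⟨r, hr1, hr2⟩ := lm_real (six_ne h6) k hx0 hx1
    have h2 : dv v * Mv (k : ℂ) (σ : ℂ) v =
        lm (𝓞 K ⧸ v.asIdeal) (k : ℂ) (xv v (σ : ℂ)) - ((nm v : ℂ) ^ 10)⁻¹ := by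
      unfold Mv
      rw [if_neg h6, one_sub_eq h6, mul_add, mul_div_cancel₀ _ (dv_ne v), ← one_sub_eq h6]
      ring
    obtain ⟨d, hd1, hd2, hd3⟩ := dv_real v
    have h3 : lm (𝓞 K ⧸ v.asIdeal) (k : ℂ) (xv v (σ : ℂ)) - ((nm v : ℂ) ^ 10)⁻¹ =
        ((r - ((nm v : ℝ) ^ 10)⁻¹ : ℝ) : ℂ) := by
      rw [hx2, hr2]
      push_cast
      rfl
    have hq : (1 : ℝ) < nm v := by exact_mod_cast two_le_nm v
    have h4 : ((nm v : ℝ) ^ 10)⁻¹ < r := by
      refine lt_of_lt_of_le ?_ hr1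
      rw [card_v]
      exact inv_strictAnti₀ (by positivity) (pow_lt_pow_right₀ hq (by norm_num))
    refine ⟨(r - ((nm v : ℝ) ^ 10)⁻¹) / d, div_pos (by linarith) (by linarith), ?_⟩
    have hd0 : (d : ℂ) ≠ 0 := by exact_mod_cast (by linarith : (0 : ℝ) < d).ne'
    rw [h3, hd3] at h2
    rw [Complex.ofReal_div, eq_div_iff hd0, ← h2, mul_comm]

theorem zv_real (v : HeightOneSpectrum (𝓞 K)) (σ : ℝ) : ∃ r : ℝ, zv (σ : ℂ) v = r := by
  classical
  unfold zv
  split_ifs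
  · exact ⟨0, by simp⟩
  · refine ⟨(nm v : ℝ) ^ (1 - 2 * σ), ?_⟩
    rw [Complex.ofReal_cpow (by positivity)]
    push_cast
    rfl

theorem Gv_pos (k : ℝ) (v : HeightOneSpectrum (𝓞 K)) {σ : ℝ} (hσ : 1 / 2 < σ) :
    ∃ r : ℝ, 0 < r ∧ Gv (k : ℂ) (σ : ℂ) v = r := by
  obtain ⟨r, hr1, hr2⟩ := Mv_pos k v hσ
  obtain ⟨z, hz⟩ := zv_real v σ
  refine ⟨r * Real.exp (-(k * (k - 1) / 2 * z)), by positivity, ?_⟩
  unfold Gv
  rw [hr2, hz]
  push_cast
  rfl

theorem Gf_pos (k : ℝ) {σ : ℝ} (hσ : 3 / 4 < σ) : ∃ r : ℝ, 0 < r ∧ Gf K (k : ℂ) (σ : ℂ) = r := by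
  obtain ⟨A, hA, h⟩ := Gv_bound (K := K) (k : ℂ) (σ := σ) (by linarith)
  exact tprod_pos _ _ ((tail_summable hσ).mul_left A) (fun v => h (σ : ℂ) (by simp) v)
    fun v => Gv_pos k v (by linarith)

end Pool.Agent.P8H18.MF
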