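import Mathlib

/-! Expansion of `(1 - z)^(-k)` to the third order, with a uniform remainder. -/

set_option autoImplicit false

namespace Pool.Agent.P8H18.MF

open Finset

/-- the coefficients of `(1 - z)^(-k)` -/
noncomputable def cf (k : ℂ) (n : ℕ) : ℂ := Ring.choose (k + n - 1) n

theorem cf_zero (k : ℂ) : cf k 0 = 1 := by
  unfold cf
  simp

theorem cf_one (k : ℂ) : cf k 1 = k := by
  unfold cf
  simp

theorem cf_two (k : ℂ) : cf k 2 = k * (k + 1) / 2 := by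
  unfold cf
  have h := Ring.descPochhammer_eq_factorial_smul_choose (k + (2 : ℕ) - 1 : ℂ) 2
  simp [descPochhammer_succ_right, Polynomial.smeval_mul, Polynomial.smeval_sub,
    Polynomial.smeval_X] at h
  push_cast at h ⊢
  have h2 : (2 : ℂ) * Ring.choose (k + 2 - 1 : ℂ) 2 = (k + 2 - 1) * (k + 2 - 1 - 1) := h.symm
  have h3 : Ring.choose (k + 2 - 1 : ℂ) 2 = (k + 2 - 1) * (k + 2 - 1 - 1) / 2 := by
    rw [← h2]
    ring
  rw [h3]
  ring

/-- `(1 - z)^(-k)` -/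
noncomputable def pw (k z : ℂ) : ℂ := (1 - z) ^ (-k)

theorem pw_hasSum (k : ℂ) {z : ℂ} (hz : ‖z‖ < 1) : HasSum (fun n : ℕ => cf k n * z ^ n) (pw k z) := by
  have h := (Complex.one_div_one_sub_cpow_hasFPowerSeriesOnBall_zero k).hasSum (y := z) (by
    rw [← ENNReal.ofReal_one, Metric.eball_ofReal]
    simpa using hz)
  simp only [zero_add, FormalMultilinearSeries.ofScalars_apply_eq, smul_eq_mul] at h
  have h2 : 1 / (1 - z) ^ k = pw k z := by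
    unfold pw
    rw [Complex.cpow_neg, one_div]
  rw [h2] at h
  exact h

theorem cf_summable (k : ℂ) {r : ℝ} (h0 : 0 ≤ r) (h1 : r < 1) :
    Summable fun n : ℕ => ‖cf k n‖ * r ^ n := by
  lift r to NNReal using h0
  have h := (Complex.one_div_one_sub_cpow_hasFPowerSeriesOnBall_zero k).r_le
  have h2 := FormalMultilinearSeries.summable_norm_mul_pow
    (FormalMultilinearSeries.ofScalars ℂ (fun n : ℕ => Ring.choose (k + n - 1) n))
    (r := r) (lt_of_lt_of_le (ENNReal.coe_lt_one_iff.2 (by exact_mod_cast h1)) h)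
  refine h2.congr fun n => ?_
  rw [FormalMultilinearSeries.ofScalars_norm]
  rfl

/-- the remainder constant -/
noncomputable def RC (k : ℂ) (r : ℝ) : ℝ := ∑' n : ℕ, ‖cf k (n + 4)‖ * r ^ n

theorem RC_summable (k : ℂ) {r : ℝ} (h0 : 0 < r) (h1 : r < 1) :
    Summable fun n : ℕ => ‖cf k (n + 4)‖ * r ^ n := by
  have h := (summable_nat_add_iff 4).2 (cf_summable k h0.le h1)
  refine (h.mul_right (r ^ 4)⁻¹).congr fun n => ?_
  rw [pow_add]
  field_simp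

theorem RC_nonneg (k : ℂ) {r : ℝ} (h0 : 0 < r) : 0 ≤ RC k r :=
  tsum_nonneg fun _ => by positivity

/-- third order expansion -/
theorem pw_expand (k : ℂ) {r : ℝ} (h0 : 0 < r) (h1 : r < 1) {z : ℂ} (hz : ‖z‖ ≤ r) :
    ‖pw k z - (1 + k * z + k * (k + 1) / 2 * z ^ 2 + cf k 3 * z ^ 3)‖ ≤ RC k r * ‖z‖ ^ 4 := by
  have h2 := pw_hasSum k (lt_of_le_of_lt hz h1)
  have h3 := h2.summable.sum_add_tsum_nat_add 4
  rw [h2.tsum_eq] at h3
  have h4 : pw k z - (1 + k * z + k * (k + 1) / 2 * z ^ 2 + cf k 3 * z ^ 3) =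
      ∑' n : ℕ, cf k (n + 4) * z ^ (n + 4) := by
    rw [← h3]
    simp only [sum_range_succ, range_zero, sum_empty, cf_zero, cf_one, cf_two]
    ring
  rw [h4, RC, ← tsum_mul_right]
  have hb : ∀ n : ℕ, ‖cf k (n + 4) * z ^ (n + 4)‖ ≤ ‖cf k (n + 4)‖ * r ^ n * ‖z‖ ^ 4 := by
    intro n
    rw [norm_mul, norm_pow, pow_add, ← mul_assoc]
    gcongr
  exact tsum_of_norm_bounded ((RC_summable k h0 h1).mul_right (‖z‖ ^ 4)).hasSum hb

/-- the product of two powers -/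
theorem pw_mul_expand (k : ℂ) {r₀ : ℝ} (h0 : 0 < r₀) (h1 : r₀ < 1) : ∃ C : ℝ, 0 ≤ C ∧
    ∃ c c' : ℂ, ∀ z w : ℂ, ∀ r : ℝ, ‖z‖ ≤ r → ‖w‖ ≤ r → r ≤ r₀ →
      ‖pw k z * pw k w - (1 + k * (z + w) + k * (k + 1) / 2 * (z + w) ^ 2 - k * (z * w) +
        c * (z + w) ^ 3 + c' * (z * w * (z + w)))‖ ≤ C * r ^ 4 := by
  set a : ℂ := k * (k + 1) / 2 with ha
  set b : ℂ := cf k 3 with hb
  set R := RC k r₀ with hR
  have hR0 : 0 ≤ R := RC_nonneg k h0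
  set B : ℝ := 1 + ‖k‖ + ‖a‖ + ‖b‖ with hB
  have hB0 : 0 ≤ B := by positivity
  refine ⟨(B + R) * R + B * R + (2 * ‖b‖ * ‖k‖ + ‖a‖ * ‖a‖ + 2 * ‖a‖ * ‖b‖ + ‖b‖ * ‖b‖),
    by positivity, b, k * a - 3 * b, ?_⟩
  intro z w r hz hw hr
  have hr0 : 0 ≤ r := (norm_nonneg z).trans hz
  have hr1 : r ≤ 1 := hr.trans h1.le
  set P : ℂ → ℂ := fun z => 1 + k * z + a * z ^ 2 + b * z ^ 3 with hP
  have e1 := pw_expand k h0 h1 (hz.trans hr)
  have e2 := pw_expand k h0 h1 (hw.trans hr)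
  have f1 : ‖pw k z - P z‖ ≤ R * r ^ 4 := e1.trans (by gcongr)
  have f2 : ‖pw k w - P w‖ ≤ R * r ^ 4 := e2.trans (by gcongr)
  have hpr : ∀ n : ℕ, r ^ n ≤ 1 := fun n => pow_le_one₀ hr0 hr1
  have hPn : ∀ y : ℂ, ‖y‖ ≤ r → ‖P y‖ ≤ B := by
    intro y hy
    have hy1 : ‖y‖ ≤ 1 := hy.trans hr1
    calc ‖P y‖ ≤ ‖(1 : ℂ)‖ + ‖k * y‖ + ‖a * y ^ 2‖ + ‖b * y ^ 3‖ :=
          (norm_add_le _ _).trans (add_le_add ((norm_add_le _ _).trans
            (add_le_add (norm_add_le _ _) le_rfl)) le_rfl)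
      _ ≤ B := by
          rw [norm_one, norm_mul, norm_mul, norm_mul, norm_pow, norm_pow, hB]
          have g1 : ‖k‖ * ‖y‖ ≤ ‖k‖ := mul_le_of_le_one_right (norm_nonneg _) hy1
          have g2 : ‖a‖ * ‖y‖ ^ 2 ≤ ‖a‖ :=
            mul_le_of_le_one_right (norm_nonneg _) (pow_le_one₀ (norm_nonneg _) hy1)
          have g3 : ‖b‖ * ‖y‖ ^ 3 ≤ ‖b‖ :=
            mul_le_of_le_one_right (norm_nonneg _) (pow_le_one₀ (norm_nonneg _) hy1)
          linarith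
  have hwn : ‖pw k w‖ ≤ B + R := by
    have : pw k w = (pw k w - P w) + P w := by ring
    rw [this]
    refine (norm_add_le _ _).trans ?_
    have g := mul_le_of_le_one_right hR0 (hpr 4)
    linarith [hPn w hw]
  -- the polynomial part
  have key : pw k z * pw k w - (1 + k * (z + w) + a * (z + w) ^ 2 - k * (z * w) +
      b * (z + w) ^ 3 + (k * a - 3 * b) * (z * w * (z + w))) =
      (pw k z - P z) * pw k w + P z * (pw k w - P w) +
        ((b * k) * (z * w ^ 3 + z ^ 3 * w) + (a * a) * (z ^ 2 * w ^ 2) +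
          (a * b) * (z ^ 2 * w ^ 3 + z ^ 3 * w ^ 2) + (b * b) * (z ^ 3 * w ^ 3)) := by
    simp only [hP]
    have ha2 : 2 * a = k * (k + 1) := by rw [ha]; ring
    linear_combination (z * w) * (-ha2)
  rw [key]
  have hzw : ∀ i j : ℕ, 4 ≤ i + j → ‖z ^ i * w ^ j‖ ≤ r ^ 4 := by
    intro i j hij
    rw [norm_mul, norm_pow, norm_pow]
    calc ‖z‖ ^ i * ‖w‖ ^ j ≤ r ^ i * r ^ j := by gcongr
      _ = r ^ (i + j) := (pow_add _ _ _).symm
      _ ≤ r ^ 4 := pow_le_pow_of_le_one hr0 hr1 hij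
  have t1 : ‖(pw k z - P z) * pw k w‖ ≤ (R * r ^ 4) * (B + R) := by
    rw [norm_mul]
    gcongr
  have t2 : ‖P z * (pw k w - P w)‖ ≤ B * (R * r ^ 4) := by
    rw [norm_mul]
    have := hPn z hz
    gcongr
  have t3 : ‖(b * k) * (z * w ^ 3 + z ^ 3 * w)‖ ≤ ‖b‖ * ‖k‖ * (2 * r ^ 4) := by
    rw [norm_mul, norm_mul]
    gcongr
    refine (norm_add_le _ _).trans ?_
    have g1 := hzw 1 3 (by norm_num)
    have g2 := hzw 3 1 (by norm_num)
    rw [pow_one] at g1 g2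
    linarith
  have t4 : ‖(a * a) * (z ^ 2 * w ^ 2)‖ ≤ ‖a‖ * ‖a‖ * r ^ 4 := by
    rw [norm_mul, norm_mul]
    have g1 := hzw 2 2 (by norm_num)
    gcongr
  have t5 : ‖(a * b) * (z ^ 2 * w ^ 3 + z ^ 3 * w ^ 2)‖ ≤ ‖a‖ * ‖b‖ * (2 * r ^ 4) := by
    rw [norm_mul, norm_mul]
    gcongr
    refine (norm_add_le _ _).trans ?_
    have g1 := hzw 2 3 (by norm_num)
    have g2 := hzw 3 2 (by norm_num)
    linarith
  have t6 : ‖(b * b) * (z ^ 3 * w ^ 3)‖ ≤ ‖b‖ * ‖b‖ * r ^ 4 := by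
    rw [norm_mul, norm_mul]
    have g1 := hzw 3 3 (by norm_num)
    gcongr
  refine (norm_add_le _ _).trans ((add_le_add ((norm_add_le _ _).trans (add_le_add t1 t2))
    ((norm_add_le _ _).trans (add_le_add ((norm_add_le _ _).trans (add_le_add
      ((norm_add_le _ _).trans (add_le_add t3 t4)) t5)) t6))).trans ?_)
  linarith

/-- first order bound -/
theorem pw_mul_sub_one (k : ℂ) {r₀ : ℝ} (h0 : 0 < r₀) (h1 : r₀ < 1) : ∃ C : ℝ, 0 ≤ C ∧
    ∀ z w : ℂ, ∀ r : ℝ, ‖z‖ ≤ r → ‖w‖ ≤ r → r ≤ r₀ → ‖pw k z * pw k w - 1‖ ≤ C * r := by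
  obtain ⟨C, hC, c, c', h⟩ := pw_mul_expand k h0 h1
  refine ⟨C + (2 * ‖k‖ + 4 * ‖k * (k + 1) / 2‖ + ‖k‖ + 8 * ‖c‖ + 2 * ‖c'‖), by positivity, ?_⟩
  intro z w r hz hw hr
  have hr0 : 0 ≤ r := (norm_nonneg z).trans hz
  have hr1 : r ≤ 1 := hr.trans h1.le
  have e := h z w r hz hw hr
  set t := z + w with ht
  set p := z * w with hp
  have ht1 : ‖t‖ ≤ 2 * r := (norm_add_le _ _).trans (by linarith)
  have hp1 : ‖p‖ ≤ r * r := by
    rw [hp, norm_mul]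
    gcongr
  have hpw : ∀ n : ℕ, r ^ (n + 1) ≤ r := fun n => by
    calc r ^ (n + 1) ≤ r ^ 1 := pow_le_pow_of_le_one hr0 hr1 (by omega)
      _ = r := pow_one r
  have e1 : ‖k * t‖ ≤ ‖k‖ * (2 * r) := by rw [norm_mul]; gcongr
  have e2 : ‖k * (k + 1) / 2 * t ^ 2‖ ≤ ‖k * (k + 1) / 2‖ * (4 * r) := by
    rw [norm_mul, norm_pow]
    gcongr
    calc ‖t‖ ^ 2 ≤ (2 * r) ^ 2 := by gcongr
      _ = 4 * r ^ (1 + 1) := by ring
      _ ≤ 4 * r := by linarith [hpw 1]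
  have e3 : ‖k * p‖ ≤ ‖k‖ * r := by
    rw [norm_mul]
    gcongr
    exact hp1.trans (mul_le_of_le_one_left hr0 hr1)
  have e4 : ‖c * t ^ 3‖ ≤ ‖c‖ * (8 * r) := by
    rw [norm_mul, norm_pow]
    gcongr
    calc ‖t‖ ^ 3 ≤ (2 * r) ^ 3 := by gcongr
      _ = 8 * r ^ (2 + 1) := by ring
      _ ≤ 8 * r := by linarith [hpw 2]
  have e5 : ‖c' * (p * t)‖ ≤ ‖c'‖ * (2 * r) := by
    rw [norm_mul, norm_mul]
    refine mul_le_mul_of_nonneg_left ?_ (norm_nonneg _)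
    calc ‖p‖ * ‖t‖ ≤ (r * r) * (2 * r) := mul_le_mul hp1 ht1 (norm_nonneg _) (by positivity)
      _ = 2 * r ^ (2 + 1) := by ring
      _ ≤ 2 * r := by linarith [hpw 2]
  have e6 : C * r ^ 4 ≤ C * r := by
    gcongr
    exact hpw 3
  have hsplit : pw k z * pw k w - 1 = (pw k z * pw k w - (1 + k * t + k * (k + 1) / 2 * t ^ 2 -
      k * p + c * t ^ 3 + c' * (p * t))) + (k * t + k * (k + 1) / 2 * t ^ 2 - k * p + c * t ^ 3 +
      c' * (p * t)) := by ring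
  rw [hsplit]
  refine (norm_add_le _ _).trans ((add_le_add e ((norm_add_le _ _).trans (add_le_add
    ((norm_add_le _ _).trans (add_le_add ((norm_sub_le _ _).trans (add_le_add
    ((norm_add_le _ _).trans (add_le_add e1 e2)) e3)) e4)) e5))).trans ?_)
  linarith

end Pool.Agent.P8H18.MF
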