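import Pool.Agent.P8H18.MF.Loc
import Pool.Agent.P8H18.MF.Ser

/-! The local factors over a finite field and their means. -/

set_option autoImplicit false
set_option linter.unusedSectionVars false

namespace Pool.Agent.P8H18.MF

open Finset Complex

/-- `0` if `P`, `1` otherwise -/
noncomputable def ep (P : Prop) : ℂ := by
  classical exact if P then 0 else 1

theorem ep_true {P : Prop} (h : P) : ep P = 0 := by
  unfold ep; rw [if_pos h]

theorem ep_false {P : Prop} (h : ¬ P) : ep P = 1 := by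
  unfold ep; rw [if_neg h]

variable {F : Type*} [Field F] [Fintype F] [DecidableEq F]

/-- `√(4q - A²)` -/
noncomputable def dl (a b : F) : ℝ := Real.sqrt (4 * Fintype.card F - (tr a b : ℝ) ^ 2)

/-- first reciprocal root -/
noncomputable def r1 (a b : F) : ℂ := by
  classical exact if D a b = 0 then (tr a b : ℂ) else ((tr a b : ℂ) + I * dl a b) / 2

/-- second reciprocal root -/
noncomputable def r2 (a b : F) : ℂ := by
  classical exact if D a b = 0 then 0 else ((tr a b : ℂ) - I * dl a b) / 2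

theorem r_add (a b : F) : r1 a b + r2 a b = tr a b := by
  unfold r1 r2
  split_ifs
  · ring
  · ring

theorem dl_sq (h6 : (6 : F) ≠ 0) (a b : F) :
    dl a b ^ 2 = 4 * Fintype.card F - (tr a b : ℝ) ^ 2 := by
  unfold dl
  rw [Real.sq_sqrt]
  have h1 := tr_bound h6 a b
  have h2 : (tr a b : ℝ) ^ 2 ≤ (2 * Real.sqrt (Fintype.card F)) ^ 2 := by
    rw [← sq_abs]
    gcongr
  rw [mul_pow, Real.sq_sqrt (by positivity)] at h2
  linarith

theorem r_mul (h6 : (6 : F) ≠ 0) (a b : F) :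
    r1 a b * r2 a b = ep (D a b = 0) * Fintype.card F := by
  unfold r1 r2
  split_ifs with h
  · rw [ep_true h, mul_zero, zero_mul]
  · rw [ep_false h, one_mul]
    have h1 : ((dl a b : ℝ) : ℂ) ^ 2 = 4 * Fintype.card F - (tr a b : ℂ) ^ 2 := by
      have := dl_sq h6 a b
      have h2 : (((dl a b) ^ 2 : ℝ) : ℂ) = ((4 * Fintype.card F - (tr a b : ℝ) ^ 2 : ℝ) : ℂ) := by
        rw [this]
      push_cast at h2
      exact h2
    have h3 : (I : ℂ) ^ 2 = -1 := I_sq
    linear_combination (-(1 / 4 : ℂ) * ((dl a b : ℝ) : ℂ) ^ 2) * h3 + (1 / 4) * h1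

theorem norm_root (h6 : (6 : F) ≠ 0) {a b : F} (h : D a b ≠ 0) (ε : ℝ) (hε : ε ^ 2 = 1) :
    ‖((tr a b : ℂ) + ε * (I * dl a b)) / 2‖ = Real.sqrt (Fintype.card F) := by
  have h1 : ((tr a b : ℂ) + ε * (I * dl a b)) / 2 =
      (((tr a b : ℝ) / 2 : ℝ) : ℂ) + ((ε * dl a b / 2 : ℝ) : ℂ) * I := by
    push_cast
    ring
  rw [h1, Complex.norm_add_mul_I]
  congr 1
  have := dl_sq h6 a b
  nlinarith

theorem sqrt_one_le : 1 ≤ Real.sqrt (Fintype.card F) := by
  rw [Real.one_le_sqrt]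
  exact_mod_cast Fintype.card_pos (α := F)

theorem r1_norm (h6 : (6 : F) ≠ 0) (a b : F) : ‖r1 a b‖ ≤ Real.sqrt (Fintype.card F) := by
  unfold r1
  split_ifs with h
  · rw [← Complex.ofReal_intCast, Complex.norm_real, Real.norm_eq_abs]
    exact (tr_sing h6 h).trans sqrt_one_le
  · have := norm_root h6 h 1 (by norm_num)
    rw [ofReal_one, one_mul] at this
    exact this.le

theorem r2_norm (h6 : (6 : F) ≠ 0) (a b : F) : ‖r2 a b‖ ≤ Real.sqrt (Fintype.card F) := by
  unfold r2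
  split_ifs with h
  · rw [norm_zero]
    positivity
  · have := norm_root h6 h (-1) (by norm_num)
    have h2 : (tr a b : ℂ) - I * dl a b = (tr a b : ℂ) + ((-1 : ℝ) : ℂ) * (I * dl a b) := by
      push_cast; ring
    rw [h2]
    exact this.le

/-- the local polynomial -/
noncomputable def lpol (a b : F) (X : ℂ) : ℂ :=
  1 - (tr a b : ℂ) * X + ep (D a b = 0) * (Fintype.card F * X ^ 2)

theorem lpol_eq (h6 : (6 : F) ≠ 0) (a b : F) (X : ℂ) :
    lpol a b X = (1 - r1 a b * X) * (1 - r2 a b * X) := by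
  unfold lpol
  linear_combination X * r_add a b - X ^ 2 * r_mul h6 a b

/-- the `k`-th power of the local factor -/
noncomputable def lp (k : ℂ) (a b : F) (X : ℂ) : ℂ := lpol a b X ^ (-k)

theorem one_sub_ne {z : ℂ} (hz : ‖z‖ < 1) : 1 - z ≠ 0 := by
  intro h
  rw [sub_eq_zero] at h
  rw [← h, norm_one] at hz
  exact lt_irrefl _ hz

theorem arg_lt {z : ℂ} (hz : ‖z‖ < 1) : |Complex.arg (1 - z)| < Real.pi / 2 := by
  rw [Complex.abs_arg_lt_pi_div_two_iff]
  left
  rw [sub_re, one_re]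
  have := (abs_le.1 (Complex.abs_re_le_norm z)).2
  linarith

theorem log_mul_small {z w : ℂ} (hz : ‖z‖ < 1) (hw : ‖w‖ < 1) :
    Complex.log ((1 - z) * (1 - w)) = Complex.log (1 - z) + Complex.log (1 - w) := by
  refine Complex.log_mul (one_sub_ne hz) (one_sub_ne hw) ?_
  have h1 := abs_lt.1 (arg_lt hz)
  have h2 := abs_lt.1 (arg_lt hw)
  constructor
  · linarith [h1.1, h2.1]
  · linarith [h1.2, h2.2]

theorem pw_mul_eq (k : ℂ) {z w : ℂ} (hz : ‖z‖ < 1) (hw : ‖w‖ < 1) :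
    pw k z * pw k w = ((1 - z) * (1 - w)) ^ (-k) := by
  unfold pw
  rw [cpow_def_of_ne_zero (one_sub_ne hz), cpow_def_of_ne_zero (one_sub_ne hw),
    cpow_def_of_ne_zero (mul_ne_zero (one_sub_ne hz) (one_sub_ne hw)), log_mul_small hz hw,
    ← Complex.exp_add]
  congr 1
  ring

/-- size of the variable -/
noncomputable def sz (F : Type*) [Fintype F] (X : ℂ) : ℝ := Real.sqrt (Fintype.card F) * ‖X‖

theorem z_le (h6 : (6 : F) ≠ 0) (a b : F) (X : ℂ) : ‖r1 a b * X‖ ≤ sz F X := by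
  rw [norm_mul]
  exact mul_le_mul_of_nonneg_right (r1_norm h6 a b) (norm_nonneg _)

theorem w_le (h6 : (6 : F) ≠ 0) (a b : F) (X : ℂ) : ‖r2 a b * X‖ ≤ sz F X := by
  rw [norm_mul]
  exact mul_le_mul_of_nonneg_right (r2_norm h6 a b) (norm_nonneg _)

theorem lp_eq (h6 : (6 : F) ≠ 0) (k : ℂ) (a b : F) {X : ℂ} (hX : sz F X < 1) :
    lp k a b X = pw k (r1 a b * X) * pw k (r2 a b * X) := by
  rw [pw_mul_eq k ((z_le h6 a b X).trans_lt hX) ((w_le h6 a b X).trans_lt hX), lp, lpol_eq h6]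

theorem lpol_ne (h6 : (6 : F) ≠ 0) (a b : F) {X : ℂ} (hX : sz F X < 1) : lpol a b X ≠ 0 := by
  rw [lpol_eq h6]
  exact mul_ne_zero (one_sub_ne ((z_le h6 a b X).trans_lt hX))
    (one_sub_ne ((w_le h6 a b X).trans_lt hX))

/-- the mean of the local factors -/
noncomputable def lm (F : Type*) [Field F] [Fintype F] [DecidableEq F] (k X : ℂ) : ℂ :=
  (∑ a : F, ∑ b : F, lp k a b X) / (Fintype.card F : ℂ) ^ 2

theorem sum_const2 (c : ℂ) : ∑ _a : F, ∑ _b : F, c = (Fintype.card F : ℂ) ^ 2 * c := by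
  rw [sum_const, sum_const, card_univ, nsmul_eq_mul, nsmul_eq_mul]
  ring

theorem sum_ep (h6 : (6 : F) ≠ 0) : ∑ a : F, ∑ b : F, ep (D a b = 0) =
    (Fintype.card F : ℂ) ^ 2 - Fintype.card F := by
  have h1 : ∀ a b : F, ep (D a b = 0) = 1 - (((if D a b = 0 then (1 : ℤ) else 0 : ℤ)) : ℂ) := by
    intro a b
    split_ifs with h
    · rw [ep_true h]; simp
    · rw [ep_false h]; simp
  simp_rw [h1]
  simp only [sum_sub_distrib]
  have h2 := count_sing (F := F) h6
  have h3 : ∑ a : F, ∑ b : F, (((if D a b = 0 then (1 : ℤ) else 0 : ℤ)) : ℂ) = Fintype.card F := by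
    have := congrArg (fun z : ℤ => (z : ℂ)) h2
    push_cast at this
    push_cast
    exact this
  rw [h3, sum_const2, mul_one]

theorem sum_sq (h6 : (6 : F) ≠ 0) : ∑ a : F, ∑ b : F, (tr a b : ℂ) ^ 2 =
    (Fintype.card F : ℂ) ^ 2 * (Fintype.card F - 1) := by
  have := congrArg (fun z : ℤ => (z : ℂ)) (sum_tr_sq (F := F) h6)
  push_cast at this
  exact this

/-- sums of the polynomial part -/
theorem sum_poly (h6 : (6 : F) ≠ 0) (k c c' X : ℂ) :
    ∑ a : F, ∑ b : F, (1 + k * (tr a b * X) + k * (k + 1) / 2 * (tr a b * X) ^ 2 -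
      k * (ep (D a b = 0) * Fintype.card F * X ^ 2) + c * (tr a b * X) ^ 3 +
      c' * (ep (D a b = 0) * Fintype.card F * X ^ 2 * (tr a b * X))) =
    (Fintype.card F : ℂ) ^ 2 * (1 + k * (k - 1) / 2 * ((Fintype.card F - 1) * X ^ 2)) := by
  have hodd := sum_odd (F := F) h6 (fun n P => k * (n * X) + c * (n * X) ^ 3 +
    c' * (ep P * Fintype.card F * X ^ 2 * (n * X))) (fun n P => by push_cast; ring)
  have h1 : ∀ a b : F, (1 + k * (tr a b * X) + k * (k + 1) / 2 * (tr a b * X) ^ 2 -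
      k * (ep (D a b = 0) * Fintype.card F * X ^ 2) + c * (tr a b * X) ^ 3 +
      c' * (ep (D a b = 0) * Fintype.card F * X ^ 2 * (tr a b * X))) =
      (k * (tr a b * X) + c * (tr a b * X) ^ 3 +
        c' * (ep (D a b = 0) * Fintype.card F * X ^ 2 * (tr a b * X))) +
      (1 + (tr a b : ℂ) ^ 2 * (k * (k + 1) / 2 * X ^ 2) -
        ep (D a b = 0) * (k * Fintype.card F * X ^ 2)) := by
    intro a b
    ring
  simp_rw [h1]
  rw [sum_congr rfl fun a _ => sum_add_distrib, sum_add_distrib, hodd, zero_add]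
  simp only [sum_add_distrib, sum_sub_distrib, ← sum_mul, sum_sq h6, sum_ep h6]
  rw [sum_const2]
  ring

theorem card_ne : (Fintype.card F : ℂ) ^ 2 ≠ 0 :=
  pow_ne_zero _ (by exact_mod_cast Fintype.card_ne_zero)

/-- **second order expansion of the mean of the local factors** -/
theorem lm_expand (k : ℂ) {r₀ : ℝ} (h0 : 0 < r₀) (h1 : r₀ < 1) : ∃ C : ℝ, 0 ≤ C ∧
    ∀ (F : Type) [Field F] [Fintype F] [DecidableEq F], (6 : F) ≠ 0 → ∀ X : ℂ, sz F X ≤ r₀ →
      ‖lm F k X - (1 + k * (k - 1) / 2 * ((Fintype.card F - 1) * X ^ 2))‖ ≤ C * sz F X ^ 4 := by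
  obtain ⟨C, hC, c, c', h⟩ := pw_mul_expand k h0 h1
  refine ⟨C, hC, ?_⟩
  intro F _ _ _ h6 X hX
  have h2 : lm F k X - (1 + k * (k - 1) / 2 * ((Fintype.card F - 1) * X ^ 2)) =
      (∑ a : F, ∑ b : F, (lp k a b X - (1 + k * (tr a b * X) + k * (k + 1) / 2 *
        (tr a b * X) ^ 2 - k * (ep (D a b = 0) * Fintype.card F * X ^ 2) + c * (tr a b * X) ^ 3 +
        c' * (ep (D a b = 0) * Fintype.card F * X ^ 2 * (tr a b * X))))) /
        (Fintype.card F : ℂ) ^ 2 := by
    simp_rw [sum_sub_distrib]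
    rw [sum_poly h6, sub_div, mul_div_cancel_left₀ _ card_ne]
    rfl
  rw [h2, norm_div, div_le_iff₀ (by
    rw [norm_pos_iff]
    exact card_ne)]
  refine (norm_sum_le _ _).trans ((sum_le_sum fun a _ => norm_sum_le _ _).trans ?_)
  have h3 : ∀ a b : F, ‖lp k a b X - (1 + k * (tr a b * X) + k * (k + 1) / 2 *
        (tr a b * X) ^ 2 - k * (ep (D a b = 0) * Fintype.card F * X ^ 2) + c * (tr a b * X) ^ 3 +
        c' * (ep (D a b = 0) * Fintype.card F * X ^ 2 * (tr a b * X)))‖ ≤ C * sz F X ^ 4 := by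
    intro a b
    have h4 := h (r1 a b * X) (r2 a b * X) (sz F X) (z_le h6 a b X) (w_le h6 a b X) hX
    rw [← lp_eq h6 k a b (hX.trans_lt h1)] at h4
    have e1 : r1 a b * X + r2 a b * X = tr a b * X := by rw [← add_mul, r_add]
    have e2 : r1 a b * X * (r2 a b * X) = ep (D a b = 0) * Fintype.card F * X ^ 2 := by
      rw [← r_mul h6]
      ring
    rw [e1, e2] at h4
    exact h4
  refine (sum_le_sum fun a _ => sum_le_sum fun b _ => h3 a b).trans (le_of_eq ?_)
  rw [sum_const, sum_const, card_univ, nsmul_eq_mul, nsmul_eq_mul, norm_pow, Complex.norm_natCast]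
  ring

/-- first order bound of the local factors -/
theorem lp_sub_one (k : ℂ) {r₀ : ℝ} (h0 : 0 < r₀) (h1 : r₀ < 1) : ∃ C : ℝ, 0 ≤ C ∧
    ∀ (F : Type) [Field F] [Fintype F] [DecidableEq F], (6 : F) ≠ 0 → ∀ X : ℂ, sz F X ≤ r₀ →
      ∀ a b : F, ‖lp k a b X - 1‖ ≤ C * sz F X := by
  obtain ⟨C, hC, h⟩ := pw_mul_sub_one k h0 h1
  refine ⟨C, hC, ?_⟩
  intro F _ _ _ h6 X hX a b
  rw [lp_eq h6 k a b (hX.trans_lt h1)]
  exact h _ _ _ (z_le h6 a b X) (w_le h6 a b X) hX

/-- the local factors are holomorphic -/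
theorem lp_diff (h6 : (6 : F) ≠ 0) (k : ℂ) (a b : F) {X : ℂ} (hX : sz F X < 1) :
    DifferentiableAt ℂ (lp k a b) X := by
  have hc : Continuous fun Y : ℂ => sz F Y := continuous_const.mul continuous_norm
  have hev : ∀ᶠ Y in nhds X, sz F Y < 1 := hc.continuousAt.eventually_lt_const hX
  have h1 : DifferentiableAt ℂ (fun Y => pw k (r1 a b * Y) * pw k (r2 a b * Y)) X := by
    have hsl : ∀ z : ℂ, ‖z‖ < 1 → 1 - z ∈ Complex.slitPlane := by
      intro z hz
      have := Complex.mem_slitPlane_of_norm_lt_one (z := -z) (by rwa [norm_neg])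
      rwa [← sub_eq_add_neg] at this
    refine DifferentiableAt.mul ?_ ?_
    · unfold pw
      exact DifferentiableAt.cpow (by fun_prop) (by fun_prop)
        (hsl _ ((z_le h6 a b X).trans_lt hX))
    · unfold pw
      exact DifferentiableAt.cpow (by fun_prop) (by fun_prop)
        (hsl _ ((w_le h6 a b X).trans_lt hX))
  refine h1.congr_of_eventuallyEq ?_
  filter_upwards [hev] with Y hY
  exact lp_eq h6 k a b hY

/-- positivity -/
theorem lpol_pos (h6 : (6 : F) ≠ 0) (a b : F) {x : ℝ} (hx0 : 0 ≤ x) (hx : sz F (x : ℂ) < 1) :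
    ∃ y : ℝ, 0 < y ∧ lpol a b (x : ℂ) = y := by
  by_cases h : D a b = 0
  · refine ⟨1 - tr a b * x, ?_, ?_⟩
    · have h1 := tr_sing h6 h
      have h2 : x < 1 := by
        have h3 := sqrt_one_le (F := F)
        unfold sz at hx
        rw [Complex.norm_real, Real.norm_of_nonneg hx0] at hx
        nlinarith
      have h3 := (abs_le.1 h1).2
      nlinarith
    · unfold lpol
      rw [ep_true h]
      push_cast
      ring
  · refine ⟨1 - tr a b * x + Fintype.card F * x ^ 2, ?_, ?_⟩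
    · have h1 : 1 - tr a b * x + Fintype.card F * x ^ 2 =
          (1 - tr a b * x / 2) ^ 2 + (dl a b * x / 2) ^ 2 := by
        have := dl_sq h6 a b
        linear_combination (-(x ^ 2 / 4)) * this
      have h2 : 0 ≤ 1 - tr a b * x + Fintype.card F * x ^ 2 := by
        rw [h1]; positivity
      refine lt_of_le_of_ne h2 fun h3 => ?_
      apply lpol_ne h6 a b hx
      unfold lpol
      rw [ep_false h]
      have := congrArg (fun y : ℝ => (y : ℂ)) h3
      push_cast at this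
      linear_combination -this
    · unfold lpol
      rw [ep_false h]
      push_cast
      ring

theorem lp_pos (h6 : (6 : F) ≠ 0) (k : ℝ) (a b : F) {x : ℝ} (hx0 : 0 ≤ x)
    (hx : sz F (x : ℂ) < 1) : ∃ y : ℝ, 0 < y ∧ lp (k : ℂ) a b (x : ℂ) = y := by
  obtain ⟨y, hy, h⟩ := lpol_pos h6 a b hx0 hx
  refine ⟨y ^ (-k), Real.rpow_pos_of_pos hy _, ?_⟩
  unfold lp
  rw [h, Complex.ofReal_cpow hy.le]
  push_cast
  rfl

theorem lp_zero (h6 : (6 : F) ≠ 0) (k X : ℂ) : lp k (0 : F) 0 X = 1 := by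
  unfold lp lpol
  rw [tr_zero_zero h6, ep_true (by unfold D; ring)]
  simp

end Pool.Agent.P8H18.MF
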