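import Pool.Agent.P8H18.MF.Mean
import Pool.Agent.P8H18.MF.Fac

/-! The local means over a number field and their product. -/

set_option autoImplicit false
set_option linter.unusedSectionVars false

namespace Pool.Agent.P8H18.MF

open Finset Filter Topology NumberField IsDedekindDomain
open Pool.Agent.H921R2.TatePole (nm two_le_nm nm_summable)
open Pool.Agent.H341R2 (card_v finite_v)
open Pool.Agent.H341R2.EC (mk_ne)

variable {K : Type} [Field K] [NumberField K] {ι : Type} [Fintype ι] [DecidableEq ι]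

theorem six_ne {v : HeightOneSpectrum (𝓞 K)} (h : (6 : 𝓞 K) ∉ v.asIdeal) :
    (6 : 𝓞 K ⧸ v.asIdeal) ≠ 0 := by
  have := mk_ne h
  rwa [map_ofNat] at this

/-- the variable `q^(-s)` -/
noncomputable def xv (v : HeightOneSpectrum (𝓞 K)) (s : ℂ) : ℂ := ((nm v : ℕ) : ℂ) ^ (-s)

/-- the `k`-th power of the Euler factor at `v` -/
noncomputable def psi (k s : ℂ) (v : HeightOneSpectrum (𝓞 K)) (a b : 𝓞 K) : ℂ := by
  classical
  exact if (6 : 𝓞 K) ∈ v.asIdeal then 1 else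
    lp k (Ideal.Quotient.mk v.asIdeal a) (Ideal.Quotient.mk v.asIdeal b) (xv v s)

theorem nm_pos (v : HeightOneSpectrum (𝓞 K)) : 0 < nm v := by
  have := two_le_nm v
  omega

theorem nm_ne (v : HeightOneSpectrum (𝓞 K)) : ((nm v : ℕ) : ℂ) ≠ 0 := by
  exact_mod_cast (nm_pos v).ne'

theorem norm_xv (v : HeightOneSpectrum (𝓞 K)) (s : ℂ) : ‖xv v s‖ = (nm v : ℝ) ^ (-s.re) := by
  unfold xv
  rw [Complex.norm_natCast_cpow_of_pos (nm_pos v), Complex.neg_re]

theorem sz_xv (v : HeightOneSpectrum (𝓞 K)) (s : ℂ) :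
    sz (𝓞 K ⧸ v.asIdeal) (xv v s) = (nm v : ℝ) ^ (1 / 2 - s.re) := by
  have hp : (0 : ℝ) < nm v := by exact_mod_cast nm_pos v
  unfold sz
  rw [norm_xv, card_v, Real.sqrt_eq_rpow, ← Real.rpow_add hp, sub_eq_add_neg]

theorem sz_le (v : HeightOneSpectrum (𝓞 K)) {s : ℂ} {σ : ℝ} (hs : σ ≤ s.re) :
    sz (𝓞 K ⧸ v.asIdeal) (xv v s) ≤ (nm v : ℝ) ^ (1 / 2 - σ) := by
  rw [sz_xv]
  refine Real.rpow_le_rpow_of_exponent_le ?_ (by linarith)
  exact_mod_cast nm_pos v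

theorem pow_le_two (v : HeightOneSpectrum (𝓞 K)) {σ : ℝ} (hσ : 1 / 2 < σ) :
    (nm v : ℝ) ^ (1 / 2 - σ) ≤ (2 : ℝ) ^ (1 / 2 - σ) :=
  Real.rpow_le_rpow_of_nonpos (by norm_num) (by exact_mod_cast two_le_nm v) (by linarith)

theorem y₀_bounds {σ : ℝ} (hσ : 1 / 2 < σ) :
    0 < (2 : ℝ) ^ (1 / 2 - σ) ∧ (2 : ℝ) ^ (1 / 2 - σ) < 1 :=
  ⟨by positivity, Real.rpow_lt_one_of_one_lt_of_neg (by norm_num) (by linarith)⟩

theorem sz_lt_one (v : HeightOneSpectrum (𝓞 K)) {s : ℂ} (hs : 1 / 2 < s.re) :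
    sz (𝓞 K ⧸ v.asIdeal) (xv v s) < 1 :=
  ((sz_le v le_rfl).trans (pow_le_two v hs)).trans_lt (y₀_bounds hs).2

/-- size of the local factors -/
theorem psi_sub_one (k : ℂ) {σ : ℝ} (hσ : 1 / 2 < σ) : ∃ C : ℝ, 0 ≤ C ∧
    ∀ (s : ℂ), σ ≤ s.re → ∀ (v : HeightOneSpectrum (𝓞 K)) (a b : 𝓞 K),
      ‖psi k s v a b - 1‖ ≤ C * (nm v : ℝ) ^ (1 / 2 - σ) := by
  obtain ⟨hy0, hy1⟩ := y₀_bounds hσ
  obtain ⟨C, hC, h⟩ := lp_sub_one k hy0 hy1
  refine ⟨C, hC, fun s hs v a b => ?_⟩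
  unfold psi
  split_ifs with h6
  · rw [sub_self, norm_zero]
    positivity
  · refine (h _ (six_ne h6) _ ((sz_le v hs).trans (pow_le_two v hσ)) _ _).trans ?_
    exact mul_le_mul_of_nonneg_left (sz_le v hs) hC

/-- a function of the reductions modulo `v`, for `v` prime to `6` -/
noncomputable def psiG (φ : ∀ v : HeightOneSpectrum (𝓞 K), 𝓞 K ⧸ v.asIdeal → 𝓞 K ⧸ v.asIdeal → ℂ)
    (v : HeightOneSpectrum (𝓞 K)) (a b : 𝓞 K) : ℂ := by
  classical
  exact if (6 : 𝓞 K) ∈ v.asIdeal then 1 else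
    φ v (Ideal.Quotient.mk v.asIdeal a) (Ideal.Quotient.mk v.asIdeal b)

theorem psi_eq (k s : ℂ) : (psi k s : HeightOneSpectrum (𝓞 K) → 𝓞 K → 𝓞 K → ℂ) =
    psiG fun v x y => lp k x y (xv v s) := rfl

section gen
variable (φ : ∀ v : HeightOneSpectrum (𝓞 K), 𝓞 K ⧸ v.asIdeal → 𝓞 K ⧸ v.asIdeal → ℂ)

theorem per_psi (v : HeightOneSpectrum (𝓞 K)) : Per v.asIdeal (psiG φ v) := by
  intro a b a' b' ha hb
  unfold psiG
  rw [Ideal.Quotient.eq.2 ha, Ideal.Quotient.eq.2 hb]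

end gen

theorem mem_iff_of_sub {I : Ideal (𝓞 K)} {a a' : 𝓞 K} (h : a - a' ∈ I) : a ∈ I ↔ a' ∈ I := by
  constructor
  · intro h1
    have := I.sub_mem h1 h
    rwa [sub_sub_cancel] at this
  · intro h1
    have := I.add_mem h h1
    rwa [sub_add_cancel] at this

open Classical in
theorem per_min (c : Prop) (v : HeightOneSpectrum (𝓞 K)) :
    Per (v.asIdeal ^ 6) (fun a b => if MinAt c v a b then (1 : ℂ) else 0) := by
  intro a b a' b' ha hb
  have h4 : a - a' ∈ v.asIdeal ^ 4 := Ideal.pow_le_pow_right (by norm_num) ha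
  have h1 : a - a' ∈ v.asIdeal := Ideal.pow_le_self (by norm_num) ha
  have h1' : b - b' ∈ v.asIdeal := Ideal.pow_le_self (by norm_num) hb
  have h2' : b - b' ∈ v.asIdeal ^ 2 := Ideal.pow_le_pow_right (by norm_num) hb
  have h2 : MinAt c v a b ↔ MinAt c v a' b' := by
    unfold MinAt
    rw [mem_iff_of_sub h1, mem_iff_of_sub h1', mem_iff_of_sub h2', mem_iff_of_sub h4,
      mem_iff_of_sub hb]
  simp only [h2]

section gen
variable (φ : ∀ v : HeightOneSpectrum (𝓞 K), 𝓞 K ⧸ v.asIdeal → 𝓞 K ⧸ v.asIdeal → ℂ)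

/-- the truncated factor -/
noncomputable def gv (c : Prop) (v : HeightOneSpectrum (𝓞 K)) (a b : 𝓞 K) : ℂ := by
  classical
  exact if MinAt c v a b then psiG φ v a b else 0

open Classical in
theorem per_gv (c : Prop) (v : HeightOneSpectrum (𝓞 K)) : Per (v.asIdeal ^ 6) (gv φ c v) := by
  have h1 := (per_min c v).mul ((per_psi φ v).mono (Ideal.pow_le_self (by norm_num : (6 : ℕ) ≠ 0)))
  have h2 : (fun a b => (if MinAt c v a b then (1 : ℂ) else 0) * psiG φ v a b) = gv φ c v := by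
    funext a b
    unfold gv
    split_ifs <;> simp
  rwa [h2] at h1

end gen

theorem finite_pow (v : HeightOneSpectrum (𝓞 K)) (m : ℕ) : Finite (𝓞 K ⧸ v.asIdeal ^ m) :=
  Ideal.finiteQuotientOfFreeOfNeBot _ (pow_ne_zero m v.ne_bot)

theorem card_pow (v : HeightOneSpectrum (𝓞 K)) (m : ℕ) [Fintype (𝓞 K ⧸ v.asIdeal ^ m)] :
    Fintype.card (𝓞 K ⧸ v.asIdeal ^ m) = nm v ^ m := by
  have h1 : Ideal.absNorm (v.asIdeal ^ m) = nm v ^ m := by
    rw [map_pow]
    rfl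
  rw [← h1, Ideal.absNorm_apply, Submodule.cardQuot_apply, Nat.card_eq_fintype_card]

variable (β : Module.Basis ι ℤ (𝓞 K))

/-- the density at `v` -/
noncomputable def dv (v : HeightOneSpectrum (𝓞 K)) : ℂ := by
  classical
  exact if (6 : 𝓞 K) ∈ v.asIdeal then 1 else 1 - ((nm v : ℂ) ^ 10)⁻¹

/-- the local mean over the equations minimal at `v` -/
noncomputable def MG (φ : ∀ v : HeightOneSpectrum (𝓞 K), 𝓞 K ⧸ v.asIdeal → 𝓞 K ⧸ v.asIdeal → ℂ)
    (v : HeightOneSpectrum (𝓞 K)) : ℂ := by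
  classical
  exact if (6 : 𝓞 K) ∈ v.asIdeal then 1 else
    1 + ((∑ x, ∑ y, φ v x y) / (Fintype.card (𝓞 K ⧸ v.asIdeal) : ℂ) ^ 2 - 1) /
      (1 - ((nm v : ℂ) ^ 10)⁻¹)

/-- the local mean over the equations minimal at `v` -/
noncomputable def Mv (k s : ℂ) (v : HeightOneSpectrum (𝓞 K)) : ℂ := by
  classical
  exact if (6 : 𝓞 K) ∈ v.asIdeal then 1 else
    1 + (lm (𝓞 K ⧸ v.asIdeal) k (xv v s) - 1) / (1 - ((nm v : ℂ) ^ 10)⁻¹)

theorem ten_le (v : HeightOneSpectrum (𝓞 K)) : ((nm v : ℝ) ^ 10)⁻¹ ≤ 1 / 2 := by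
  have h2 : (2 : ℝ) ≤ nm v := by exact_mod_cast two_le_nm v
  rw [one_div]
  refine inv_anti₀ (by norm_num) ?_
  calc (2 : ℝ) ≤ (nm v : ℝ) := h2
    _ ≤ (nm v : ℝ) ^ 10 := le_self_pow₀ (by linarith) (by norm_num)

theorem dv_real (v : HeightOneSpectrum (𝓞 K)) : ∃ r : ℝ, 1 / 2 ≤ r ∧ r ≤ 1 ∧ dv v = r := by
  classical
  unfold dv
  split_ifs
  · exact ⟨1, by norm_num, le_rfl, by simp⟩
  · refine ⟨1 - ((nm v : ℝ) ^ 10)⁻¹, ?_, ?_, ?_⟩
    · linarith [ten_le v]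
    · have : 0 ≤ ((nm v : ℝ) ^ 10)⁻¹ := by positivity
      linarith
    · push_cast
      rfl

theorem dv_ne (v : HeightOneSpectrum (𝓞 K)) : dv v ≠ 0 := by
  obtain ⟨r, h1, _, h3⟩ := dv_real v
  rw [h3]
  exact_mod_cast (by linarith : (0 : ℝ) < r).ne'

theorem dv_sub_one (v : HeightOneSpectrum (𝓞 K)) : ‖dv v - 1‖ ≤ ((nm v : ℝ) ^ 10)⁻¹ := by
  classical
  unfold dv
  split_ifs
  · rw [sub_self, norm_zero]
    positivity
  · rw [sub_sub_cancel_left, norm_neg, norm_inv, norm_pow, Complex.norm_natCast]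

theorem one_sub_eq {v : HeightOneSpectrum (𝓞 K)} (h6 : ¬ (6 : 𝓞 K) ∈ v.asIdeal) :
    (1 : ℂ) - ((nm v : ℂ) ^ 10)⁻¹ = dv v := by
  classical
  unfold dv
  rw [if_neg h6]

theorem Mv_eq_MG (k s : ℂ) : (Mv k s : HeightOneSpectrum (𝓞 K) → ℂ) =
    MG fun v x y => lp k x y (xv v s) := rfl

/-- the density at `v` of the family -/
noncomputable def dc (c : Prop) (v : HeightOneSpectrum (𝓞 K)) : ℂ := by
  classical
  exact if (6 : 𝓞 K) ∈ v.asIdeal then (if c then ((nm v : ℂ) ^ 2)⁻¹ - ((nm v : ℂ) ^ 3)⁻¹ else 1)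
    else dv v

theorem dc_real (c : Prop) (v : HeightOneSpectrum (𝓞 K)) :
    ∃ r : ℝ, 0 < r ∧ r ≤ 1 ∧ dc c v = r := by
  classical
  unfold dc
  split_ifs with h6 hc
  · have h2 : (2 : ℝ) ≤ nm v := by exact_mod_cast two_le_nm v
    have hpos : (0 : ℝ) < nm v := by linarith
    have h3 : ((nm v : ℝ) ^ 3)⁻¹ < ((nm v : ℝ) ^ 2)⁻¹ := by
      refine inv_strictAnti₀ (by positivity) ?_
      exact pow_lt_pow_right₀ (by linarith) (by norm_num)
    have h4 : ((nm v : ℝ) ^ 2)⁻¹ ≤ 1 := by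
      refine inv_le_one_of_one_le₀ ?_
      exact one_le_pow₀ (by linarith)
    have h5 : 0 < ((nm v : ℝ) ^ 3)⁻¹ := by positivity
    refine ⟨((nm v : ℝ) ^ 2)⁻¹ - ((nm v : ℝ) ^ 3)⁻¹, by linarith, by linarith, ?_⟩
    push_cast
    rfl
  · exact ⟨1, by norm_num, le_rfl, by simp⟩
  · obtain ⟨r, h1, h2, h3⟩ := dv_real v
    exact ⟨r, by linarith, h2, h3⟩

theorem dc_ne (c : Prop) (v : HeightOneSpectrum (𝓞 K)) : dc c v ≠ 0 := by
  obtain ⟨r, h1, _, h3⟩ := dc_real c v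
  rw [h3]
  exact_mod_cast h1.ne'

/-- the bound for `dc - 1` -/
noncomputable def uc (v : HeightOneSpectrum (𝓞 K)) : ℝ := by
  classical
  exact (if (6 : 𝓞 K) ∈ v.asIdeal then 1 else 0) + ((nm v : ℝ) ^ 10)⁻¹

theorem dc_sub_one (c : Prop) (v : HeightOneSpectrum (𝓞 K)) : ‖dc c v - 1‖ ≤ uc v := by
  classical
  have hq : 0 ≤ ((nm v : ℝ) ^ 10)⁻¹ := by positivity
  unfold uc
  by_cases h6 : (6 : 𝓞 K) ∈ v.asIdeal
  · rw [if_pos h6]
    obtain ⟨r, h1, h2, h3⟩ := dc_real c v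
    have h4 : dc c v - 1 = ((r - 1 : ℝ) : ℂ) := by
      rw [h3]
      push_cast
      rfl
    rw [h4, Complex.norm_real, Real.norm_eq_abs, abs_le]
    constructor <;> linarith
  · rw [if_neg h6, zero_add]
    unfold dc
    rw [if_neg h6]
    exact dv_sub_one v

theorem uc_summable : Summable (uc : HeightOneSpectrum (𝓞 K) → ℝ) := by
  classical
  have h6 : (6 : 𝓞 K) ≠ 0 := by norm_num
  refine Summable.add ?_ summable_ten
  refine summable_of_ne_finset_zero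
    (s := (Pool.Agent.H341R2.EC.finite_mem (K := K) h6).toFinset) fun v hv => ?_
  have : ¬ (6 : 𝓞 K) ∈ v.asIdeal := fun h => hv ((Set.Finite.mem_toFinset _).2 h)
  rw [if_neg this]

theorem dc_multipliable (c : Prop) : Multipliable (dc c : HeightOneSpectrum (𝓞 K) → ℂ) :=
  multipliable_of _ _ uc_summable (dc_sub_one c)

/-- the local mean of the truncated factor -/
noncomputable def EG (c : Prop)
    (φ : ∀ v : HeightOneSpectrum (𝓞 K), 𝓞 K ⧸ v.asIdeal → 𝓞 K ⧸ v.asIdeal → ℂ)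
    (v : HeightOneSpectrum (𝓞 K)) : ℂ := dc c v * MG φ v

theorem hasM_one : HasM β (fun _ _ : 𝓞 K => (1 : ℂ)) 1 := by
  unfold HasM
  have h3 : mean2 β (fun _ _ : 𝓞 K => (1 : ℂ)) = fun _ => (1 : ℂ) := by
    funext N
    unfold mean2
    simp only [sum_const, nsmul_eq_mul, mul_one]
    rw [div_self]
    exact mul_ne_zero (card_ne' _) (card_ne' _)
  rw [h3]
  exact tendsto_const_nhds

open Classical in
/-- the mean of the truncated factor -/
theorem hasM_gv (c : Prop)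
    {φ : ∀ v : HeightOneSpectrum (𝓞 K), 𝓞 K ⧸ v.asIdeal → 𝓞 K ⧸ v.asIdeal → ℂ}
    (hφ : ∀ v : HeightOneSpectrum (𝓞 K), (6 : 𝓞 K) ∉ v.asIdeal → φ v 0 0 = 1)
    (v : HeightOneSpectrum (𝓞 K)) : HasM β (gv φ c v) (EG c φ v) := by
  by_cases h6 : (6 : 𝓞 K) ∈ v.asIdeal
  · by_cases hc : c
    · have : Finite (𝓞 K ⧸ v.asIdeal ^ 2) := finite_pow v 2
      have : Finite (𝓞 K ⧸ v.asIdeal) := finite_v v
      have i2 : Fintype (𝓞 K ⧸ v.asIdeal ^ 2) := Fintype.ofFinite _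
      have i1 : Fintype (𝓞 K ⧸ v.asIdeal) := Fintype.ofFinite _
      have h1 := hasM_indicator (β := β) v.asIdeal v.asIdeal
      have h2 := hasM_indicator (β := β) v.asIdeal (v.asIdeal ^ 2)
      have h3 := h1.sub h2
      have e1 : (fun a b : 𝓞 K => (if a ∈ v.asIdeal ∧ b ∈ v.asIdeal then (1 : ℂ) else 0) -
          (if a ∈ v.asIdeal ∧ b ∈ v.asIdeal ^ 2 then (1 : ℂ) else 0)) = gv φ c v := by
        funext a b
        have hm : MinAt c v a b ↔ a ∈ v.asIdeal ∧ b ∈ v.asIdeal ∧ b ∉ v.asIdeal ^ 2 := by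
          unfold MinAt
          exact ⟨fun h => h.1 h6 hc, fun h => ⟨fun _ _ => h, fun h7 => absurd h6 h7⟩⟩
        have hs : b ∈ v.asIdeal ^ 2 → b ∈ v.asIdeal := fun h =>
          Ideal.pow_le_self (by norm_num) h
        unfold gv psiG
        simp only [hm, if_pos h6]
        by_cases ha : a ∈ v.asIdeal <;> by_cases hb : b ∈ v.asIdeal <;>
          by_cases hb2 : b ∈ v.asIdeal ^ 2 <;> simp [ha, hb, hb2]
        exact absurd (hs hb2) hb
      rw [e1] at h3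
      have e2 : 1 / ((Fintype.card (𝓞 K ⧸ v.asIdeal) : ℂ) * Fintype.card (𝓞 K ⧸ v.asIdeal)) -
          1 / ((Fintype.card (𝓞 K ⧸ v.asIdeal) : ℂ) * Fintype.card (𝓞 K ⧸ v.asIdeal ^ 2)) =
          EG c φ v := by
        have h4 : Fintype.card (𝓞 K ⧸ v.asIdeal) = nm v := by
          have := Pool.Agent.H341R2.card_v v
          convert this
        unfold EG dc MG
        rw [if_pos h6, if_pos h6, if_pos hc, card_pow, h4]
        push_cast
        rw [mul_one, one_div, one_div]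
        congr 2 <;> ring
      rw [e2] at h3
      exact h3
    · have h1 : gv φ c v = fun _ _ : 𝓞 K => (1 : ℂ) := by
        funext a b
        unfold gv psiG MinAt
        simp [h6, hc]
      have h2 : EG c φ v = 1 := by
        unfold EG dc MG
        rw [if_pos h6, if_pos h6, if_neg hc, mul_one]
      rw [h1, h2]
      exact hasM_one β
  · have : Finite (𝓞 K ⧸ v.asIdeal ^ 4) := finite_pow v 4
    have : Finite (𝓞 K ⧸ v.asIdeal ^ 6) := finite_pow v 6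
    have i4 : Fintype (𝓞 K ⧸ v.asIdeal ^ 4) := Fintype.ofFinite _
    have i6 : Fintype (𝓞 K ⧸ v.asIdeal ^ 6) := Fintype.ofFinite _
    have h1 := hasM_mod (β := β) v.asIdeal (φ v)
    have h2 := hasM_indicator (β := β) (v.asIdeal ^ 4) (v.asIdeal ^ 6)
    have h3 := h1.sub h2
    have e1 : (fun a b : 𝓞 K => φ v (Ideal.Quotient.mk v.asIdeal a)
        (Ideal.Quotient.mk v.asIdeal b) -
        (if a ∈ v.asIdeal ^ 4 ∧ b ∈ v.asIdeal ^ 6 then (1 : ℂ) else 0)) = gv φ c v := by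
      funext a b
      unfold gv psiG
      rw [if_neg h6]
      by_cases hab : a ∈ v.asIdeal ^ 4 ∧ b ∈ v.asIdeal ^ 6
      · have hm : ¬ MinAt c v a b := fun h => h.2 h6 hab
        rw [if_pos hab, if_neg hm]
        have ha : Ideal.Quotient.mk v.asIdeal a = 0 :=
          Ideal.Quotient.eq_zero_iff_mem.2 (Ideal.pow_le_self (by norm_num) hab.1)
        have hb : Ideal.Quotient.mk v.asIdeal b = 0 :=
          Ideal.Quotient.eq_zero_iff_mem.2 (Ideal.pow_le_self (by norm_num) hab.2)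
        rw [ha, hb, hφ v h6, sub_self]
      · have hm : MinAt c v a b := ⟨fun h => absurd h h6, fun _ => hab⟩
        rw [if_neg hab, if_pos hm, sub_zero]
    rw [e1] at h3
    have e2 : (∑ x : 𝓞 K ⧸ v.asIdeal, ∑ y : 𝓞 K ⧸ v.asIdeal, φ v x y) /
        (Fintype.card (𝓞 K ⧸ v.asIdeal) : ℂ) ^ 2 - 1 / ((Fintype.card (𝓞 K ⧸ v.asIdeal ^ 4) : ℂ) *
          Fintype.card (𝓞 K ⧸ v.asIdeal ^ 6)) = EG c φ v := by
      unfold EG dc MG
      rw [if_neg h6, if_neg h6, card_pow, card_pow, one_sub_eq h6, mul_add,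
        mul_div_cancel₀ _ (dv_ne v), ← one_sub_eq h6]
      push_cast
      rw [← pow_add, one_div]
      ring
    rw [e2] at h3
    exact h3

theorem coprime_pow {v w : HeightOneSpectrum (𝓞 K)} (h : v ≠ w) (m n : ℕ) :
    IsCoprime (v.asIdeal ^ m) (w.asIdeal ^ n) := by
  refine IsCoprime.pow ?_
  rw [Ideal.isCoprime_iff_sup_eq]
  have hv := v.isMaximal
  have hw := w.isMaximal
  exact hv.coprime_of_ne hw fun h2 => h (HeightOneSpectrum.ext h2)

theorem hasM_step {I J : Ideal (𝓞 K)} (hI : I ≠ ⊥) (hJ : J ≠ ⊥) (hc : IsCoprime I J)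
    {f g : 𝓞 K → 𝓞 K → ℂ} (hf : Per I f) (hg : Per J g) {c d : ℂ} (h1 : HasM β f c)
    (h2 : HasM β g d) : HasM β (fun a b => f a b * g a b) (c * d) ∧
      Per (I * J) (fun a b => f a b * g a b) := by
  have : Finite (𝓞 K ⧸ I) := Ideal.finiteQuotientOfFreeOfNeBot _ hI
  have : Finite (𝓞 K ⧸ J) := Ideal.finiteQuotientOfFreeOfNeBot _ hJ
  exact ⟨hasM_mul hc hf hg h1 h2, (hf.mono Ideal.mul_le_left).mul (hg.mono Ideal.mul_le_right)⟩

/-- the mean of finite products -/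
theorem hasM_finite' (c : Prop) {φ : ∀ v : HeightOneSpectrum (𝓞 K), 𝓞 K ⧸ v.asIdeal → 𝓞 K ⧸ v.asIdeal → ℂ}
    (hφ : ∀ v : HeightOneSpectrum (𝓞 K), (6 : 𝓞 K) ∉ v.asIdeal → φ v 0 0 = 1)
    (S : Finset (HeightOneSpectrum (𝓞 K))) :
    ∃ J : Ideal (𝓞 K), J ≠ ⊥ ∧ (∀ w : HeightOneSpectrum (𝓞 K), w ∉ S →
      IsCoprime (w.asIdeal ^ 6) J) ∧ HasM β (fun a b => ∏ v ∈ S, gv φ c v a b)
        (∏ v ∈ S, EG c φ v) ∧ Per J (fun a b => ∏ v ∈ S, gv φ c v a b) := by
  classical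
  induction S using Finset.induction_on with
  | empty =>
    refine ⟨⊤, top_ne_bot, fun w _ => ?_, ?_, ?_⟩
    · rw [Ideal.isCoprime_iff_sup_eq, sup_top_eq]
    · simp only [prod_empty]
      exact hasM_one β
    · intro a b a' b' _ _
      simp only [prod_empty]
  | insert v S hv ih =>
    obtain ⟨J, hJ, hJc, hM, hP⟩ := ih
    have e1 : (fun a b : 𝓞 K => ∏ w ∈ insert v S, gv φ c w a b) =
        fun a b => gv φ c v a b * ∏ w ∈ S, gv φ c w a b := by
      funext a b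
      rw [prod_insert hv]
    have hI : v.asIdeal ^ 6 ≠ ⊥ := pow_ne_zero 6 v.ne_bot
    obtain ⟨h1, h2⟩ := hasM_step β hI hJ (hJc v hv) (per_gv φ c v) hP (hasM_gv β c hφ v) hM
    refine ⟨v.asIdeal ^ 6 * J, mul_ne_zero hI hJ, fun w hw => ?_, ?_, ?_⟩
    · rw [mem_insert, not_or] at hw
      exact (coprime_pow hw.1 6 6).mul_right (hJc w hw.2)
    · rw [e1, prod_insert hv]
      exact h1
    · rw [e1]
      exact h2

theorem hasM_finite (c : Prop) {φ : ∀ v : HeightOneSpectrum (𝓞 K), 𝓞 K ⧸ v.asIdeal → 𝓞 K ⧸ v.asIdeal → ℂ}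
    (hφ : ∀ v : HeightOneSpectrum (𝓞 K), (6 : 𝓞 K) ∉ v.asIdeal → φ v 0 0 = 1)
    (S : Finset (HeightOneSpectrum (𝓞 K))) :
    HasM β (fun a b => ∏ v ∈ S, gv φ c v a b) (∏ v ∈ S, EG c φ v) := by
  obtain ⟨_, _, _, h, _⟩ := hasM_finite' β c hφ S
  exact h


theorem lm_zero {F : Type} [Field F] [Fintype F] [DecidableEq F] (X : ℂ) : lm F 0 X = 1 := by
  unfold lm lp
  simp only [neg_zero, Complex.cpow_zero]
  rw [sum_const2, mul_one, div_self card_ne]

theorem Mv_zero (s : ℂ) (v : HeightOneSpectrum (𝓞 K)) : Mv 0 s v = 1 := by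
  classical
  unfold Mv
  split_ifs
  · rfl
  · rw [lm_zero, sub_self, zero_div, add_zero]

theorem Mv_sub_one_le (k s : ℂ) (v : HeightOneSpectrum (𝓞 K)) {B : ℝ} (hB : 0 ≤ B)
    (h : ¬ (6 : 𝓞 K) ∈ v.asIdeal → ‖lm (𝓞 K ⧸ v.asIdeal) k (xv v s) - 1‖ ≤ B) :
    ‖Mv k s v - 1‖ ≤ 2 * B := by
  classical
  unfold Mv
  split_ifs with h6
  · rw [sub_self, norm_zero]
    positivity
  · rw [add_sub_cancel_left, norm_div, one_sub_eq h6]
    obtain ⟨r, h1, h2, h3⟩ := dv_real v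
    rw [h3, Complex.norm_real, Real.norm_of_nonneg (by linarith), div_le_iff₀ (by linarith)]
    have := h h6
    nlinarith

theorem lm_sub_one_le {F : Type} [Field F] [Fintype F] [DecidableEq F] (k X : ℂ) {B : ℝ}
    (h : ∀ a b : F, ‖lp k a b X - 1‖ ≤ B) : ‖lm F k X - 1‖ ≤ B := by
  have h1 : lm F k X - 1 = (∑ a : F, ∑ b : F, (lp k a b X - 1)) / (Fintype.card F : ℂ) ^ 2 := by
    unfold lm
    simp_rw [sum_sub_distrib]
    rw [sum_const2, mul_one, sub_div, div_self card_ne]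
  rw [h1, norm_div, div_le_iff₀ (by rw [norm_pos_iff]; exact card_ne)]
  refine (norm_sum_le _ _).trans ((sum_le_sum fun a _ => norm_sum_le _ _).trans ?_)
  refine (sum_le_sum fun a _ => sum_le_sum fun b _ => h a b).trans (le_of_eq ?_)
  rw [sum_const, sum_const, card_univ, nsmul_eq_mul, nsmul_eq_mul, norm_pow, Complex.norm_natCast]
  ring

/-- crude bound for the local means -/
theorem Mv_crude (k : ℂ) {σ : ℝ} (hσ : 1 / 2 < σ) : ∃ C : ℝ, 0 ≤ C ∧
    ∀ (s : ℂ), σ ≤ s.re → ∀ (v : HeightOneSpectrum (𝓞 K)),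
      ‖Mv k s v - 1‖ ≤ C * (nm v : ℝ) ^ (1 / 2 - σ) := by
  obtain ⟨hy0, hy1⟩ := y₀_bounds hσ
  obtain ⟨C, hC, h⟩ := lp_sub_one k hy0 hy1
  refine ⟨2 * C, by positivity, fun s hs v => ?_⟩
  rw [mul_assoc]
  refine Mv_sub_one_le k s v (by positivity) fun h6 => lm_sub_one_le _ _ fun a b => ?_
  refine (h _ (six_ne h6) _ ((sz_le v hs).trans (pow_le_two v hσ)) _ _).trans ?_
  exact mul_le_mul_of_nonneg_left (sz_le v hs) hC

theorem nm_summable' {x : ℝ} (hx : x < -1) :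
    Summable fun v : HeightOneSpectrum (𝓞 K) => (nm v : ℝ) ^ x := by
  have := nm_summable (K := K) (x := -x) (by linarith)
  simpa using this

theorem dv_multipliable : Multipliable (dv : HeightOneSpectrum (𝓞 K) → ℂ) :=
  multipliable_of _ _ summable_ten dv_sub_one

theorem Mv_multipliable (k : ℂ) {s : ℂ} (hs : 3 / 2 < s.re) :
    Multipliable fun v : HeightOneSpectrum (𝓞 K) => Mv k s v := by
  obtain ⟨C, hC, h⟩ := Mv_crude (K := K) k (σ := s.re) (by linarith)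
  exact multipliable_of _ _ ((nm_summable' (by linarith)).mul_left C) fun v => h s le_rfl v

/-- the mean function -/
noncomputable def Mf (K : Type) [Field K] [NumberField K] (k s : ℂ) : ℂ :=
  ∏' v : HeightOneSpectrum (𝓞 K), Mv k s v

theorem MG_sub_one_le (φ : ∀ v : HeightOneSpectrum (𝓞 K), 𝓞 K ⧸ v.asIdeal → 𝓞 K ⧸ v.asIdeal → ℂ)
    (v : HeightOneSpectrum (𝓞 K)) {B : ℝ} (hB : ∀ a b, ‖psiG φ v a b - 1‖ ≤ B) :
    ‖MG φ v - 1‖ ≤ 2 * B := by
  classical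
  have hB0 : 0 ≤ B := (norm_nonneg _).trans (hB 0 0)
  unfold MG
  split_ifs with h6
  · rw [sub_self, norm_zero]
    positivity
  · rw [add_sub_cancel_left, norm_div, one_sub_eq h6]
    obtain ⟨r, h1, h2, h3⟩ := dv_real v
    rw [h3, Complex.norm_real, Real.norm_of_nonneg (by linarith), div_le_iff₀ (by linarith)]
    have h4 : ‖(∑ x, ∑ y, φ v x y) / (Fintype.card (𝓞 K ⧸ v.asIdeal) : ℂ) ^ 2 - 1‖ ≤ B := by
      have h5 : (∑ x, ∑ y, φ v x y) / (Fintype.card (𝓞 K ⧸ v.asIdeal) : ℂ) ^ 2 - 1 =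
          (∑ x : 𝓞 K ⧸ v.asIdeal, ∑ y : 𝓞 K ⧸ v.asIdeal, (φ v x y - 1)) /
            (Fintype.card (𝓞 K ⧸ v.asIdeal) : ℂ) ^ 2 := by
        simp_rw [sum_sub_distrib]
        rw [sum_const2, mul_one, sub_div, div_self card_ne]
      rw [h5, norm_div, div_le_iff₀ (by rw [norm_pos_iff]; exact card_ne)]
      refine (norm_sum_le _ _).trans ((sum_le_sum fun a _ => norm_sum_le _ _).trans ?_)
      have h7 : ∀ x y : 𝓞 K ⧸ v.asIdeal, ‖φ v x y - 1‖ ≤ B := by
        intro x y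
        obtain ⟨a, rfl⟩ := Ideal.Quotient.mk_surjective x
        obtain ⟨b, rfl⟩ := Ideal.Quotient.mk_surjective y
        have := hB a b
        unfold psiG at this
        rwa [if_neg h6] at this
      refine (sum_le_sum fun a _ => sum_le_sum fun b _ => h7 a b).trans (le_of_eq ?_)
      rw [sum_const, sum_const, card_univ, nsmul_eq_mul, nsmul_eq_mul, norm_pow,
        Complex.norm_natCast]
      ring
    nlinarith

section gen
variable {φ : ∀ v : HeightOneSpectrum (𝓞 K), 𝓞 K ⧸ v.asIdeal → 𝓞 K ⧸ v.asIdeal → ℂ}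
    (hφ : ∀ v : HeightOneSpectrum (𝓞 K), (6 : 𝓞 K) ∉ v.asIdeal → φ v 0 0 = 1)
    {u : HeightOneSpectrum (𝓞 K) → ℝ} (hu : Summable u)
    (hb : ∀ v a b, ‖psiG φ v a b - 1‖ ≤ u v)

include hu hb in
theorem MG_multipliable : Multipliable (MG φ) :=
  multipliable_of _ _ (hu.mul_left 2) fun v => MG_sub_one_le φ v (hb v)

include hφ hu hb in
/-- **the mean over the box** -/
theorem hasM_main (c : Prop) :
    HasM β (fun a b => by classical exact if Red c a b then ∏' v, psiG φ v a b else 0)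
      ((∏' v : HeightOneSpectrum (𝓞 K), dc c v) * ∏' v, MG φ v) := by
  classical
  have hE : Multipliable (EG c φ) := (dc_multipliable (K := K) c).mul (MG_multipliable hu hb)
  have h1 := hasM_tprod c β (psiG φ) u hu hb (EG c φ) hE (fun S => hasM_finite β c hφ S)
  have h2 : ∏' v : HeightOneSpectrum (𝓞 K), EG c φ v =
      (∏' v : HeightOneSpectrum (𝓞 K), dc c v) * ∏' v, MG φ v :=
    (dc_multipliable (K := K) c).tprod_mul (MG_multipliable hu hb)
  rw [h2] at h1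
  exact h1

end gen

theorem dprod_ne (c : Prop) : (∏' v : HeightOneSpectrum (𝓞 K), dc c v) ≠ 0 := by
  have h5 := tprod_one_add_ne_zero_of_summable
    (f := fun v : HeightOneSpectrum (𝓞 K) => dc c v - 1)
    (fun v => by
      rw [add_sub_cancel]
      exact dc_ne c v)
    (Summable.of_nonneg_of_le (fun _ => norm_nonneg _) (dc_sub_one c) uc_summable)
  simpa using h5

/-- the mean over the pairs of the family -/
noncomputable def meanR (c : Prop) (f : 𝓞 K → 𝓞 K → ℂ) (N : ℕ × ℕ) : ℂ := by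
  classical
  exact (∑ p ∈ (box β N.1 ×ˢ box β N.2).filter (fun p => Red c p.1 p.2), f p.1 p.2) /
    ((box β N.1 ×ˢ box β N.2).filter (fun p => Red c p.1 p.2)).card

theorem meanR_eq (c : Prop) (f : 𝓞 K → 𝓞 K → ℂ) (N : ℕ × ℕ) : meanR β c f N =
    mean2 β (fun a b => by classical exact if Red c a b then f a b else 0) N /
      mean2 β (fun a b => by classical exact if Red c a b then 1 else 0) N := by
  classical
  unfold meanR mean2
  have h : ∀ g : 𝓞 K → 𝓞 K → ℂ, ∑ a ∈ box β N.1, ∑ b ∈ box β N.2,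
      (if Red c a b then g a b else 0) =
      ∑ p ∈ (box β N.1 ×ˢ box β N.2).filter (fun p => Red c p.1 p.2), g p.1 p.2 := by
    intro g
    rw [sum_filter, sum_product]
  rw [div_div_div_cancel_right₀ (mul_ne_zero (card_ne' _) (card_ne' _)), h f,
    h (fun _ _ => 1), sum_const, nsmul_one]

theorem hasM_red (c : Prop) : HasM β (fun a b => by classical exact if Red c a b then 1 else 0)
      (∏' v : HeightOneSpectrum (𝓞 K), dc c v) := by
  classical
  have h0 := hasM_main (K := K) β (φ := fun _ _ _ => 1) (fun _ _ => rfl) (u := fun _ => 0)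
    summable_zero (fun v a b => by unfold psiG; split_ifs <;> simp) c
  have e1 : ∀ a b : 𝓞 K, ∏' v, psiG (fun _ _ _ => (1 : ℂ)) v a b = 1 := by
    intro a b
    have : ∀ v : HeightOneSpectrum (𝓞 K), psiG (fun _ _ _ => (1 : ℂ)) v a b = 1 := by
      intro v
      unfold psiG
      split_ifs <;> rfl
    simp [this]
  have e2 : ∀ v : HeightOneSpectrum (𝓞 K), MG (fun _ _ _ => (1 : ℂ)) v = 1 := by
    intro v
    unfold MG
    split_ifs
    · rfl
    · rw [sum_const2, mul_one, div_self card_ne, sub_self, zero_div, add_zero]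
  simp only [e1, e2, tprod_one, mul_one] at h0
  exact h0

/-- **the mean over the family of an infinite product** -/
theorem meanR_general (c : Prop) {φ : ∀ v : HeightOneSpectrum (𝓞 K), 𝓞 K ⧸ v.asIdeal → 𝓞 K ⧸ v.asIdeal → ℂ}
    (hφ : ∀ v : HeightOneSpectrum (𝓞 K), (6 : 𝓞 K) ∉ v.asIdeal → φ v 0 0 = 1)
    {u : HeightOneSpectrum (𝓞 K) → ℝ} (hu : Summable u)
    (hb : ∀ v a b, ‖psiG φ v a b - 1‖ ≤ u v) :
    Tendsto (meanR β c fun a b => ∏' v, psiG φ v a b) atTop (𝓝 (∏' v, MG φ v)) := by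
  have h1 := hasM_main β hφ hu hb c
  have h0 := hasM_red (K := K) β c
  have h2 := Tendsto.div h1 h0 (dprod_ne (K := K) c)
  rw [mul_div_cancel_left₀ _ (dprod_ne (K := K) c)] at h2
  refine h2.congr fun N => ?_
  rw [meanR_eq]
  rfl

/-- **the mean of the `k`-th powers of the `L`-functions** -/
theorem meanR_tendsto (c : Prop) (k : ℂ) {s : ℂ} (hs : 3 / 2 < s.re) :
    Tendsto (meanR β c fun a b => ∏' v, psi k s v a b) atTop (𝓝 (Mf K k s)) := by
  obtain ⟨C, hC, h⟩ := psi_sub_one (K := K) k (σ := s.re) (by linarith)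
  exact meanR_general β c (φ := fun v x y => lp k x y (xv v s))
    (fun v h6 => lp_zero (six_ne h6) _ _) ((nm_summable' (by linarith)).mul_left C)
    (fun v a b => h s le_rfl v a b)

end Pool.Agent.P8H18.MF
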