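import Pool.Agent.W165.CE.FF
import Pool.Agent.H341R2.NF.Model

/-! Moments of the number of points of `y² = x³ + a x + b` over a finite field. -/

set_option autoImplicit false
set_option linter.unusedSectionVars false

namespace Pool.Agent.P8H18.MF

open Finset

section
variable {F : Type*} [Field F]

/-- number of affine points of `y² = x³ + a x + b` -/
noncomputable def pts (a b : F) : ℕ := Nat.card {p : F × F // p.2 ^ 2 = p.1 ^ 3 + a * p.1 + b}

theorem two_ne (h6 : (6 : F) ≠ 0) : (2 : F) ≠ 0 := by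
  intro h; apply h6
  have : (6 : F) = 3 * 2 := by norm_num
  rw [this, h, mul_zero]

theorem three_ne (h6 : (6 : F) ≠ 0) : (3 : F) ≠ 0 := by
  intro h; apply h6
  have : (6 : F) = 2 * 3 := by norm_num
  rw [this, h, mul_zero]

theorem ringChar_ne (h6 : (6 : F) ≠ 0) : ringChar F ≠ 2 := by
  intro h
  apply two_ne h6
  have := ringChar.Nat.cast_ringChar (R := F)
  rw [h] at this
  exact_mod_cast this

end

variable {F : Type*} [Field F] [Fintype F] [DecidableEq F]

/-- the character sum -/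
noncomputable def S (a b : F) : ℤ := ∑ x : F, quadraticChar F (x ^ 3 + a * x + b)

/-- the trace -/
noncomputable def tr (a b : F) : ℤ := (Fintype.card F : ℤ) - pts a b

theorem tr_eq (h6 : (6 : F) ≠ 0) (a b : F) : tr a b = - S a b := by
  unfold tr pts S
  rw [Pool.Agent.H82R3.EK.card_points (ringChar_ne h6) (fun x : F => x ^ 3 + a * x + b)]
  ring

theorem tr_bound (h6 : (6 : F) ≠ 0) (a b : F) : |(tr a b : ℝ)| ≤ 2 * Real.sqrt (Fintype.card F) := by
  have := W165.CE.hasse (ringChar_ne h6) a b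
  unfold tr pts
  push_cast
  push_cast at this
  exact this

/-- `∑ χ = 0` -/
theorem sum_chi (h6 : (6 : F) ≠ 0) : ∑ x : F, quadraticChar F x = 0 :=
  quadraticChar_sum_zero (ringChar_ne h6)

theorem sum_chi_sq : ∑ x : F, quadraticChar F x ^ 2 = (Fintype.card F : ℤ) - 1 := by
  classical
  have h : ∀ x : F, quadraticChar F x ^ 2 = if x = 0 then 0 else 1 := by
    intro x
    split_ifs with h
    · rw [h, quadraticChar_zero]; rfl
    · exact quadraticChar_sq_one h
  simp_rw [h]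
  rw [sum_ite, sum_const_zero, zero_add, sum_const, nsmul_one]
  have : (univ.filter fun x : F => ¬ x = 0) = univ.erase 0 := by
    ext x; simp
  rw [this, card_erase_of_mem (mem_univ _), card_univ, Nat.cast_sub Fintype.card_pos]
  simp

/-- sum over a translate -/
theorem sum_shift {M : Type*} [AddCommMonoid M] (g : F → M) (c : F) :
    ∑ b : F, g (c + b) = ∑ b : F, g b :=
  (Fintype.sum_equiv (Equiv.addLeft c) _ _ fun _ => rfl)

theorem sum_scale {M : Type*} [AddCommMonoid M] (g : F → M) {d : F} (hd : d ≠ 0) :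
    ∑ b : F, g (d * b) = ∑ b : F, g b :=
  (Fintype.sum_equiv (Equiv.mulLeft₀ d hd) _ _ fun _ => rfl)

/-- twisting -/
theorem S_twist {d : F} (hd : d ≠ 0) (a b : F) :
    S (d ^ 2 * a) (d ^ 3 * b) = quadraticChar F d * S a b := by
  unfold S
  rw [mul_sum, ← sum_scale (fun x => quadraticChar F (x ^ 3 + d ^ 2 * a * x + d ^ 3 * b)) hd]
  refine sum_congr rfl fun x _ => ?_
  have h2 : (d * x) ^ 3 + d ^ 2 * a * (d * x) + d ^ 3 * b = d ^ 2 * (d * (x ^ 3 + a * x + b)) := by
    ring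
  rw [h2, map_mul, map_mul, quadraticChar_sq_one' hd, one_mul]

/-- the discriminant, up to `-16` -/
def D (a b : F) : F := 4 * a ^ 3 + 27 * b ^ 2

theorem D_twist (d a b : F) : D (d ^ 2 * a) (d ^ 3 * b) = d ^ 6 * D a b := by
  unfold D
  ring

/-- odd functions have mean zero -/
theorem sum_odd (h6 : (6 : F) ≠ 0) (Φ : ℤ → Prop → ℂ) (hΦ : ∀ n P, Φ (-n) P = - Φ n P) :
    ∑ a : F, ∑ b : F, Φ (tr a b) (D a b = 0) = 0 := by
  obtain ⟨d, hd⟩ := quadraticChar_exists_neg_one (ringChar_ne h6)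
  have hd0 : d ≠ 0 := by
    rintro rfl
    rw [quadraticChar_zero] at hd
    norm_num at hd
  have h1 : ∀ a b : F, Φ (tr (d ^ 2 * a) (d ^ 3 * b)) (D (d ^ 2 * a) (d ^ 3 * b) = 0) =
      - Φ (tr a b) (D a b = 0) := by
    intro a b
    rw [tr_eq h6, tr_eq h6, S_twist hd0, hd, D_twist, ← hΦ]
    congr 1
    · ring
    · rw [mul_eq_zero, or_iff_right (pow_ne_zero 6 hd0)]
  have h2 : ∑ a : F, ∑ b : F, Φ (tr a b) (D a b = 0) =
      ∑ a : F, ∑ b : F, Φ (tr (d ^ 2 * a) (d ^ 3 * b)) (D (d ^ 2 * a) (d ^ 3 * b) = 0) := by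
    rw [← sum_scale (fun a => ∑ b : F, Φ (tr a b) (D a b = 0)) (pow_ne_zero 2 hd0)]
    refine sum_congr rfl fun a _ => ?_
    rw [← sum_scale (fun b => Φ (tr (d ^ 2 * a) b) (D (d ^ 2 * a) b = 0)) (pow_ne_zero 3 hd0)]
  simp_rw [h1] at h2
  simp only [sum_neg_distrib] at h2
  have h3 : (2 : ℂ) * ∑ a : F, ∑ b : F, Φ (tr a b) (D a b = 0) = 0 := by
    linear_combination h2
  exact (mul_eq_zero.1 h3).resolve_left two_ne_zero

/-- independence of two values -/
theorem sum_two (h6 : (6 : F) ≠ 0) {x y : F} (hxy : x ≠ y) :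
    ∑ a : F, ∑ b : F, quadraticChar F (x ^ 3 + a * x + b) * quadraticChar F (y ^ 3 + a * y + b) =
      0 := by
  have h1 : ∀ a : F, ∑ b : F, quadraticChar F (x ^ 3 + a * x + b) *
      quadraticChar F (y ^ 3 + a * y + b) =
      ∑ b : F, quadraticChar F b * quadraticChar F ((y ^ 3 - x ^ 3 + b) + (y - x) * a) := by
    intro a
    rw [← sum_shift (fun b => quadraticChar F b * quadraticChar F ((y ^ 3 - x ^ 3 + b) +
      (y - x) * a)) (x ^ 3 + a * x)]
    refine sum_congr rfl fun b _ => ?_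
    congr 2
    ring
  simp_rw [h1]
  rw [sum_comm]
  refine sum_eq_zero fun b _ => ?_
  rw [← mul_sum, sum_scale (fun a => quadraticChar F ((y ^ 3 - x ^ 3 + b) + a))
    (sub_ne_zero.2 hxy.symm), sum_shift, sum_chi h6, mul_zero]

theorem sum_one (x : F) :
    ∑ a : F, ∑ b : F, quadraticChar F (x ^ 3 + a * x + b) * quadraticChar F (x ^ 3 + a * x + b) =
      (Fintype.card F : ℤ) * ((Fintype.card F : ℤ) - 1) := by
  have h1 : ∀ a : F, ∑ b : F, quadraticChar F (x ^ 3 + a * x + b) *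
      quadraticChar F (x ^ 3 + a * x + b) = (Fintype.card F : ℤ) - 1 := by
    intro a
    rw [sum_shift (fun b => quadraticChar F b * quadraticChar F b), ← sum_chi_sq]
    refine sum_congr rfl fun b _ => ?_
    ring
  simp_rw [h1]
  rw [sum_const, card_univ, nsmul_eq_mul]

/-- the second moment -/
theorem sum_tr_sq (h6 : (6 : F) ≠ 0) : ∑ a : F, ∑ b : F, tr a b ^ 2 =
    (Fintype.card F : ℤ) ^ 2 * ((Fintype.card F : ℤ) - 1) := by
  have h1 : ∀ a b : F, tr a b ^ 2 = ∑ x : F, ∑ y : F, quadraticChar F (x ^ 3 + a * x + b) *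
      quadraticChar F (y ^ 3 + a * y + b) := by
    intro a b
    rw [tr_eq h6, neg_sq, sq, S, sum_mul_sum]
  simp_rw [h1]
  have h2 : ∑ a : F, ∑ b : F, ∑ x : F, ∑ y : F, quadraticChar F (x ^ 3 + a * x + b) *
      quadraticChar F (y ^ 3 + a * y + b) = ∑ x : F, ∑ y : F, ∑ a : F, ∑ b : F,
      quadraticChar F (x ^ 3 + a * x + b) * quadraticChar F (y ^ 3 + a * y + b) := by
    calc _ = ∑ a : F, ∑ x : F, ∑ b : F, ∑ y : F, quadraticChar F (x ^ 3 + a * x + b) *
          quadraticChar F (y ^ 3 + a * y + b) := sum_congr rfl fun a _ => sum_comm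
      _ = ∑ a : F, ∑ x : F, ∑ y : F, ∑ b : F, quadraticChar F (x ^ 3 + a * x + b) *
          quadraticChar F (y ^ 3 + a * y + b) :=
          sum_congr rfl fun a _ => sum_congr rfl fun x _ => sum_comm
      _ = ∑ x : F, ∑ a : F, ∑ y : F, ∑ b : F, quadraticChar F (x ^ 3 + a * x + b) *
          quadraticChar F (y ^ 3 + a * y + b) := sum_comm
      _ = _ := sum_congr rfl fun x _ => sum_comm
  rw [h2]
  have h3 : ∀ x : F, ∑ y : F, ∑ a : F, ∑ b : F, quadraticChar F (x ^ 3 + a * x + b) *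
      quadraticChar F (y ^ 3 + a * y + b) = (Fintype.card F : ℤ) * ((Fintype.card F : ℤ) - 1) := by
    intro x
    rw [sum_eq_single x, sum_one]
    · intro y _ hy
      exact sum_two h6 hy.symm
    · intro h
      exact absurd (mem_univ x) h
  simp_rw [h3]
  rw [sum_const, card_univ, nsmul_eq_mul]
  ring

/-! ### singular equations -/

theorem D_param (t : F) : D (-3 * t ^ 2) (2 * t ^ 3) = 0 := by
  unfold D
  ring

theorem param_inj (h6 : (6 : F) ≠ 0) {s t : F} (h1 : -3 * s ^ 2 = -3 * t ^ 2)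
    (h2 : 2 * s ^ 3 = 2 * t ^ 3) : s = t := by
  have h3 : s ^ 2 = t ^ 2 := mul_left_cancel₀ (neg_ne_zero.2 (three_ne h6)) h1
  have h4 : s ^ 3 = t ^ 3 := mul_left_cancel₀ (two_ne h6) h2
  by_cases ht : t = 0
  · rw [ht] at h3 ⊢
    simpa using h3
  · have ht2 : t ^ 2 ≠ 0 := pow_ne_zero 2 ht
    apply mul_left_cancel₀ ht2
    calc t ^ 2 * s = s ^ 2 * s := by rw [h3]
      _ = s ^ 3 := by ring
      _ = t ^ 3 := h4
      _ = t ^ 2 * t := by ring

theorem exists_param (h6 : (6 : F) ≠ 0) {a b : F} (h : D a b = 0) :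
    ∃ t : F, -3 * t ^ 2 = a ∧ 2 * t ^ 3 = b := by
  have h2 := two_ne h6
  have h3 := three_ne h6
  unfold D at h
  by_cases ha : a = 0
  · refine ⟨0, by simp [ha], ?_⟩
    rw [ha] at h
    have h27 : (27 : F) ≠ 0 := by
      have : (27 : F) = 3 ^ 3 := by norm_num
      rw [this]
      exact pow_ne_zero 3 h3
    have : b ^ 2 = 0 := by
      have h4 : (27 : F) * b ^ 2 = 0 := by linear_combination h
      exact (mul_eq_zero.1 h4).resolve_left h27
    have hb : b = 0 := by simpa using this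
    simp [hb]
  · refine ⟨-3 * b / (2 * a), ?_, ?_⟩
    · field_simp
      have h9 : (2 : F) ^ 2 = 4 := by norm_num
      linear_combination (-1 : F) * h
    · field_simp
      linear_combination (-b) * h

/-- sum over the singular equations -/
theorem sum_sing (h6 : (6 : F) ≠ 0) {M : Type*} [AddCommMonoid M] (g : F → F → M) :
    ∑ a : F, ∑ b : F, (if D a b = 0 then g a b else 0) =
      ∑ t : F, g (-3 * t ^ 2) (2 * t ^ 3) := by
  rw [← Finset.sum_product' univ univ (fun a b => if D a b = 0 then g a b else 0)]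
  rw [← sum_filter]
  symm
  refine sum_bij (fun t _ => (-3 * t ^ 2, 2 * t ^ 3)) ?_ ?_ ?_ ?_
  · intro t _
    simp only [mem_filter, mem_product, mem_univ, true_and, and_self]
    exact D_param t
  · intro s _ t _ h
    rw [Prod.mk.injEq] at h
    exact param_inj h6 h.1 h.2
  · intro p hp
    rw [mem_filter] at hp
    obtain ⟨t, h1, h2⟩ := exists_param h6 hp.2
    exact ⟨t, mem_univ _, Prod.ext h1 h2⟩
  · intro t _
    rfl

theorem S_param (h6 : (6 : F) ≠ 0) (t : F) :
    S (-3 * t ^ 2) (2 * t ^ 3) = - quadraticChar F (3 * t) := by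
  unfold S
  have h1 : ∀ x : F, quadraticChar F (x ^ 3 + -3 * t ^ 2 * x + 2 * t ^ 3) =
      quadraticChar F (x + 2 * t) - if x = t then quadraticChar F (3 * t) else 0 := by
    intro x
    have h2 : x ^ 3 + -3 * t ^ 2 * x + 2 * t ^ 3 = (x - t) ^ 2 * (x + 2 * t) := by ring
    rw [h2, map_mul]
    split_ifs with h
    · rw [h, sub_self, map_pow, quadraticChar_zero]
      have : t + 2 * t = 3 * t := by ring
      rw [this]
      ring
    · rw [quadraticChar_sq_one' (sub_ne_zero.2 h), one_mul, sub_zero]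
  simp_rw [h1]
  rw [sum_sub_distrib, sum_ite_eq' univ t, if_pos (mem_univ t)]
  have h3 : ∑ x : F, quadraticChar F (x + 2 * t) = 0 := by
    have : ∀ x : F, x + 2 * t = 2 * t + x := fun x => by ring
    simp_rw [this]
    rw [sum_shift, sum_chi h6]
  rw [h3]
  ring

theorem tr_sing (h6 : (6 : F) ≠ 0) {a b : F} (h : D a b = 0) : |(tr a b : ℝ)| ≤ 1 := by
  obtain ⟨t, rfl, rfl⟩ := exists_param h6 h
  rw [tr_eq h6, S_param h6, neg_neg]
  rcases quadraticChar_isQuadratic F (3 * t) with h | h | h <;> rw [h] <;> norm_num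

theorem count_sing (h6 : (6 : F) ≠ 0) :
    ∑ a : F, ∑ b : F, (if D a b = 0 then (1 : ℤ) else 0) = Fintype.card F := by
  rw [sum_sing h6 (fun _ _ => (1 : ℤ))]
  simp

theorem sum_sing_sq (h6 : (6 : F) ≠ 0) :
    ∑ a : F, ∑ b : F, (if D a b = 0 then tr a b ^ 2 else 0) = (Fintype.card F : ℤ) - 1 := by
  rw [sum_sing h6 (fun a b => tr a b ^ 2)]
  have h1 : ∀ t : F, tr (-3 * t ^ 2) (2 * t ^ 3) ^ 2 = quadraticChar F (3 * t) ^ 2 := by
    intro t
    rw [tr_eq h6, S_param h6, neg_neg]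
  simp_rw [h1]
  rw [sum_scale (fun t => quadraticChar F t ^ 2) (three_ne h6), sum_chi_sq]

theorem tr_zero_zero (h6 : (6 : F) ≠ 0) : tr (0 : F) 0 = 0 := by
  have h1 := S_param h6 (0 : F)
  rw [tr_eq h6]
  simp only [ne_eq, OfNat.ofNat_ne_zero, not_false_eq_true, zero_pow, mul_zero,
    quadraticChar_zero, neg_zero] at h1
  rw [h1, neg_zero]

end Pool.Agent.P8H18.MF
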