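import Pool.Agent.P8H18.MF.Cont

/-! The mean of the logarithms of the `L`-functions. -/

set_option autoImplicit false
set_option linter.unusedSectionVars false

namespace Pool.Agent.P8H18.MF

open Finset Filter Topology NumberField IsDedekindDomain
open Pool.Agent.H921R2.TatePole (nm two_le_nm nm_summable)
open Pool.Agent.H341R2 (card_v finite_v)

section local_log

theorem log_expand {r₀ : ℝ} (h1 : r₀ < 1) {z : ℂ} (hz : ‖z‖ ≤ r₀) :
    ‖-Complex.log (1 - z) - (z + z ^ 2 / 2 + z ^ 3 / 3)‖ ≤ (1 - r₀)⁻¹ * ‖z‖ ^ 4 := by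
  have hz1 : ‖z‖ < 1 := lt_of_le_of_lt hz h1
  have h := Complex.norm_log_sub_logTaylor_le 3 (z := -z) (by rwa [norm_neg])
  have e : Complex.logTaylor (3 + 1) (-z) = -(z + z ^ 2 / 2 + z ^ 3 / 3) := by
    simp [Complex.logTaylor_succ, Complex.logTaylor_zero]
    ring
  rw [e, norm_neg, ← sub_eq_add_neg, sub_neg_eq_add] at h
  have h2 : ‖-Complex.log (1 - z) - (z + z ^ 2 / 2 + z ^ 3 / 3)‖ =
      ‖Complex.log (1 - z) + (z + z ^ 2 / 2 + z ^ 3 / 3)‖ := by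
    rw [← norm_neg]
    congr 1
    ring
  rw [h2]
  refine h.trans ?_
  have h3 : (1 - ‖z‖)⁻¹ ≤ (1 - r₀)⁻¹ := inv_anti₀ (by linarith) (by linarith)
  have h4 : 0 ≤ (1 - r₀)⁻¹ := by
    rw [inv_nonneg]
    linarith
  have h5 : 0 ≤ ‖z‖ ^ 4 := by positivity
  have h6 : ‖z‖ ^ (3 + 1) * (1 - ‖z‖)⁻¹ ≤ (1 - r₀)⁻¹ * ‖z‖ ^ 4 := by
    rw [mul_comm]
    exact mul_le_mul_of_nonneg_right h3 h5
  have h7 : ‖z‖ ^ (3 + 1) * (1 - ‖z‖)⁻¹ / ((3 : ℕ) + 1) ≤ (1 - r₀)⁻¹ * ‖z‖ ^ 4 := by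
    rw [div_le_iff₀ (by norm_num)]
    push_cast
    nlinarith
  exact h7

theorem log_bound {r₀ : ℝ} (h0 : 0 < r₀) (h1 : r₀ < 1) {z : ℂ} (hz : ‖z‖ ≤ r₀) :
    ‖-Complex.log (1 - z)‖ ≤ (3 + (1 - r₀)⁻¹) * ‖z‖ := by
  have e := log_expand h1 hz
  have hz1 : ‖z‖ ≤ 1 := hz.trans h1.le
  have h4 : 0 ≤ (1 - r₀)⁻¹ := by
    rw [inv_nonneg]
    linarith
  have h5 : -Complex.log (1 - z) = (-Complex.log (1 - z) - (z + z ^ 2 / 2 + z ^ 3 / 3)) +
      (z + z ^ 2 / 2 + z ^ 3 / 3) := by ring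
  rw [h5]
  refine (norm_add_le _ _).trans ?_
  have h6 : ‖z + z ^ 2 / 2 + z ^ 3 / 3‖ ≤ 3 * ‖z‖ := by
    refine (norm_add_le _ _).trans ?_
    have e1 := norm_add_le z (z ^ 2 / 2)
    have e2 : ‖z ^ 2 / 2‖ ≤ ‖z‖ := by
      rw [norm_div, norm_pow]
      simp only [Complex.norm_ofNat]
      nlinarith [norm_nonneg z]
    have e3 : ‖z ^ 3 / 3‖ ≤ ‖z‖ := by
      rw [norm_div, norm_pow]
      simp only [Complex.norm_ofNat]
      have : ‖z‖ ^ 3 ≤ ‖z‖ := by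
        calc ‖z‖ ^ 3 ≤ ‖z‖ ^ 1 := pow_le_pow_of_le_one (norm_nonneg _) hz1 (by norm_num)
          _ = ‖z‖ := pow_one _
      have := norm_nonneg z
      linarith
    linarith
  have h7 : (1 - r₀)⁻¹ * ‖z‖ ^ 4 ≤ (1 - r₀)⁻¹ * ‖z‖ := by
    refine mul_le_mul_of_nonneg_left ?_ h4
    calc ‖z‖ ^ 4 ≤ ‖z‖ ^ 1 := pow_le_pow_of_le_one (norm_nonneg _) hz1 (by norm_num)
      _ = ‖z‖ := pow_one _
  linarith

variable {F : Type*} [Field F] [Fintype F] [DecidableEq F]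

/-- the logarithm of the local factor -/
noncomputable def ll (a b : F) (X : ℂ) : ℂ := -Complex.log (lpol a b X)

theorem ll_eq (h6 : (6 : F) ≠ 0) (a b : F) {X : ℂ} (hX : sz F X < 1) :
    ll a b X = -Complex.log (1 - r1 a b * X) + -Complex.log (1 - r2 a b * X) := by
  unfold ll
  rw [lpol_eq h6, log_mul_small ((z_le h6 a b X).trans_lt hX) ((w_le h6 a b X).trans_lt hX)]
  ring

theorem ll_bound (h6 : (6 : F) ≠ 0) (a b : F) {r₀ : ℝ} (h0 : 0 < r₀) (h1 : r₀ < 1) {X : ℂ}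
    (hX : sz F X ≤ r₀) : ‖ll a b X‖ ≤ 2 * (3 + (1 - r₀)⁻¹) * sz F X := by
  rw [ll_eq h6 a b (hX.trans_lt h1)]
  have h4 : 0 ≤ 3 + (1 - r₀)⁻¹ := by
    have : 0 ≤ (1 - r₀)⁻¹ := by
      rw [inv_nonneg]
      linarith
    linarith
  have hz := z_le h6 a b X
  have hw := w_le h6 a b X
  have e1 := log_bound h0 h1 (hz.trans hX)
  have e2 := log_bound h0 h1 (hw.trans hX)
  refine (norm_add_le _ _).trans ?_
  have e3 := mul_le_mul_of_nonneg_left hz h4
  have e4 := mul_le_mul_of_nonneg_left hw h4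
  linarith

/-- the mean of the logarithms -/
noncomputable def lam (F : Type*) [Field F] [Fintype F] [DecidableEq F] (X : ℂ) : ℂ :=
  (∑ a : F, ∑ b : F, ll a b X) / (Fintype.card F : ℂ) ^ 2

theorem sum_poly_log (h6 : (6 : F) ≠ 0) (X : ℂ) :
    ∑ a : F, ∑ b : F, ((tr a b * X) + ((tr a b * X) ^ 2 -
      2 * (ep (D a b = 0) * Fintype.card F * X ^ 2)) / 2 + ((tr a b * X) ^ 3 -
      3 * (ep (D a b = 0) * Fintype.card F * X ^ 2 * (tr a b * X))) / 3) =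
    (Fintype.card F : ℂ) ^ 2 * (-(1 / 2) * ((Fintype.card F - 1) * X ^ 2)) := by
  have hodd := sum_odd (F := F) h6 (fun n P => (n * X) + (n * X) ^ 3 / 3 -
    (ep P * Fintype.card F * X ^ 2 * (n * X))) (fun n P => by push_cast; ring)
  have h1 : ∀ a b : F, ((tr a b * X) + ((tr a b * X) ^ 2 -
      2 * (ep (D a b = 0) * Fintype.card F * X ^ 2)) / 2 + ((tr a b * X) ^ 3 -
      3 * (ep (D a b = 0) * Fintype.card F * X ^ 2 * (tr a b * X))) / 3) =
      ((tr a b * X) + (tr a b * X) ^ 3 / 3 -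
        (ep (D a b = 0) * Fintype.card F * X ^ 2 * (tr a b * X))) +
      ((tr a b : ℂ) ^ 2 * (X ^ 2 / 2) - ep (D a b = 0) * (Fintype.card F * X ^ 2)) := by
    intro a b
    ring
  simp_rw [h1]
  rw [sum_congr rfl fun a _ => sum_add_distrib, sum_add_distrib, hodd, zero_add]
  simp only [sum_sub_distrib, ← sum_mul, sum_sq h6, sum_ep h6]
  ring

/-- **expansion of the mean of the logarithms** -/
theorem lam_expand {r₀ : ℝ} (h1 : r₀ < 1) (h6 : (6 : F) ≠ 0) {X : ℂ} (hX : sz F X ≤ r₀) :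
    ‖lam F X - (-(1 / 2) * ((Fintype.card F - 1) * X ^ 2))‖ ≤ 2 * (1 - r₀)⁻¹ * sz F X ^ 4 := by
  have h4 : 0 ≤ (1 - r₀)⁻¹ := by
    rw [inv_nonneg]
    linarith
  have h2 : lam F X - (-(1 / 2) * ((Fintype.card F - 1) * X ^ 2)) =
      (∑ a : F, ∑ b : F, (ll a b X - ((tr a b * X) + ((tr a b * X) ^ 2 -
      2 * (ep (D a b = 0) * Fintype.card F * X ^ 2)) / 2 + ((tr a b * X) ^ 3 -
      3 * (ep (D a b = 0) * Fintype.card F * X ^ 2 * (tr a b * X))) / 3))) /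
        (Fintype.card F : ℂ) ^ 2 := by
    simp_rw [sum_sub_distrib]
    rw [sum_poly_log h6, sub_div, mul_div_cancel_left₀ _ card_ne]
    rfl
  rw [h2, norm_div, div_le_iff₀ (by
    rw [norm_pos_iff]
    exact card_ne)]
  refine (norm_sum_le _ _).trans ((sum_le_sum fun a _ => norm_sum_le _ _).trans ?_)
  have h3 : ∀ a b : F, ‖ll a b X - ((tr a b * X) + ((tr a b * X) ^ 2 -
      2 * (ep (D a b = 0) * Fintype.card F * X ^ 2)) / 2 + ((tr a b * X) ^ 3 -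
      3 * (ep (D a b = 0) * Fintype.card F * X ^ 2 * (tr a b * X))) / 3)‖ ≤
      2 * (1 - r₀)⁻¹ * sz F X ^ 4 := by
    intro a b
    rw [ll_eq h6 a b (hX.trans_lt h1)]
    set z := r1 a b * X with hz
    set w := r2 a b * X with hw
    have e1 : (tr a b : ℂ) * X = z + w := by rw [hz, hw, ← add_mul, r_add]
    have e2 : ep (D a b = 0) * Fintype.card F * X ^ 2 = z * w := by
      rw [← r_mul h6]
      ring
    rw [e1, e2]
    have hz1 := z_le h6 a b X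
    have hw1 := w_le h6 a b X
    have f1 := log_expand h1 (hz1.trans hX)
    have f2 := log_expand h1 (hw1.trans hX)
    have e3 : -Complex.log (1 - z) + -Complex.log (1 - w) - ((z + w) + ((z + w) ^ 2 -
        2 * (z * w)) / 2 + ((z + w) ^ 3 - 3 * (z * w * (z + w))) / 3) =
        (-Complex.log (1 - z) - (z + z ^ 2 / 2 + z ^ 3 / 3)) +
        (-Complex.log (1 - w) - (w + w ^ 2 / 2 + w ^ 3 / 3)) := by ring
    rw [e3]
    refine (norm_add_le _ _).trans ?_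
    have g1 : ‖z‖ ^ 4 ≤ sz F X ^ 4 := by gcongr
    have g2 : ‖w‖ ^ 4 ≤ sz F X ^ 4 := by gcongr
    have g3 := mul_le_mul_of_nonneg_left g1 h4
    have g4 := mul_le_mul_of_nonneg_left g2 h4
    linarith
  refine (sum_le_sum fun a _ => sum_le_sum fun b _ => h3 a b).trans (le_of_eq ?_)
  rw [sum_const, sum_const, card_univ, nsmul_eq_mul, nsmul_eq_mul, norm_pow, Complex.norm_natCast]
  ring

theorem ll_diff (h6 : (6 : F) ≠ 0) (a b : F) {X : ℂ} (hX : sz F X < 1) :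
    DifferentiableAt ℂ (ll a b) X := by
  have hc : Continuous fun Y : ℂ => sz F Y := continuous_const.mul continuous_norm
  have hev : ∀ᶠ Y in nhds X, sz F Y < 1 := hc.continuousAt.eventually_lt_const hX
  have hsl : ∀ z : ℂ, ‖z‖ < 1 → 1 - z ∈ Complex.slitPlane := by
    intro z hz
    have := Complex.mem_slitPlane_of_norm_lt_one (z := -z) (by rwa [norm_neg])
    rwa [← sub_eq_add_neg] at this
  have h1 : DifferentiableAt ℂ (fun Y => -Complex.log (1 - r1 a b * Y) +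
      -Complex.log (1 - r2 a b * Y)) X := by
    refine DifferentiableAt.add (DifferentiableAt.neg ?_) (DifferentiableAt.neg ?_)
    · exact DifferentiableAt.clog (by fun_prop) (hsl _ ((z_le h6 a b X).trans_lt hX))
    · exact DifferentiableAt.clog (by fun_prop) (hsl _ ((w_le h6 a b X).trans_lt hX))
  refine h1.congr_of_eventuallyEq ?_
  filter_upwards [hev] with Y hY
  exact ll_eq h6 a b hY

end local_log

end Pool.Agent.P8H18.MF
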