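import Pool.Agent.P8H18.MF.Tail

/-! Means of infinite products over the primes, over pairs `(a, b)` minimal at all primes. -/

set_option autoImplicit false
set_option linter.unusedSectionVars false

namespace Pool.Agent.P8H18.MF

open Finset Filter Topology NumberField IsDedekindDomain
open Pool.Agent.H921R2.TatePole (nm two_le_nm nm_summable)

section prod

variable {ι : Type*}

theorem norm_prod_le_exp (a : ι → ℂ) (u : ι → ℝ) (ha : ∀ i, ‖a i - 1‖ ≤ u i) (S : Finset ι) :
    ‖∏ i ∈ S, a i‖ ≤ Real.exp (∑ i ∈ S, u i) := by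
  rw [norm_prod, Real.exp_sum]
  refine prod_le_prod (fun _ _ => norm_nonneg _) fun i _ => ?_
  have h1 : ‖a i‖ ≤ ‖a i - 1‖ + 1 := by
    have := norm_add_le (a i - 1) 1
    rwa [sub_add_cancel, norm_one] at this
  have h2 := Real.add_one_le_exp (u i)
  linarith [ha i]

theorem multipliable_of (a : ι → ℂ) (u : ι → ℝ) (hu : Summable u) (ha : ∀ i, ‖a i - 1‖ ≤ u i) :
    Multipliable a := by
  have h := multipliable_one_add_of_summable (f := fun i => a i - 1)
    (Summable.of_nonneg_of_le (fun _ => norm_nonneg _) ha hu)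
  simpa using h

theorem prod_tail (a : ι → ℂ) (u : ι → ℝ) (hu : Summable u) (ha : ∀ i, ‖a i - 1‖ ≤ u i)
    (S : Finset ι) : ‖∏' i, a i - ∏ i ∈ S, a i‖ ≤
      Real.exp (∑' i, u i) * (Real.exp (∑' i, u i - ∑ i ∈ S, u i) - 1) := by
  classical
  have hu0 : ∀ i, 0 ≤ u i := fun i => (norm_nonneg _).trans (ha i)
  have hP := (multipliable_of a u hu ha).hasProd
  have h1 : Tendsto (fun T : Finset ι => ‖∏ i ∈ T, a i - ∏ i ∈ S, a i‖) atTop
      (𝓝 ‖∏' i, a i - ∏ i ∈ S, a i‖) := (hP.sub_const _).norm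
  refine le_of_tendsto h1 ?_
  filter_upwards [eventually_ge_atTop S] with T hT
  have h2 : ∏ i ∈ T, a i = (∏ i ∈ S, a i) * ∏ i ∈ T \ S, a i := by
    rw [mul_comm, prod_sdiff hT]
  have h3 : ∏ i ∈ T, a i - ∏ i ∈ S, a i = (∏ i ∈ S, a i) * (∏ i ∈ T \ S, a i - 1) := by
    rw [h2]
    ring
  rw [h3, norm_mul]
  have h4 := (T \ S).norm_prod_one_add_sub_one_le fun i => a i - 1
  simp only [add_sub_cancel] at h4
  have h5 : ∑ i ∈ T \ S, ‖a i - 1‖ ≤ ∑' i, u i - ∑ i ∈ S, u i := by
    have h6 : ∑ i ∈ T \ S, ‖a i - 1‖ ≤ ∑ i ∈ T \ S, u i := sum_le_sum fun i _ => ha i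
    have h7 : ∑ i ∈ T \ S, u i + ∑ i ∈ S, u i = ∑ i ∈ T, u i := sum_sdiff hT
    have h8 : ∑ i ∈ T, u i ≤ ∑' i, u i := hu.sum_le_tsum T fun i _ => hu0 i
    linarith
  have h6 := norm_prod_le_exp a u ha S
  have h7 : ∑ i ∈ S, u i ≤ ∑' i, u i := hu.sum_le_tsum S fun i _ => hu0 i
  refine mul_le_mul (h6.trans (Real.exp_le_exp.2 h7)) (h4.trans ?_) (norm_nonneg _)
    (Real.exp_pos _).le
  have := Real.exp_le_exp.2 h5
  linarith

/-- the tails are eventually small -/
theorem tail_small (u : ι → ℝ) (hu : Summable u) {ε : ℝ} (hε : 0 < ε) :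
    ∀ᶠ S : Finset ι in atTop,
      Real.exp (∑' i, u i) * (Real.exp (∑' i, u i - ∑ i ∈ S, u i) - 1) < ε := by
  have h1 : Tendsto (fun S : Finset ι => Real.exp (∑' i, u i) *
      (Real.exp (∑' i, u i - ∑ i ∈ S, u i) - 1)) atTop
      (𝓝 (Real.exp (∑' i, u i) * (Real.exp (∑' i, u i - ∑' i, u i) - 1))) := by
    refine tendsto_const_nhds.mul (Tendsto.sub_const ?_ 1)
    exact (Real.continuous_exp.tendsto _).comp (tendsto_const_nhds.sub hu.hasSum)
  rw [sub_self, Real.exp_zero, sub_self, mul_zero] at h1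
  exact h1.eventually (gt_mem_nhds hε)

end prod

section frac

variable {R : Type} [CommRing R] {ι : Type} [Fintype ι] [DecidableEq ι]
  {β : Module.Basis ι ℤ R}

open Classical in
/-- the proportion of the pairs with the property `P` -/
noncomputable def fr (β : Module.Basis ι ℤ R) (P : R → R → Prop) (N : ℕ × ℕ) : ℝ :=
  (((box β N.1) ×ˢ (box β N.2)).filter fun p => P p.1 p.2).card /
    ((box β N.1).card * (box β N.2).card)

open Classical in
theorem fr_eq (P : R → R → Prop) (N : ℕ × ℕ) :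
    (fr β P N : ℂ) = mean2 β (fun a b => if P a b then 1 else 0) N := by
  unfold fr mean2
  push_cast
  congr 1
  rw [← sum_product' (f := fun a b => if P a b then (1 : ℂ) else 0), ← sum_filter, sum_const,
    nsmul_one]

theorem mean2_diff (f g : R → R → ℂ) (P Q : R → R → Prop) {η B : ℝ} (hη : 0 ≤ η) (hB : 0 ≤ B)
    (h : ∀ a b, ¬ P a b → ¬ Q a b → ‖f a b - g a b‖ ≤ η)
    (h' : ∀ a b, ‖f a b - g a b‖ ≤ η + B) (N : ℕ × ℕ) :
    ‖mean2 β f N - mean2 β g N‖ ≤ η + B * fr β P N + B * fr β Q N := by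
  classical
  have h0 : (0 : ℝ) < (box β N.1).card * (box β N.2).card := by
    have h1 := card_box_pos β N.1
    have h2 := card_box_pos β N.2
    positivity
  have e1 : mean2 β f N - mean2 β g N = (∑ p ∈ (box β N.1) ×ˢ (box β N.2),
      (f p.1 p.2 - g p.1 p.2)) / ((box β N.1).card * (box β N.2).card) := by
    unfold mean2
    rw [← sub_div, sum_product, ← sum_sub_distrib]
    simp_rw [sum_sub_distrib]
  rw [e1, norm_div, norm_mul, Complex.norm_natCast, Complex.norm_natCast, div_le_iff₀ h0]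
  refine (norm_sum_le _ _).trans ?_
  have e2 : ∀ p ∈ (box β N.1) ×ˢ (box β N.2), ‖f p.1 p.2 - g p.1 p.2‖ ≤
      η + (B * (if P p.1 p.2 then 1 else 0) + B * (if Q p.1 p.2 then 1 else 0)) := by
    intro p _
    by_cases hP : P p.1 p.2 <;> by_cases hQ : Q p.1 p.2
    · rw [if_pos hP, if_pos hQ]
      linarith [h' p.1 p.2]
    · rw [if_pos hP, if_neg hQ]
      linarith [h' p.1 p.2]
    · rw [if_neg hP, if_pos hQ]
      linarith [h' p.1 p.2]
    · rw [if_neg hP, if_neg hQ]
      linarith [h p.1 p.2 hP hQ]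
  refine (sum_le_sum e2).trans (le_of_eq ?_)
  rw [sum_add_distrib, sum_add_distrib, ← mul_sum, ← mul_sum, sum_const, card_product]
  simp only [← sum_filter, sum_const, nsmul_eq_mul, mul_one]
  unfold fr
  have hX : ((box β N.1).card : ℝ) ≠ 0 := by exact_mod_cast (card_box_pos β N.1).ne'
  have hY : ((box β N.2).card : ℝ) ≠ 0 := by exact_mod_cast (card_box_pos β N.2).ne'
  push_cast
  field_simp
  ring

end frac

variable {K : Type} [Field K] [NumberField K] {ι : Type} [Fintype ι] [DecidableEq ι]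

/-- the local condition at `v`: the equation `y² = x³ + a x + b` is minimal at `v` if `v ∤ 6`, and, if
`c` holds, `v ∣ a` and `v` divides `b` exactly once if `v ∣ 6` -/
def MinAt (c : Prop) (v : HeightOneSpectrum (𝓞 K)) (a b : 𝓞 K) : Prop :=
  ((6 : 𝓞 K) ∈ v.asIdeal → c → a ∈ v.asIdeal ∧ b ∈ v.asIdeal ∧ b ∉ v.asIdeal ^ 2) ∧
    ((6 : 𝓞 K) ∉ v.asIdeal → ¬ (a ∈ v.asIdeal ^ 4 ∧ b ∈ v.asIdeal ^ 6))

/-- the pairs `(a, b)` -/
def Red (c : Prop) (a b : 𝓞 K) : Prop := 4 * a ^ 3 + 27 * b ^ 2 ≠ 0 ∧ ∀ v, MinAt c v a b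

theorem one_div_card_tendsto (β : Module.Basis ι ℤ (𝓞 K)) :
    Tendsto (fun X : ℕ => 1 / ((box β X).card : ℝ)) atTop (𝓝 0) := by
  refine Tendsto.const_div_atTop ?_ _
  refine tendsto_natCast_atTop_atTop.comp ?_
  refine tendsto_atTop_mono (fun X => ?_) tendsto_id
  rw [card_box]
  have h := index_pos β
  calc X ≤ 2 * X + 1 := by omega
    _ ≤ (2 * X + 1) ^ Fintype.card ι := Nat.le_self_pow h.ne' _

/-- the proportion of the singular equations -/
theorem fr_sing (β : Module.Basis ι ℤ (𝓞 K)) :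
    Tendsto (fr β fun a b => 4 * a ^ 3 + 27 * b ^ 2 = 0) atTop (𝓝 0) := by
  classical
  have h1 : Tendsto (fun N : ℕ × ℕ => 2 * (1 / ((box β N.2).card : ℝ))) atTop (𝓝 0) := by
    have := ((one_div_card_tendsto β).comp tendsto_snd_atTop).const_mul 2
    rwa [mul_zero] at this
  refine squeeze_zero (fun N => by unfold fr; positivity) (fun N => ?_) h1
  have hX : (0 : ℝ) < (box β N.1).card := by exact_mod_cast card_box_pos β N.1
  have hY : (0 : ℝ) < (box β N.2).card := by exact_mod_cast card_box_pos β N.2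
  have hsub : ∀ a : 𝓞 K, ((box β N.2).filter fun b => 4 * a ^ 3 + 27 * b ^ 2 = 0).card ≤ 2 := by
    intro a
    by_cases hne : ((box β N.2).filter fun b => 4 * a ^ 3 + 27 * b ^ 2 = 0).Nonempty
    · obtain ⟨b₀, hb₀⟩ := hne
      rw [mem_filter] at hb₀
      have : ((box β N.2).filter fun b => 4 * a ^ 3 + 27 * b ^ 2 = 0) ⊆ {b₀, -b₀} := by
        intro b hb
        rw [mem_filter] at hb
        have h2 : (27 : 𝓞 K) * ((b - b₀) * (b + b₀)) = 0 := by linear_combination hb.2 - hb₀.2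
        have h3 := (mul_eq_zero.1 h2).resolve_left (by norm_num)
        rw [mem_insert, mem_singleton]
        rcases mul_eq_zero.1 h3 with h4 | h4
        · left; exact sub_eq_zero.1 h4
        · right; exact eq_neg_of_add_eq_zero_left h4
      exact (card_le_card this).trans (card_le_two)
    · rw [not_nonempty_iff_eq_empty] at hne
      rw [hne]
      simp
  have hcard : (((box β N.1) ×ˢ (box β N.2)).filter fun p =>
      4 * p.1 ^ 3 + 27 * p.2 ^ 2 = 0).card ≤ 2 * (box β N.1).card := by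
    rw [card_filter, sum_product]
    simp_rw [← card_filter]
    refine (sum_le_sum fun a _ => hsub a).trans (le_of_eq ?_)
    rw [sum_const, smul_eq_mul, mul_comm]
  unfold fr
  rw [div_le_iff₀ (by positivity)]
  have e : 2 * (1 / ((box β N.2).card : ℝ)) * ((box β N.1).card * (box β N.2).card) =
      2 * (box β N.1).card := by
    field_simp
  rw [e]
  exact_mod_cast hcard

/-- the proportion of the pairs with a bad prime outside `S` -/
theorem fr_bad (β : Module.Basis ι ℤ (𝓞 K)) : ∃ C : ℝ, 0 ≤ C ∧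
    ∀ (S : Finset (HeightOneSpectrum (𝓞 K))) (N : ℕ × ℕ), 1 ≤ N.1 → 1 ≤ N.2 →
      fr β (BadAt S) N ≤ C * tau S + (1 / ((box β N.1).card : ℝ) + 1 / ((box β N.2).card : ℝ)) := by
  classical
  obtain ⟨C, hC, h⟩ := tail_bound β
  refine ⟨C, hC, fun S N h1 h2 => ?_⟩
  have hX : (0 : ℝ) < (box β N.1).card := by exact_mod_cast card_box_pos β N.1
  have hY : (0 : ℝ) < (box β N.2).card := by exact_mod_cast card_box_pos β N.2
  unfold fr
  rw [div_le_iff₀ (by positivity)]
  refine (h S N.1 N.2 h1 h2).trans (le_of_eq ?_)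
  field_simp
  ring

/-- **Mean of an infinite product.** -/
theorem hasM_tprod (c : Prop) (β : Module.Basis ι ℤ (𝓞 K))
    (ψ : HeightOneSpectrum (𝓞 K) → 𝓞 K → 𝓞 K → ℂ) (u : HeightOneSpectrum (𝓞 K) → ℝ)
    (hu : Summable u) (hψ : ∀ v a b, ‖ψ v a b - 1‖ ≤ u v)
    (E : HeightOneSpectrum (𝓞 K) → ℂ) (hE : Multipliable E)
    (hfin : ∀ S : Finset (HeightOneSpectrum (𝓞 K)), HasM β (fun a b => ∏ v ∈ S,
      (by classical exact if MinAt c v a b then ψ v a b else 0)) (∏ v ∈ S, E v)) :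
    HasM β (fun a b => by classical exact if Red c a b then ∏' v, ψ v a b else 0) (∏' v, E v) := by
  classical
  set B : ℝ := Real.exp (∑' v, u v) with hB
  have hu0 : ∀ v, 0 ≤ u v := fun v => (norm_nonneg _).trans (hψ v 0 0)
  have hB1 : 1 ≤ B := Real.one_le_exp (tsum_nonneg hu0)
  have hB0 : 0 < B := by positivity
  obtain ⟨C, hC, hbad⟩ := fr_bad β
  unfold HasM
  rw [Metric.tendsto_atTop']
  by_contra hcon
  push Not at hcon
  obtain ⟨ε, hε, hcon⟩ := hcon
  -- choice of `S`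
  have e1 := tail_small u hu (by positivity : (0 : ℝ) < ε / 8)
  have e2 : ∀ᶠ S : Finset (HeightOneSpectrum (𝓞 K)) in atTop, 2 * B * (C * tau S) < ε / 8 := by
    have h1 : Tendsto (fun S : Finset (HeightOneSpectrum (𝓞 K)) => 2 * B * (C * tau S)) atTop
        (𝓝 (2 * B * (C * 0))) := (tau_tendsto.const_mul C).const_mul _
    rw [mul_zero, mul_zero] at h1
    exact h1.eventually (gt_mem_nhds (by positivity))
  have e3 : ∀ᶠ S : Finset (HeightOneSpectrum (𝓞 K)) in atTop,
      ‖∏ v ∈ S, E v - ∏' v, E v‖ < ε / 8 := by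
    have h1 : Tendsto (fun S : Finset (HeightOneSpectrum (𝓞 K)) => ∏ v ∈ S, E v - ∏' v, E v) atTop
        (𝓝 (∏' v, E v - ∏' v, E v)) := hE.hasProd.sub_const _
    rw [sub_self] at h1
    have h2 := h1.norm
    rw [norm_zero] at h2
    exact h2.eventually (gt_mem_nhds (by positivity))
  have h6 : (6 : 𝓞 K) ≠ 0 := by norm_num
  have e4 : ∀ᶠ S : Finset (HeightOneSpectrum (𝓞 K)) in atTop,
      (Pool.Agent.H341R2.EC.finite_mem (K := K) h6).toFinset ⊆ S := eventually_ge_atTop _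
  obtain ⟨S, hS1, hS2, hS3, hS4⟩ := (e1.and (e2.and (e3.and e4))).exists
  -- eventually in `N`
  have f1 : ∀ᶠ N : ℕ × ℕ in atTop, ‖mean2 β (fun a b => ∏ v ∈ S,
      (if MinAt c v a b then ψ v a b else 0)) N - ∏ v ∈ S, E v‖ < ε / 8 := by
    have h1 := (hfin S).sub_const (∏ v ∈ S, E v)
    rw [sub_self] at h1
    have h2 := h1.norm
    rw [norm_zero] at h2
    exact h2.eventually (gt_mem_nhds (by positivity))
  have f2 : ∀ᶠ N : ℕ × ℕ in atTop, 2 * B * (1 / ((box β N.1).card : ℝ) +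
      1 / ((box β N.2).card : ℝ)) < ε / 8 := by
    have h1 := ((((one_div_card_tendsto β).comp tendsto_fst_atTop).add
      ((one_div_card_tendsto β).comp tendsto_snd_atTop)).const_mul (2 * B))
    rw [add_zero, mul_zero] at h1
    exact h1.eventually (gt_mem_nhds (by positivity))
  have f3 : ∀ᶠ N : ℕ × ℕ in atTop, 2 * B * fr β (fun a b => 4 * a ^ 3 + 27 * b ^ 2 = 0) N <
      ε / 8 := by
    have h1 := (fr_sing β).const_mul (2 * B)
    rw [mul_zero] at h1
    exact h1.eventually (gt_mem_nhds (by positivity))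
  have f4 : ∀ᶠ N : ℕ × ℕ in atTop, 1 ≤ N.1 ∧ 1 ≤ N.2 :=
    (tendsto_fst_atTop.eventually (eventually_ge_atTop 1)).and
      (tendsto_snd_atTop.eventually (eventually_ge_atTop 1))
  obtain ⟨N₀, hN₀⟩ := eventually_atTop.1 (f1.and (f2.and (f3.and f4)))
  obtain ⟨N, hN, hbadN⟩ := hcon N₀
  obtain ⟨g1, g2, g3, g4, g5⟩ := hN₀ N hN.le
  have hη : 0 ≤ ε / 8 := by positivity
  have hS : ∀ a b, ‖∏' v, ψ v a b - ∏ v ∈ S, ψ v a b‖ ≤ ε / 8 := fun a b =>
    (prod_tail (fun v => ψ v a b) u hu (fun v => hψ v a b) S).trans hS1.le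
  have hBS : ∀ a b, ‖∏ v ∈ S, (if MinAt c v a b then ψ v a b else 0)‖ ≤ B := by
    intro a b
    by_cases hall : ∀ v ∈ S, MinAt c v a b
    · rw [prod_congr rfl fun v hv => if_pos (hall v hv)]
      refine (norm_prod_le_exp (fun v => ψ v a b) u (fun v => hψ v a b) S).trans ?_
      exact Real.exp_le_exp.2 (hu.sum_le_tsum S fun v _ => hu0 v)
    · push Not at hall
      obtain ⟨v, hv, hv2⟩ := hall
      rw [prod_eq_zero hv (if_neg hv2), norm_zero]
      exact hB0.le
  have hBT : ∀ a b, ‖(if Red c a b then ∏' v, ψ v a b else 0 : ℂ)‖ ≤ ε / 8 + B := by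
    intro a b
    split_ifs
    · have h1 : ∏' v, ψ v a b = (∏' v, ψ v a b - ∏ v ∈ S, ψ v a b) + ∏ v ∈ S, ψ v a b := by ring
      rw [h1]
      refine (norm_add_le _ _).trans (add_le_add (hS a b) ?_)
      refine (norm_prod_le_exp (fun v => ψ v a b) u (fun v => hψ v a b) S).trans ?_
      exact Real.exp_le_exp.2 (hu.sum_le_tsum S fun v _ => hu0 v)
    · rw [norm_zero]
      positivity
  have key := mean2_diff (β := β) (fun a b => if Red c a b then ∏' v, ψ v a b else 0)
    (fun a b => ∏ v ∈ S, (if MinAt c v a b then ψ v a b else 0)) (BadAt S)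
    (fun a b => 4 * a ^ 3 + 27 * b ^ 2 = 0) (η := ε / 8) (B := 2 * B) hη (by positivity) (by
      intro a b hP hQ
      by_cases hr : Red c a b
      · simp only [if_pos hr]
        rw [prod_congr rfl fun v _ => if_pos (hr.2 v)]
        exact hS a b
      · simp only [if_neg hr]
        have h1 : ¬ ∀ v, MinAt c v a b := fun h => hr ⟨hQ, h⟩
        push Not at h1
        obtain ⟨v, hv⟩ := h1
        have hvS : v ∈ S := by
          by_contra h2
          apply hP
          have h7 : (6 : 𝓞 K) ∉ v.asIdeal := by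
            intro h8
            exact h2 (hS4 ((Set.Finite.mem_toFinset _).2 h8))
          have h9 : a ∈ v.asIdeal ^ 4 ∧ b ∈ v.asIdeal ^ 6 := by
            by_contra h10
            exact hv ⟨fun h8 => absurd h8 h7, fun _ => h10⟩
          exact ⟨v, h2, h9.1, h9.2⟩
        rw [prod_eq_zero hvS (if_neg hv), sub_zero, norm_zero]
        exact hη) (by
      intro a b
      refine (norm_sub_le _ _).trans ?_
      linarith [hBT a b, hBS a b]) N
  have hb := hbad S N g4 g5
  have hb2 : 2 * B * fr β (BadAt S) N ≤ 2 * B * (C * tau S) +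
      2 * B * (1 / ((box β N.1).card : ℝ) + 1 / ((box β N.2).card : ℝ)) := by
    rw [← mul_add]
    exact mul_le_mul_of_nonneg_left hb (by positivity)
  rw [dist_eq_norm] at hbadN
  have hfinal : ‖mean2 β (fun a b => if Red c a b then ∏' v, ψ v a b else 0) N - ∏' v, E v‖ ≤
      ‖mean2 β (fun a b => if Red c a b then ∏' v, ψ v a b else 0) N -
        mean2 β (fun a b => ∏ v ∈ S, (if MinAt c v a b then ψ v a b else 0)) N‖ +
      (‖mean2 β (fun a b => ∏ v ∈ S, (if MinAt c v a b then ψ v a b else 0)) N - ∏ v ∈ S, E v‖ +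
        ‖∏ v ∈ S, E v - ∏' v, E v‖) := by
    have h1 : mean2 β (fun a b => if Red c a b then ∏' v, ψ v a b else 0) N - ∏' v, E v =
        (mean2 β (fun a b => if Red c a b then ∏' v, ψ v a b else 0) N -
          mean2 β (fun a b => ∏ v ∈ S, (if MinAt c v a b then ψ v a b else 0)) N) +
        ((mean2 β (fun a b => ∏ v ∈ S, (if MinAt c v a b then ψ v a b else 0)) N - ∏ v ∈ S, E v) +
          (∏ v ∈ S, E v - ∏' v, E v)) := by ring
    rw [h1]
    exact (norm_add_le _ _).trans (add_le_add le_rfl (norm_add_le _ _))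
  linarith

end Pool.Agent.P8H18.MF
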