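import Pool.Agent.P8H18.MF.Mean
import Pool.Agent.P8H18.MF.Loc

/-! Minimal models of `y² = x³ + a x + b`. -/

set_option autoImplicit false
set_option linter.unusedSectionVars false

namespace Pool.Agent.P8H18.MF

open Finset NumberField IsDedekindDomain
open Pool.Agent.H341R2.EC (IsModel IsMinAt red aff mk_ne)

section field

variable {k : Type*} [Field k]

/-- the short Weierstrass equation -/
def sw {R : Type*} [CommRing R] (a b : R) : WeierstrassCurve R where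
  a₁ := 0
  a₂ := 0
  a₃ := 0
  a₄ := a
  a₆ := b

theorem aff_sw (a b : k) : aff (sw a b) = pts a b := by
  unfold aff pts sw
  apply Nat.card_congr
  refine Equiv.subtypeEquivRight fun p => ?_
  simp

/-- a change of variables does not change the number of points -/
theorem aff_of_change (V : WeierstrassCurve k) (a b u r s t : k) (hu : u ≠ 0)
    (h1 : u * V.a₁ = 2 * s) (h2 : u ^ 2 * V.a₂ = 3 * r - s ^ 2) (h3 : u ^ 3 * V.a₃ = 2 * t)
    (h4 : u ^ 4 * V.a₄ = a + 3 * r ^ 2 - 2 * s * t)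
    (h6 : u ^ 6 * V.a₆ = b + r * a + r ^ 3 - t ^ 2) : aff V = pts a b := by
  have key : ∀ x y : k, u ^ 6 * (y ^ 2 + V.a₁ * x * y + V.a₃ * y -
      (x ^ 3 + V.a₂ * x ^ 2 + V.a₄ * x + V.a₆)) =
      (u ^ 3 * y + s * (u ^ 2 * x) + t) ^ 2 - ((u ^ 2 * x + r) ^ 3 + a * (u ^ 2 * x + r) + b) := by
    intro x y
    linear_combination (u ^ 5 * x * y) * h1 - (u ^ 4 * x ^ 2) * h2 + (u ^ 3 * y) * h3 -
      (u ^ 2 * x) * h4 - h6
  unfold aff pts
  apply Nat.card_congr
  refine ⟨fun p => ⟨(u ^ 2 * p.1.1 + r, u ^ 3 * p.1.2 + s * (u ^ 2 * p.1.1) + t), ?_⟩,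
    fun p => ⟨((p.1.1 - r) / u ^ 2, (p.1.2 - s * (p.1.1 - r) - t) / u ^ 3), ?_⟩, ?_, ?_⟩
  · have h := p.2
    have h' := key p.1.1 p.1.2
    rw [h, sub_self, mul_zero] at h'
    exact (sub_eq_zero.1 h'.symm)
  · have h := p.2
    have h' := key ((p.1.1 - r) / u ^ 2) ((p.1.2 - s * (p.1.1 - r) - t) / u ^ 3)
    have e1 : u ^ 2 * ((p.1.1 - r) / u ^ 2) = p.1.1 - r := by
      rw [mul_div_cancel₀ _ (pow_ne_zero 2 hu)]
    have e2 : u ^ 3 * ((p.1.2 - s * (p.1.1 - r) - t) / u ^ 3) = p.1.2 - s * (p.1.1 - r) - t := by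
      rw [mul_div_cancel₀ _ (pow_ne_zero 3 hu)]
    rw [e1, e2] at h'
    have e3 : (p.1.2 - s * (p.1.1 - r) - t + s * (p.1.1 - r) + t) ^ 2 -
        ((p.1.1 - r + r) ^ 3 + a * (p.1.1 - r + r) + b) = 0 := by
      linear_combination h
    rw [e3] at h'
    exact sub_eq_zero.1 ((mul_eq_zero.1 h').resolve_left (pow_ne_zero 6 hu))
  · intro p
    apply Subtype.ext
    apply Prod.ext
    · simp only
      field_simp
      ring
    · simp only
      field_simp
      ring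
  · intro p
    apply Subtype.ext
    apply Prod.ext
    · simp only
      field_simp
      ring
    · simp only
      field_simp
      ring

/-- the cuspidal cubic -/
theorem pts_zero : pts (0 : k) 0 = Nat.card k := by
  classical
  unfold pts
  symm
  apply Nat.card_congr
  refine ⟨fun t => ⟨(t ^ 2, t ^ 3), by ring⟩, fun p => p.1.2 / p.1.1, ?_, ?_⟩
  · intro t
    by_cases ht : t = 0
    · simp [ht]
    · simp only
      field_simp
  · intro p
    have h := p.2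
    rw [zero_mul, add_zero, add_zero] at h
    apply Subtype.ext
    by_cases hx : p.1.1 = 0
    · have hy : p.1.2 = 0 := by
        rw [hx] at h
        have : p.1.2 ^ 2 = 0 := by rw [h]; ring
        exact pow_eq_zero_iff (by norm_num) |>.1 this
      apply Prod.ext <;> simp [hx, hy]
    · apply Prod.ext
      · simp only
        rw [div_pow, h]
        field_simp
      · simp only
        rw [div_pow, div_eq_iff (pow_ne_zero 3 hx), ← h]
        ring

end field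

section val

variable {F : Type*} [Field F] {Γ : Type*} [LinearOrderedCommGroupWithZero Γ]

theorem val_root_four (w : Valuation F Γ) {x c₂ c₁ c₀ : F} (h2 : w c₂ ≤ 1) (h1 : w c₁ ≤ 1)
    (h0 : w c₀ ≤ 1) (h : x ^ 4 = c₂ * x ^ 2 + c₁ * x + c₀) : w x ≤ 1 := by
  by_contra hcon
  push Not at hcon
  have hx2 : w x ≤ w x ^ 2 := by
    rw [sq]
    exact le_mul_of_one_le_right' hcon.le
  have e1 : w (c₂ * x ^ 2 + c₁ * x + c₀) ≤ w x ^ 2 := by
    refine (w.map_add _ _).trans (max_le ((w.map_add _ _).trans (max_le ?_ ?_)) ?_)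
    · rw [map_mul, map_pow]
      exact mul_le_of_le_one_left' h2
    · rw [map_mul]
      exact (mul_le_of_le_one_left' h1).trans hx2
    · exact h0.trans (hcon.le.trans hx2)
  rw [← h, map_pow] at e1
  have e2 : w x ^ 2 < w x ^ 4 := pow_lt_pow_right₀ hcon (by norm_num)
  exact absurd e1 (not_le.2 e2)

theorem val_root_two (w : Valuation F Γ) {x c₀ : F} (h0 : w c₀ ≤ 1) (h : x ^ 2 = c₀) :
    w x ≤ 1 := by
  by_contra hcon
  push Not at hcon
  rw [← h, map_pow] at h0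
  have e2 : 1 < w x ^ 2 := one_lt_pow₀ hcon (by norm_num)
  exact absurd h0 (not_le.2 e2)

theorem val_add (w : Valuation F Γ) {x y : F} (h1 : w x ≤ 1) (h2 : w y ≤ 1) : w (x + y) ≤ 1 :=
  (w.map_add _ _).trans (max_le h1 h2)

theorem val_sub (w : Valuation F Γ) {x y : F} (h1 : w x ≤ 1) (h2 : w y ≤ 1) : w (x - y) ≤ 1 :=
  (w.map_sub _ _).trans (max_le h1 h2)

theorem val_mul (w : Valuation F Γ) {x y : F} (h1 : w x ≤ 1) (h2 : w y ≤ 1) : w (x * y) ≤ 1 := by
  rw [map_mul]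
  exact mul_le_one' h1 h2

theorem val_pow (w : Valuation F Γ) {x : F} (h1 : w x ≤ 1) (n : ℕ) : w (x ^ n) ≤ 1 := by
  rw [map_pow]
  exact pow_le_one' h1 n

end val

variable {K : Type} [Field K] [NumberField K]

open WithZero in
theorem val_exp {v : HeightOneSpectrum (𝓞 K)} {x : 𝓞 K} (hx : x ≠ 0) :
    ∃ n : ℕ, v.intValuation x = exp (-(n : ℤ)) := by
  rw [v.intValuation_if_neg hx]
  exact ⟨_, rfl⟩

/-- comparison of the discriminants -/
theorem val_le_of_min {v : HeightOneSpectrum (𝓞 K)} {x y : 𝓞 K} (hx : x ≠ 0)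
    (h : ∀ n : ℕ, x ∈ v.asIdeal ^ n → y ∈ v.asIdeal ^ n) :
    v.intValuation y ≤ v.intValuation x := by
  obtain ⟨n, hn⟩ := val_exp (v := v) hx
  have h1 := (v.intValuation_le_pow_iff_mem x n).1 hn.le
  rw [hn]
  exact (v.intValuation_le_pow_iff_mem y n).2 (h n h1)

theorem sw_Δ {R : Type*} [CommRing R] (a b : R) :
    (sw a b).Δ = -16 * (4 * a ^ 3 + 27 * b ^ 2) := by
  unfold sw WeierstrassCurve.Δ WeierstrassCurve.b₂ WeierstrassCurve.b₄ WeierstrassCurve.b₆
    WeierstrassCurve.b₈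
  ring

/-- **the change of variables to a minimal model is integral** -/
theorem local_data {v : HeightOneSpectrum (𝓞 K)} {a b : 𝓞 K} (hD : 4 * a ^ 3 + 27 * b ^ 2 ≠ 0)
    {V : WeierstrassCurve (𝓞 K)} (hV : IsMinAt ((sw a b).map (algebraMap (𝓞 K) K)) v V) :
    ∃ m U R S T : 𝓞 K, m ∉ v.asIdeal ∧ U * V.a₁ = 2 * S ∧ U ^ 2 * V.a₂ = 3 * R * m - S ^ 2 ∧
      U ^ 3 * V.a₃ = 2 * T * m ^ 2 ∧ U ^ 4 * V.a₄ = a * m ^ 4 + 3 * R ^ 2 * m ^ 2 -
        2 * S * T * m ^ 2 ∧ U ^ 6 * V.a₆ = b * m ^ 6 + R * a * m ^ 5 + R ^ 3 * m ^ 3 -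
        T ^ 2 * m ^ 4 ∧ U ^ 12 * V.Δ = m ^ 12 * (-16 * (4 * a ^ 3 + 27 * b ^ 2)) := by
  classical
  obtain ⟨⟨C, hC⟩, hmin⟩ := hV
  set ρ : 𝓞 K →+* K := algebraMap (𝓞 K) K with hρ
  have hinj : Function.Injective ρ := IsFractionRing.injective (𝓞 K) K
  set w := v.valuation K with hw
  have hint : ∀ x : 𝓞 K, w (ρ x) ≤ 1 := fun x => v.valuation_le_one x
  set u : K := (C.u : K) with hu
  have hu0 : u ≠ 0 := C.u.ne_zero
  have hinv : ((C.u⁻¹ : Kˣ) : K) = u⁻¹ := by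
    rw [Units.val_inv_eq_inv_val]
  -- the equations
  have e1 : u * ρ V.a₁ = 2 * C.s := by
    have := congrArg WeierstrassCurve.a₁ hC
    rw [WeierstrassCurve.variableChange_a₁, hinv] at this
    simp only [sw, WeierstrassCurve.map, map_zero] at this
    rw [← this]
    field_simp
    ring
  have e2 : u ^ 2 * ρ V.a₂ = 3 * C.r - C.s ^ 2 := by
    have := congrArg WeierstrassCurve.a₂ hC
    rw [WeierstrassCurve.variableChange_a₂, hinv] at this
    simp only [sw, WeierstrassCurve.map, map_zero] at this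
    rw [← this]
    field_simp
    ring
  have e3 : u ^ 3 * ρ V.a₃ = 2 * C.t := by
    have := congrArg WeierstrassCurve.a₃ hC
    rw [WeierstrassCurve.variableChange_a₃, hinv] at this
    simp only [sw, WeierstrassCurve.map, map_zero] at this
    rw [← this]
    field_simp
    ring
  have e4 : u ^ 4 * ρ V.a₄ = ρ a + 3 * C.r ^ 2 - 2 * C.s * C.t := by
    have := congrArg WeierstrassCurve.a₄ hC
    rw [WeierstrassCurve.variableChange_a₄, hinv] at this
    simp only [sw, WeierstrassCurve.map, map_zero] at this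
    rw [← this]
    field_simp
    ring
  have e6 : u ^ 6 * ρ V.a₆ = ρ b + C.r * ρ a + C.r ^ 3 - C.t ^ 2 := by
    have := congrArg WeierstrassCurve.a₆ hC
    rw [WeierstrassCurve.variableChange_a₆, hinv] at this
    simp only [sw, WeierstrassCurve.map, map_zero] at this
    rw [← this]
    field_simp
    ring
  have eΔ : u ^ 12 * ρ V.Δ = ρ ((sw a b).Δ) := by
    have := congrArg WeierstrassCurve.Δ hC
    rw [WeierstrassCurve.variableChange_Δ, hinv, WeierstrassCurve.map_Δ,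
      WeierstrassCurve.map_Δ] at this
    rw [← this]
    field_simp
  have hΔ0 : (sw a b).Δ ≠ 0 := by
    rw [sw_Δ]
    exact mul_ne_zero (by norm_num) hD
  have hVΔ : V.Δ ≠ 0 := by
    intro h0
    rw [h0, map_zero, mul_zero] at eΔ
    exact hΔ0 (hinj (by rw [← eΔ, map_zero]))
  -- `u` is integral
  have hmod : IsModel ((sw a b).map ρ) (sw a b) := ⟨1, one_smul _ _⟩
  have hle := val_le_of_min hVΔ (hmin _ hmod)
  have hu1 : w u ≤ 1 := by
    by_contra hcon
    push Not at hcon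
    have h1 : w (ρ ((sw a b).Δ)) = w u ^ 12 * w (ρ V.Δ) := by
      rw [← eΔ, map_mul, map_pow]
    rw [hw, hρ, v.valuation_of_algebraMap, v.valuation_of_algebraMap] at h1
    have h2 : 1 < v.valuation K u ^ 12 := one_lt_pow₀ hcon (by norm_num)
    have h3 : 0 < v.intValuation V.Δ := by
      rw [zero_lt_iff]
      exact v.intValuation_ne_zero _ hVΔ
    have h4 : v.intValuation V.Δ < v.valuation K u ^ 12 * v.intValuation V.Δ :=
      lt_mul_of_one_lt_left h3 h2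
    rw [← h1] at h4
    exact absurd hle (not_le.2 h4)
  -- `r`, `s`, `t` are integral
  have hnat : ∀ n : ℕ, w ((n : K)) ≤ 1 := by
    intro n
    have := hint (n : 𝓞 K)
    rwa [map_natCast] at this
  have e6' : u ^ 6 * ρ V.b₆ = 4 * ρ b + 4 * ρ a * C.r + 4 * C.r ^ 3 := by
    unfold WeierstrassCurve.b₆
    rw [map_add, map_mul, map_pow, map_ofNat]
    linear_combination (u ^ 3 * ρ V.a₃ + 2 * C.t) * e3 + 4 * e6
  have e8' : u ^ 8 * ρ V.b₈ = - ρ a ^ 2 + 12 * ρ b * C.r + 6 * ρ a * C.r ^ 2 + 3 * C.r ^ 4 := by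
    have := congrArg WeierstrassCurve.b₈ hC
    rw [WeierstrassCurve.variableChange_b₈, hinv, WeierstrassCurve.map_b₈,
      WeierstrassCurve.map_b₈] at this
    rw [← this]
    field_simp
    unfold WeierstrassCurve.b₂ WeierstrassCurve.b₄ WeierstrassCurve.b₆ WeierstrassCurve.b₈
    simp only [sw, WeierstrassCurve.map, map_zero]
    ring_nf
    rw [map_neg, map_pow]
    ring
  have hr : w C.r ≤ 1 := by
    refine val_root_four w (c₂ := ((2 : ℕ) : K) * ρ a) (c₁ := ((8 : ℕ) : K) * ρ b + u ^ 6 * ρ V.b₆)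
      (c₀ := - (ρ a ^ 2) - u ^ 8 * ρ V.b₈) ?_ ?_ ?_ ?_
    · exact val_mul w (hnat 2) (hint a)
    · exact val_add w (val_mul w (hnat 8) (hint b)) (val_mul w (val_pow w hu1 6) (hint _))
    · refine val_sub w ?_ (val_mul w (val_pow w hu1 8) (hint _))
      rw [Valuation.map_neg]
      exact val_pow w (hint a) 2
    · push_cast
      linear_combination -C.r * e6' + e8'
  have hs : w C.s ≤ 1 := by
    refine val_root_two w (c₀ := ((3 : ℕ) : K) * C.r - u ^ 2 * ρ V.a₂) ?_ ?_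
    · exact val_sub w (val_mul w (hnat 3) hr) (val_mul w (val_pow w hu1 2) (hint _))
    · push_cast
      linear_combination e2
  have ht : w C.t ≤ 1 := by
    refine val_root_two w (c₀ := ρ b + C.r * ρ a + C.r ^ 3 - u ^ 6 * ρ V.a₆) ?_ ?_
    · exact val_sub w (val_add w (val_add w (hint b) (val_mul w hr (hint a))) (val_pow w hr 3))
        (val_mul w (val_pow w hu1 6) (hint _))
    · linear_combination e6
  obtain ⟨nu, du, hdu⟩ := v.exists_primeCompl_mul_eq_of_integer u hu1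
  obtain ⟨nr, dr, hdr⟩ := v.exists_primeCompl_mul_eq_of_integer C.r hr
  obtain ⟨ns, ds, hds⟩ := v.exists_primeCompl_mul_eq_of_integer C.s hs
  obtain ⟨nt, dt, hdt⟩ := v.exists_primeCompl_mul_eq_of_integer C.t ht
  set m : 𝓞 K := du * dr * ds * dt with hm
  have hm0 : m ∉ v.asIdeal := by
    have : m ∈ v.asIdeal.primeCompl := mul_mem (mul_mem (mul_mem du.2 dr.2) ds.2) dt.2
    exact this
  have fu : ρ (nu * dr * ds * dt) = u * ρ m := by
    rw [hm]
    simp only [map_mul]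
    rw [← hdu]
    ring
  have fr : ρ (nr * du * ds * dt) = C.r * ρ m := by
    rw [hm]
    simp only [map_mul]
    rw [← hdr]
    ring
  have fs : ρ (ns * du * dr * dt) = C.s * ρ m := by
    rw [hm]
    simp only [map_mul]
    rw [← hds]
    ring
  have ft : ρ (nt * du * dr * ds) = C.t * ρ m := by
    rw [hm]
    simp only [map_mul]
    rw [← hdt]
    ring
  generalize nu * (dr : 𝓞 K) * ds * dt = U at fu
  generalize nr * (du : 𝓞 K) * ds * dt = R at fr
  generalize ns * (du : 𝓞 K) * dr * dt = S at fs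
  generalize nt * (du : 𝓞 K) * dr * ds = T at ft
  refine ⟨m, U, R, S, T, hm0, ?_, ?_, ?_, ?_, ?_, ?_⟩
  · apply hinj
    simp only [map_mul, map_ofNat, fu, fs]
    linear_combination (ρ m) * e1
  · apply hinj
    simp only [map_mul, map_sub, map_pow, map_ofNat, fu, fs, fr]
    linear_combination (ρ m) ^ 2 * e2
  · apply hinj
    simp only [map_mul, map_sub, map_pow, map_ofNat, fu, ft]
    linear_combination (ρ m) ^ 3 * e3
  · apply hinj
    simp only [map_mul, map_sub, map_add, map_pow, map_ofNat, fu, fs, fr, ft]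
    linear_combination (ρ m) ^ 4 * e4
  · apply hinj
    simp only [map_mul, map_sub, map_add, map_pow, map_ofNat, fu, fs, fr, ft]
    linear_combination (ρ m) ^ 6 * e6
  · rw [← sw_Δ]
    apply hinj
    simp only [map_mul, map_pow, fu]
    linear_combination (ρ m) ^ 12 * eΔ

section consequences

variable {v : HeightOneSpectrum (𝓞 K)} {a b : 𝓞 K} {V : WeierstrassCurve (𝓞 K)}
  {m U R S T : 𝓞 K}

theorem red_of_unit (hm : m ∉ v.asIdeal) (hU : U ∉ v.asIdeal) (h1 : U * V.a₁ = 2 * S)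
    (h2 : U ^ 2 * V.a₂ = 3 * R * m - S ^ 2) (h3 : U ^ 3 * V.a₃ = 2 * T * m ^ 2)
    (h4 : U ^ 4 * V.a₄ = a * m ^ 4 + 3 * R ^ 2 * m ^ 2 - 2 * S * T * m ^ 2)
    (h6 : U ^ 6 * V.a₆ = b * m ^ 6 + R * a * m ^ 5 + R ^ 3 * m ^ 3 - T ^ 2 * m ^ 4) :
    aff (red v V) = pts (Ideal.Quotient.mk v.asIdeal a) (Ideal.Quotient.mk v.asIdeal b) := by
  have hm' := mk_ne hm
  have hU' := mk_ne hU
  set π := Ideal.Quotient.mk v.asIdeal with hπ
  have g1 := congrArg π h1
  have g2 := congrArg π h2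
  have g3 := congrArg π h3
  have g4 := congrArg π h4
  have g6 := congrArg π h6
  simp only [map_mul, map_sub, map_add, map_pow, map_ofNat] at g1 g2 g3 g4 g6
  refine aff_of_change (red v V) (π a) (π b) (π U / π m) (π R / π m) (π S / π m) (π T / π m)
    (div_ne_zero hU' hm') ?_ ?_ ?_ ?_ ?_
  · show π U / π m * π V.a₁ = _
    field_simp
    linear_combination g1
  · show (π U / π m) ^ 2 * π V.a₂ = _
    field_simp
    linear_combination g2
  · show (π U / π m) ^ 3 * π V.a₃ = _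
    field_simp
    linear_combination g3
  · show (π U / π m) ^ 4 * π V.a₄ = _
    field_simp
    linear_combination g4
  · show (π U / π m) ^ 6 * π V.a₆ = _
    field_simp
    linear_combination g6

theorem two_or_three (h6 : (6 : 𝓞 K) ∈ v.asIdeal) :
    ((2 : 𝓞 K) ∈ v.asIdeal ∧ (3 : 𝓞 K) ∉ v.asIdeal) ∨
      ((3 : 𝓞 K) ∈ v.asIdeal ∧ (2 : 𝓞 K) ∉ v.asIdeal) := by
  have hv := v.isPrime
  have h1 : (1 : 𝓞 K) ∉ v.asIdeal := fun h => hv.ne_top ((Ideal.eq_top_iff_one _).2 h)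
  have h23 : (2 : 𝓞 K) * 3 ∈ v.asIdeal := by
    have : (2 : 𝓞 K) * 3 = 6 := by norm_num
    rwa [this]
  have hnot : ¬ ((2 : 𝓞 K) ∈ v.asIdeal ∧ (3 : 𝓞 K) ∈ v.asIdeal) := by
    rintro ⟨h2, h3⟩
    apply h1
    have := v.asIdeal.sub_mem h3 h2
    have e : (3 : 𝓞 K) - 2 = 1 := by norm_num
    rwa [e] at this
  rcases hv.mem_or_mem h23 with h | h
  · exact Or.inl ⟨h, fun h' => hnot ⟨h, h'⟩⟩
  · exact Or.inr ⟨h, fun h' => hnot ⟨h', h⟩⟩

theorem unit_away (hm : m ∉ v.asIdeal) (h6' : (6 : 𝓞 K) ∉ v.asIdeal)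
    (hab : ¬ (a ∈ v.asIdeal ^ 4 ∧ b ∈ v.asIdeal ^ 6)) (h1 : U * V.a₁ = 2 * S)
    (h2 : U ^ 2 * V.a₂ = 3 * R * m - S ^ 2) (h3 : U ^ 3 * V.a₃ = 2 * T * m ^ 2)
    (h4 : U ^ 4 * V.a₄ = a * m ^ 4 + 3 * R ^ 2 * m ^ 2 - 2 * S * T * m ^ 2)
    (h6 : U ^ 6 * V.a₆ = b * m ^ 6 + R * a * m ^ 5 + R ^ 3 * m ^ 3 - T ^ 2 * m ^ 4) :
    U ∉ v.asIdeal := by
  intro hU
  have hv := v.isPrime
  have b2 : U ^ 2 * V.b₂ = 12 * R * m := by
    unfold WeierstrassCurve.b₂
    linear_combination (U * V.a₁ + 2 * S) * h1 + 4 * h2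
  have b4 : U ^ 4 * V.b₄ = 2 * a * m ^ 4 + 6 * R ^ 2 * m ^ 2 := by
    unfold WeierstrassCurve.b₄
    linear_combination 2 * h4 + U ^ 3 * V.a₃ * h1 + 2 * S * h3
  have b6 : U ^ 6 * V.b₆ = 4 * b * m ^ 6 + 4 * R * a * m ^ 5 + 4 * R ^ 3 * m ^ 3 := by
    unfold WeierstrassCurve.b₆
    linear_combination (U ^ 3 * V.a₃ + 2 * T * m ^ 2) * h3 + 4 * h6
  have c4 : U ^ 4 * V.c₄ = -48 * m ^ 4 * a := by
    unfold WeierstrassCurve.c₄
    linear_combination (U ^ 2 * V.b₂ + 12 * R * m) * b2 - 24 * b4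
  have c6 : U ^ 6 * V.c₆ = -864 * m ^ 6 * b := by
    unfold WeierstrassCurve.c₆
    linear_combination (-(U ^ 2 * V.b₂) ^ 2 - (U ^ 2 * V.b₂) * (12 * R * m) -
      (12 * R * m) ^ 2 + 36 * (U ^ 4 * V.b₄)) * b2 + 36 * (12 * R * m) * b4 - 216 * b6
  have hn2 : (2 : 𝓞 K) ∉ v.asIdeal := by
    intro h
    apply h6'
    have := v.asIdeal.mul_mem_left 3 h
    have e : (3 : 𝓞 K) * 2 = 6 := by norm_num
    rwa [e] at this
  have hn3 : (3 : 𝓞 K) ∉ v.asIdeal := by
    intro h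
    apply h6'
    have := v.asIdeal.mul_mem_left 2 h
    have e : (2 : 𝓞 K) * 3 = 6 := by norm_num
    rwa [e] at this
  have hn48 : (-48 * m ^ 4 : 𝓞 K) ∉ v.asIdeal := by
    intro h
    have e : (-48 * m ^ 4 : 𝓞 K) = 2 ^ 4 * 3 * m ^ 4 * (-1) := by ring
    rw [e] at h
    have h' := v.asIdeal.mul_mem_right (-1) h
    rw [mul_assoc, neg_mul_neg, one_mul, mul_one] at h'
    rcases hv.mem_or_mem h' with h' | h'
    · rcases hv.mem_or_mem h' with h' | h'
      · exact hn2 (hv.mem_of_pow_mem _ h')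
      · exact hn3 h'
    · exact hm (hv.mem_of_pow_mem _ h')
  have hn864 : (-864 * m ^ 6 : 𝓞 K) ∉ v.asIdeal := by
    intro h
    have e : (-864 * m ^ 6 : 𝓞 K) = 2 ^ 5 * 3 ^ 3 * m ^ 6 * (-1) := by ring
    rw [e] at h
    have h' := v.asIdeal.mul_mem_right (-1) h
    rw [mul_assoc, neg_mul_neg, one_mul, mul_one] at h'
    rcases hv.mem_or_mem h' with h' | h'
    · rcases hv.mem_or_mem h' with h' | h'
      · exact hn2 (hv.mem_of_pow_mem _ h')
      · exact hn3 (hv.mem_of_pow_mem _ h')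
    · exact hm (hv.mem_of_pow_mem _ h')
  apply hab
  constructor
  · have : (-48 * m ^ 4) * a ∈ v.asIdeal ^ 4 := by
      rw [← c4]
      exact Ideal.mul_mem_right _ _ (Ideal.pow_mem_pow hU 4)
    exact (Ideal.IsPrime.mul_mem_pow _ this).resolve_left hn48
  · have : (-864 * m ^ 6) * b ∈ v.asIdeal ^ 6 := by
      rw [← c6]
      exact Ideal.mul_mem_right _ _ (Ideal.pow_mem_pow hU 6)
    exact (Ideal.IsPrime.mul_mem_pow _ this).resolve_left hn864

theorem unit_six (hm : m ∉ v.asIdeal) (h6' : (6 : 𝓞 K) ∈ v.asIdeal) (ha : a ∈ v.asIdeal)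
    (hb : b ∈ v.asIdeal) (hb2 : b ∉ v.asIdeal ^ 2)
    (h3 : U ^ 3 * V.a₃ = 2 * T * m ^ 2)
    (h4 : U ^ 4 * V.a₄ = a * m ^ 4 + 3 * R ^ 2 * m ^ 2 - 2 * S * T * m ^ 2)
    (h6 : U ^ 6 * V.a₆ = b * m ^ 6 + R * a * m ^ 5 + R ^ 3 * m ^ 3 - T ^ 2 * m ^ 4) :
    U ∉ v.asIdeal := by
  intro hU
  have hv := v.isPrime
  set I := v.asIdeal with hI
  have hUn : ∀ (n : ℕ) (x : 𝓞 K), n ≠ 0 → U ^ n * x ∈ I := fun n x hn =>
    I.mul_mem_right _ (I.pow_mem_of_mem hU n (Nat.pos_of_ne_zero hn))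
  have hRT : R ∈ I ∧ T ∈ I := by
    rcases two_or_three h6' with ⟨h2, hn3⟩ | ⟨h3', hn2⟩
    · have hR : R ∈ I := by
        have h : 3 * (R ^ 2 * m ^ 2) ∈ I := by
          have e : 3 * (R ^ 2 * m ^ 2) = U ^ 4 * V.a₄ - a * m ^ 4 + 2 * (S * T * m ^ 2) := by
            linear_combination -h4
          rw [e]
          exact I.add_mem (I.sub_mem (hUn 4 _ (by norm_num)) (I.mul_mem_right _ ha))
            (I.mul_mem_right _ h2)
        rcases hv.mem_or_mem ((hv.mem_or_mem h).resolve_left hn3) with h | h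
        · exact hv.mem_of_pow_mem _ h
        · exact absurd (hv.mem_of_pow_mem _ h) hm
      refine ⟨hR, ?_⟩
      have h : T ^ 2 * m ^ 4 ∈ I := by
        have e : T ^ 2 * m ^ 4 = b * m ^ 6 + a * (R * m ^ 5) + R * (R ^ 2 * m ^ 3) -
            U ^ 6 * V.a₆ := by
          linear_combination h6
        rw [e]
        exact I.sub_mem (I.add_mem (I.add_mem (I.mul_mem_right _ hb) (I.mul_mem_right _ ha))
          (I.mul_mem_right _ hR)) (hUn 6 _ (by norm_num))
      rcases hv.mem_or_mem h with h | h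
      · exact hv.mem_of_pow_mem _ h
      · exact absurd (hv.mem_of_pow_mem _ h) hm
    · have hT : T ∈ I := by
        have h : 2 * (T * m ^ 2) ∈ I := by
          have e : 2 * (T * m ^ 2) = U ^ 3 * V.a₃ := by linear_combination -h3
          rw [e]
          exact hUn 3 _ (by norm_num)
        rcases hv.mem_or_mem ((hv.mem_or_mem h).resolve_left hn2) with h | h
        · exact h
        · exact absurd (hv.mem_of_pow_mem _ h) hm
      refine ⟨?_, hT⟩
      have h : R ^ 3 * m ^ 3 ∈ I := by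
        have e : R ^ 3 * m ^ 3 = U ^ 6 * V.a₆ - b * m ^ 6 - a * (R * m ^ 5) +
            T * (T * m ^ 4) := by
          linear_combination -h6
        rw [e]
        exact I.add_mem (I.sub_mem (I.sub_mem (hUn 6 _ (by norm_num)) (I.mul_mem_right _ hb))
          (I.mul_mem_right _ ha)) (I.mul_mem_right _ hT)
      rcases hv.mem_or_mem h with h | h
      · exact hv.mem_of_pow_mem _ h
      · exact absurd (hv.mem_of_pow_mem _ h) hm
  obtain ⟨hR, hT⟩ := hRT
  apply hb2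
  have h : m ^ 6 * b ∈ I ^ 2 := by
    have e : m ^ 6 * b = (U ^ 2) * (U ^ 4 * V.a₆) - (R * a) * m ^ 5 - R ^ 2 * (R * m ^ 3) +
        T ^ 2 * m ^ 4 := by
      linear_combination -h6
    rw [e]
    have hRa : R * a ∈ I ^ 2 := by
      rw [sq]
      exact Ideal.mul_mem_mul hR ha
    exact (I ^ 2).add_mem ((I ^ 2).sub_mem ((I ^ 2).sub_mem
      ((I ^ 2).mul_mem_right _ (Ideal.pow_mem_pow hU 2)) ((I ^ 2).mul_mem_right _ hRa))
      ((I ^ 2).mul_mem_right _ (Ideal.pow_mem_pow hR 2)))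
      ((I ^ 2).mul_mem_right _ (Ideal.pow_mem_pow hT 2))
  exact (Ideal.IsPrime.mul_mem_pow _ h).resolve_left fun h => hm (hv.mem_of_pow_mem _ h)

end consequences

section main

variable {v : HeightOneSpectrum (𝓞 K)} {a b : 𝓞 K}

/-- **the minimal models at the primes that do not divide `6`** -/
theorem min_away (hD : 4 * a ^ 3 + 27 * b ^ 2 ≠ 0) (h6' : (6 : 𝓞 K) ∉ v.asIdeal)
    (hab : ¬ (a ∈ v.asIdeal ^ 4 ∧ b ∈ v.asIdeal ^ 6)) {V : WeierstrassCurve (𝓞 K)}
    (hV : IsMinAt ((sw a b).map (algebraMap (𝓞 K) K)) v V) :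
    aff (red v V) = pts (Ideal.Quotient.mk v.asIdeal a) (Ideal.Quotient.mk v.asIdeal b) ∧
      (V.Δ ∈ v.asIdeal ↔ D (Ideal.Quotient.mk v.asIdeal a) (Ideal.Quotient.mk v.asIdeal b) = 0) := by
  obtain ⟨m, U, R, S, T, hm, h1, h2, h3, h4, h6, hΔ⟩ := local_data hD hV
  have hU := unit_away hm h6' hab h1 h2 h3 h4 h6
  refine ⟨red_of_unit hm hU h1 h2 h3 h4 h6, ?_⟩
  have hm' := mk_ne hm
  have hU' := mk_ne hU
  have h6'' := mk_ne h6'
  rw [map_ofNat] at h6''
  have h2' := two_ne h6''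
  have g := congrArg (Ideal.Quotient.mk v.asIdeal) hΔ
  simp only [map_mul, map_add, map_neg, map_pow, map_ofNat] at g
  rw [← Ideal.Quotient.eq_zero_iff_mem]
  unfold D
  constructor
  · intro h
    rw [h, mul_zero] at g
    have h16 : (-16 : 𝓞 K ⧸ v.asIdeal) ≠ 0 := by
      have e : (-16 : 𝓞 K ⧸ v.asIdeal) = -(2 ^ 4) := by norm_num
      rw [e]
      exact neg_ne_zero.2 (pow_ne_zero 4 h2')
    exact ((mul_eq_zero.1 ((mul_eq_zero.1 g.symm).resolve_left (pow_ne_zero 12 hm'))).resolve_left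
      h16)
  · intro h
    rw [h, mul_zero, mul_zero] at g
    exact (mul_eq_zero.1 g).resolve_left (pow_ne_zero 12 hU')

/-- **the minimal models at the primes that divide `6`** -/
theorem min_six (hD : 4 * a ^ 3 + 27 * b ^ 2 ≠ 0) (h6' : (6 : 𝓞 K) ∈ v.asIdeal)
    (ha : a ∈ v.asIdeal) (hb : b ∈ v.asIdeal) (hb2 : b ∉ v.asIdeal ^ 2)
    {V : WeierstrassCurve (𝓞 K)} (hV : IsMinAt ((sw a b).map (algebraMap (𝓞 K) K)) v V) :
    aff (red v V) = Nat.card (𝓞 K ⧸ v.asIdeal) ∧ V.Δ ∈ v.asIdeal := by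
  obtain ⟨m, U, R, S, T, hm, h1, h2, h3, h4, h6, hΔ⟩ := local_data hD hV
  have hU := unit_six hm h6' ha hb hb2 h3 h4 h6
  have hm' := mk_ne hm
  have hU' := mk_ne hU
  have ha' := Ideal.Quotient.eq_zero_iff_mem.2 ha
  have hb' := Ideal.Quotient.eq_zero_iff_mem.2 hb
  constructor
  · rw [red_of_unit hm hU h1 h2 h3 h4 h6, ha', hb', pts_zero]
  · have g := congrArg (Ideal.Quotient.mk v.asIdeal) hΔ
    simp only [map_mul, map_add, map_neg, map_pow, map_ofNat] at g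
    rw [ha', hb'] at g
    rw [← Ideal.Quotient.eq_zero_iff_mem]
    have g' : (Ideal.Quotient.mk v.asIdeal U) ^ 12 * Ideal.Quotient.mk v.asIdeal V.Δ = 0 := by
      rw [g]
      ring
    exact (mul_eq_zero.1 g').resolve_left (pow_ne_zero 12 hU')

end main

end Pool.Agent.P8H18.MF
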