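import Pool.Agent.P8H18.MF.Box
import Pool.Agent.H341R2.NF.TwistEC

/-! Points of an ideal in a box, and pairs `(a, b)` with `v⁴ ∣ a`, `v⁶ ∣ b` for a large prime. -/

set_option autoImplicit false
set_option linter.unusedSectionVars false

namespace Pool.Agent.P8H18.MF

open Finset Filter Topology NumberField IsDedekindDomain
open Pool.Agent.H921R2.TatePole (nm two_le_nm nm_summable)

variable {K : Type} [Field K] [NumberField K] {ι : Type} [Fintype ι] [DecidableEq ι]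

theorem card_index (β : Module.Basis ι ℤ (𝓞 K)) : Module.finrank ℚ K = Fintype.card ι := by
  rw [← RingOfIntegers.rank K, Module.finrank_eq_card_basis β]

theorem index_pos (β : Module.Basis ι ℤ (𝓞 K)) : 0 < Fintype.card ι := by
  rw [← card_index β]
  exact Module.finrank_pos

/-- the norm is bounded by the coordinates -/
theorem norm_le (β : Module.Basis ι ℤ (𝓞 K)) : ∃ B : ℝ, 0 < B ∧ ∀ (a : 𝓞 K) (X : ℝ), 0 ≤ X →
    (∀ i, |(β.repr a i : ℝ)| ≤ X) →
      |(Algebra.norm ℤ a : ℝ)| ≤ (B * X) ^ Fintype.card ι := by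
  classical
  set B : ℝ := 1 + ∑ σ : K →ₐ[ℚ] ℂ, ∑ i, ‖σ (β i : K)‖ with hB
  have hB0 : 0 < B := by positivity
  refine ⟨B, hB0, fun a X hX ha => ?_⟩
  have h1 : (((Algebra.norm ℤ a : ℤ) : ℝ) : ℂ) = ∏ σ : K →ₐ[ℚ] ℂ, σ (a : K) := by
    rw [← Algebra.norm_eq_prod_embeddings ℚ ℂ (a : K), ← Algebra.coe_norm_int]
    push_cast
    simp
  have h2 : |(Algebra.norm ℤ a : ℝ)| = ∏ σ : K →ₐ[ℚ] ℂ, ‖σ (a : K)‖ := by
    rw [← norm_prod, ← h1, Complex.norm_real, Real.norm_eq_abs]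
  rw [h2]
  have h3 : ∀ σ : K →ₐ[ℚ] ℂ, ‖σ (a : K)‖ ≤ B * X := by
    intro σ
    have e1 : (a : K) = ∑ i, ((β.repr a i : ℤ) : K) * (β i : K) := by
      have e0 := congrArg (algebraMap (𝓞 K) K) (β.sum_repr a)
      rw [map_sum] at e0
      refine e0.symm.trans (sum_congr rfl fun i _ => ?_)
      rw [zsmul_eq_mul, map_mul, map_intCast]
    rw [e1, map_sum]
    refine (norm_sum_le _ _).trans ?_
    have e2 : ∀ i ∈ (univ : Finset ι), ‖σ (((β.repr a i : ℤ) : K) * (β i : K))‖ ≤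
        ‖σ (β i : K)‖ * X := by
      intro i _
      rw [map_mul, map_intCast, norm_mul, Complex.norm_intCast, mul_comm]
      exact mul_le_mul_of_nonneg_left (ha i) (norm_nonneg _)
    refine (sum_le_sum e2).trans ?_
    rw [← sum_mul]
    refine mul_le_mul_of_nonneg_right ?_ hX
    have e3 : ∑ i, ‖σ (β i : K)‖ ≤ ∑ σ : K →ₐ[ℚ] ℂ, ∑ i, ‖σ (β i : K)‖ :=
      single_le_sum (f := fun σ : K →ₐ[ℚ] ℂ => ∑ i, ‖σ (β i : K)‖)
        (fun _ _ => by positivity) (mem_univ σ)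
    linarith
  refine (prod_le_prod (fun _ _ => norm_nonneg _) fun σ _ => h3 σ).trans (le_of_eq ?_)
  rw [prod_const, card_univ, AlgHom.card, card_index β]

/-- the norm of an ideal is bounded by the size of its elements -/
theorem absNorm_le (β : Module.Basis ι ℤ (𝓞 K)) : ∃ B : ℝ, 0 < B ∧
    ∀ (I : Ideal (𝓞 K)) (a : 𝓞 K) (X : ℝ), a ∈ I → a ≠ 0 → 0 ≤ X →
      (∀ i, |(β.repr a i : ℝ)| ≤ X) → (Ideal.absNorm I : ℝ) ≤ (B * X) ^ Fintype.card ι := by
  obtain ⟨B, hB, h⟩ := norm_le β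
  refine ⟨B, hB, fun I a X haI ha0 hX haX => ?_⟩
  refine le_trans ?_ (h a X hX haX)
  have h1 := Ideal.absNorm_dvd_norm_of_mem haI
  have h2 : Algebra.norm ℤ a ≠ 0 := Algebra.norm_ne_zero_iff.2 ha0
  have h3 := Int.le_of_dvd (abs_pos.2 h2) ((dvd_abs _ _).2 h1)
  exact_mod_cast h3

open Classical in
/-- the number of nonzero elements of an ideal in a box -/
theorem card_ideal_box (β : Module.Basis ι ℤ (𝓞 K)) : ∃ C : ℝ, 0 ≤ C ∧
    ∀ (I : Ideal (𝓞 K)) (X : ℕ), 1 ≤ X → I ≠ ⊥ →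
      (((box β X).filter fun a => a ∈ I ∧ a ≠ 0).card : ℝ) * Ideal.absNorm I ≤
        C * (X : ℝ) ^ Fintype.card ι := by
  obtain ⟨B, hB, hN⟩ := absNorm_le β
  have hn := index_pos β
  set n := Fintype.card ι with hn'
  refine ⟨(3 * B) ^ n, by positivity, fun I X hX hI => ?_⟩
  have hX1 : (1 : ℝ) ≤ X := by exact_mod_cast hX
  have hI0 : (0 : ℝ) < Ideal.absNorm I := by
    have : Ideal.absNorm I ≠ 0 := by
      rw [Ne, Ideal.absNorm_eq_zero_iff]
      exact hI
    exact_mod_cast Nat.pos_of_ne_zero this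
  by_cases hex : ((box β X).filter fun a => a ∈ I ∧ a ≠ 0).Nonempty
  swap
  · rw [not_nonempty_iff_eq_empty] at hex
    rw [hex, card_empty, Nat.cast_zero, zero_mul]
    positivity
  obtain ⟨a₀, ha₀⟩ := hex
  rw [mem_filter, mem_box] at ha₀
  have hcast : ∀ {a : 𝓞 K} {Y : ℕ}, (∀ i, |β.repr a i| ≤ (Y : ℤ)) →
      ∀ i, |(β.repr a i : ℝ)| ≤ (Y : ℝ) := by
    intro a Y h i
    have := h i
    exact_mod_cast this
  have hNX : (Ideal.absNorm I : ℝ) ≤ (B * X) ^ n :=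
    hN I a₀ X ha₀.2.1 ha₀.2.2 (by positivity) (hcast ha₀.1)
  -- the side of the small cubes
  set δ : ℝ := (Ideal.absNorm I : ℝ) ^ ((1 : ℝ) / n) / B with hδ
  have hδ0 : 0 < δ := by positivity
  have hnr : (n : ℝ) ≠ 0 := by exact_mod_cast hn.ne'
  have hδn : (B * δ) ^ n = Ideal.absNorm I := by
    rw [hδ, mul_div_cancel₀ _ hB.ne', ← Real.rpow_natCast, ← Real.rpow_mul hI0.le,
      one_div_mul_cancel hnr, Real.rpow_one]
  have hδX : δ ≤ X := by
    by_contra hcon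
    push Not at hcon
    have : (B * (X : ℝ)) ^ n < (B * δ) ^ n := by gcongr
    rw [hδn] at this
    linarith
  set ℓ : ℕ := ⌈δ⌉₊ with hℓ
  have hℓ1 : 1 ≤ ℓ := Nat.one_le_ceil_iff.2 hδ0
  have hℓδ : δ ≤ ℓ := Nat.le_ceil δ
  have hℓlt : ((ℓ - 1 : ℕ) : ℝ) < δ := by
    have := Nat.ceil_lt_add_one hδ0.le
    push_cast [Nat.cast_sub hℓ1]
    linarith
  have hℓz : (0 : ℤ) < ℓ := by exact_mod_cast hℓ1
  -- the map to the cubes
  have hcard : ((box β X).filter fun a => a ∈ I ∧ a ≠ 0).card ≤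
      (Fintype.piFinset fun _ : ι => Icc (0 : ℤ) ((2 * X : ℤ) / ℓ)).card := by
    refine card_le_card_of_injOn (fun a i => (β.repr a i + X) / ℓ) ?_ ?_
    · intro a ha
      have ha' := mem_coe.1 ha
      rw [mem_filter, mem_box] at ha'
      rw [mem_coe, Fintype.mem_piFinset]
      intro i
      have h1 := abs_le.1 (ha'.1 i)
      rw [mem_Icc]
      constructor
      · exact Int.ediv_nonneg (by linarith) hℓz.le
      · exact Int.ediv_le_ediv hℓz (by linarith)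
    · intro a ha b hb hab
      have ha' := mem_coe.1 ha
      have hb' := mem_coe.1 hb
      rw [mem_filter, mem_box] at ha' hb'
      by_contra hne
      have hsub : a - b ≠ 0 := sub_ne_zero.2 hne
      have hcoord : ∀ i, |(β.repr (a - b) i : ℝ)| ≤ ((ℓ - 1 : ℕ) : ℝ) := by
        intro i
        have h1 : (β.repr a i + X) / ℓ = (β.repr b i + X) / ℓ := congrFun hab i
        have h2 := Int.emod_add_mul_ediv (β.repr a i + X) ℓ
        have h3 := Int.emod_add_mul_ediv (β.repr b i + X) ℓ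
        have h4 := Int.emod_nonneg (β.repr a i + X) hℓz.ne'
        have h5 := Int.emod_nonneg (β.repr b i + X) hℓz.ne'
        have h6 := Int.emod_lt_of_pos (β.repr a i + X) hℓz
        have h7 := Int.emod_lt_of_pos (β.repr b i + X) hℓz
        have h8 : |β.repr (a - b) i| ≤ ((ℓ - 1 : ℕ) : ℤ) := by
          rw [map_sub, Finsupp.sub_apply]
          push_cast [Nat.cast_sub hℓ1]
          rw [h1] at h2
          rw [abs_le]
          constructor <;> linarith
        exact_mod_cast h8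
      have h9 := hN I (a - b) _ (I.sub_mem ha'.2.1 hb'.2.1) hsub (by positivity) hcoord
      have h10 : (B * ((ℓ - 1 : ℕ) : ℝ)) ^ n < (B * δ) ^ n := by
        gcongr
      rw [hδn] at h10
      linarith
  have hcard2 : (((box β X).filter fun a => a ∈ I ∧ a ≠ 0).card : ℝ) ≤ (3 * X / δ) ^ n := by
    have h1 : ((Fintype.piFinset fun _ : ι => Icc (0 : ℤ) ((2 * X : ℤ) / ℓ)).card : ℝ) ≤
        (3 * X / δ) ^ n := by
      rw [Fintype.card_piFinset]
      simp only [Int.card_Icc, prod_const, card_univ, sub_zero]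
      push_cast
      refine pow_le_pow_left₀ (by positivity) ?_ n
      have h2 : (0 : ℤ) ≤ (2 * X : ℤ) / ℓ := Int.ediv_nonneg (by positivity) hℓz.le
      have h3 : ((((2 * X : ℤ) / ℓ + 1).toNat : ℤ) : ℝ) = (((2 * X : ℤ) / ℓ + 1 : ℤ) : ℝ) := by
        rw [Int.toNat_of_nonneg (by linarith)]
      have h4 : ((((2 * X : ℤ) / ℓ : ℤ)) : ℝ) ≤ 2 * X / δ := by
        have h5 : (((2 * X : ℤ) / ℓ : ℤ) : ℝ) ≤ (2 * X : ℝ) / ℓ := by
          rw [le_div_iff₀ (by exact_mod_cast hℓ1)]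
          exact_mod_cast Int.ediv_mul_le (2 * X : ℤ) hℓz.ne'
        refine h5.trans ?_
        gcongr
      have h6 : (1 : ℝ) ≤ X / δ := by
        rw [le_div_iff₀ hδ0]
        linarith
      have h7 : ((((2 * X : ℤ) / ℓ + 1).toNat : ℕ) : ℝ) = (((2 * X : ℤ) / ℓ + 1 : ℤ) : ℝ) := by
        rw [← h3]
        push_cast
        rfl
      rw [h7]
      push_cast
      have h8 : 3 * (X : ℝ) / δ = 2 * X / δ + X / δ := by ring
      rw [h8]
      push_cast at h4
      linarith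
    refine le_trans ?_ h1
    exact_mod_cast hcard
  calc (((box β X).filter fun a => a ∈ I ∧ a ≠ 0).card : ℝ) * Ideal.absNorm I
      ≤ (3 * X / δ) ^ n * Ideal.absNorm I := by gcongr
    _ = (3 * X / δ) ^ n * (B * δ) ^ n := by rw [hδn]
    _ = (3 * B) ^ n * (X : ℝ) ^ n := by
        rw [← mul_pow, ← mul_pow]
        congr 1
        field_simp

/-- a bad prime outside `S` -/
def BadAt (S : Finset (HeightOneSpectrum (𝓞 K))) (a b : 𝓞 K) : Prop :=
  ∃ v : HeightOneSpectrum (𝓞 K), v ∉ S ∧ a ∈ v.asIdeal ^ 4 ∧ b ∈ v.asIdeal ^ 6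

/-- the tail of `∑ q^(-10)` -/
noncomputable def tau (S : Finset (HeightOneSpectrum (𝓞 K))) : ℝ :=
  ∑' v : HeightOneSpectrum (𝓞 K), ((nm v : ℝ) ^ 10)⁻¹ - ∑ v ∈ S, ((nm v : ℝ) ^ 10)⁻¹

theorem summable_ten : Summable fun v : HeightOneSpectrum (𝓞 K) => ((nm v : ℝ) ^ 10)⁻¹ := by
  have := nm_summable (K := K) (x := 10) (by norm_num)
  refine this.congr fun v => ?_
  rw [Real.rpow_neg (by positivity), ← Real.rpow_natCast]
  norm_num

theorem tau_tendsto : Tendsto (tau (K := K)) atTop (𝓝 0) := by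
  have := (summable_ten (K := K)).hasSum
  have h2 := this.const_sub (∑' v : HeightOneSpectrum (𝓞 K), ((nm v : ℝ) ^ 10)⁻¹)
  rw [sub_self] at h2
  exact h2

open Classical in
theorem tail_bound (β : Module.Basis ι ℤ (𝓞 K)) : ∃ C : ℝ, 0 ≤ C ∧
    ∀ (S : Finset (HeightOneSpectrum (𝓞 K))) (X Y : ℕ), 1 ≤ X → 1 ≤ Y →
      ((((box β X) ×ˢ (box β Y)).filter fun p => BadAt S p.1 p.2).card : ℝ) ≤
        C * tau S * ((box β X).card * (box β Y).card) + (box β X).card + (box β Y).card := by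
  obtain ⟨C, hC, h⟩ := card_ideal_box β
  refine ⟨C * C, by positivity, fun S X Y hX hY => ?_⟩
  -- finitely many primes
  have hfin : ∃ W : Finset (HeightOneSpectrum (𝓞 K)), ∀ a ∈ box β X, a ≠ 0 →
      ∀ v : HeightOneSpectrum (𝓞 K), a ∈ v.asIdeal → v ∈ W := by
    have h1 : (⋃ a ∈ {a : 𝓞 K | a ∈ box β X ∧ a ≠ 0}, {v : HeightOneSpectrum (𝓞 K) |
        a ∈ v.asIdeal}).Finite := by
      refine Set.Finite.biUnion ?_ fun a ha => Pool.Agent.H341R2.EC.finite_mem ha.2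
      exact (box β X).finite_toSet.subset fun a ha => ha.1
    refine ⟨h1.toFinset, fun a ha ha0 v hv => ?_⟩
    rw [Set.Finite.mem_toFinset]
    simp only [Set.mem_iUnion]
    exact ⟨a, ⟨ha, ha0⟩, hv⟩
  obtain ⟨W, hW⟩ := hfin
  set A : HeightOneSpectrum (𝓞 K) → Finset (𝓞 K) := fun v =>
    (box β X).filter fun a => a ∈ v.asIdeal ^ 4 ∧ a ≠ 0 with hA
  set A' : HeightOneSpectrum (𝓞 K) → Finset (𝓞 K) := fun v =>
    (box β Y).filter fun b => b ∈ v.asIdeal ^ 6 ∧ b ≠ 0 with hA'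
  have hsub : ((box β X) ×ˢ (box β Y)).filter (fun p => BadAt S p.1 p.2) ⊆
      ((W \ S).biUnion fun v => A v ×ˢ A' v) ∪ ((box β X) ×ˢ {0} ∪ {0} ×ˢ (box β Y)) := by
    intro p hp
    rw [mem_filter, mem_product] at hp
    obtain ⟨⟨h1, h2⟩, v, hv, h3, h4⟩ := hp
    simp only [mem_union, mem_biUnion, mem_product, mem_singleton]
    by_cases h5 : p.1 = 0
    · right; right
      exact ⟨h5, h2⟩
    by_cases h6 : p.2 = 0
    · right; left
      exact ⟨h1, h6⟩
    left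
    refine ⟨v, ?_, ?_, ?_⟩
    · rw [Finset.mem_sdiff]
      exact ⟨hW _ h1 h5 v (Ideal.pow_le_self (by norm_num) h3), hv⟩
    · rw [hA, mem_filter]
      exact ⟨h1, h3, h5⟩
    · rw [hA', mem_filter]
      exact ⟨h2, h4, h6⟩
  have hXn : (X : ℝ) ^ Fintype.card ι ≤ (box β X).card := by
    rw [card_box]
    push_cast
    gcongr
    linarith [(Nat.cast_nonneg X : (0 : ℝ) ≤ X)]
  have hYn : (Y : ℝ) ^ Fintype.card ι ≤ (box β Y).card := by
    rw [card_box]
    push_cast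
    gcongr
    linarith [(Nat.cast_nonneg Y : (0 : ℝ) ≤ Y)]
  have hv : ∀ v : HeightOneSpectrum (𝓞 K), ((A v ×ˢ A' v).card : ℝ) ≤
      (C * C * ((box β X).card * (box β Y).card)) * ((nm v : ℝ) ^ 10)⁻¹ := by
    intro v
    have hq : (0 : ℝ) < nm v := by
      have := two_le_nm v
      exact_mod_cast (by omega : 0 < nm v)
    have hb : ∀ m : ℕ, v.asIdeal ^ m ≠ ⊥ := fun m => pow_ne_zero m v.ne_bot
    have e1 := h (v.asIdeal ^ 4) X hX (hb 4)
    have e2 := h (v.asIdeal ^ 6) Y hY (hb 6)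
    rw [map_pow] at e1 e2
    push_cast at e1 e2
    have e3 : ((A v).card : ℝ) * (nm v : ℝ) ^ 4 ≤ C * (box β X).card := e1.trans (by gcongr)
    have e4 : ((A' v).card : ℝ) * (nm v : ℝ) ^ 6 ≤ C * (box β Y).card := e2.trans (by gcongr)
    rw [card_product, ← div_eq_mul_inv, le_div_iff₀ (by positivity)]
    push_cast
    calc ((A v).card : ℝ) * (A' v).card * (nm v : ℝ) ^ 10
        = (((A v).card : ℝ) * (nm v : ℝ) ^ 4) * (((A' v).card : ℝ) * (nm v : ℝ) ^ 6) := by ring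
      _ ≤ (C * (box β X).card) * (C * (box β Y).card) := by gcongr
      _ = _ := by ring
  have hsum : ∑ v ∈ W \ S, ((nm v : ℝ) ^ 10)⁻¹ ≤ tau S := by
    unfold tau
    have h1 : ∑ v ∈ W \ S, ((nm v : ℝ) ^ 10)⁻¹ + ∑ v ∈ S, ((nm v : ℝ) ^ 10)⁻¹ ≤
        ∑' v : HeightOneSpectrum (𝓞 K), ((nm v : ℝ) ^ 10)⁻¹ := by
      rw [← sum_union sdiff_disjoint]
      exact summable_ten.sum_le_tsum _ fun _ _ => by positivity
    linarith
  have h1 := card_le_card hsub
  have h2 : (((W \ S).biUnion fun v => A v ×ˢ A' v).card : ℝ) ≤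
      C * C * tau S * ((box β X).card * (box β Y).card) := by
    have e1 : (((W \ S).biUnion fun v => A v ×ˢ A' v).card : ℝ) ≤
        ∑ v ∈ W \ S, ((A v ×ˢ A' v).card : ℝ) := by
      exact_mod_cast card_biUnion_le
    refine e1.trans ((sum_le_sum fun v _ => hv v).trans ?_)
    rw [← mul_sum]
    calc C * C * ((box β X).card * (box β Y).card : ℝ) * ∑ v ∈ W \ S, ((nm v : ℝ) ^ 10)⁻¹
        ≤ C * C * ((box β X).card * (box β Y).card : ℝ) * tau S := by gcongr
      _ = _ := by ring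
  have h3 : ((((box β X) ×ˢ (box β Y)).filter fun p => BadAt S p.1 p.2).card : ℝ) ≤
      (((W \ S).biUnion fun v => A v ×ˢ A' v).card : ℝ) + ((box β X).card + (box β Y).card) := by
    have e1 := h1.trans ((card_union_le _ _).trans (Nat.add_le_add_left (card_union_le _ _) _))
    rw [card_product, card_product, card_singleton, mul_one, one_mul] at e1
    exact_mod_cast e1
  linarith

end Pool.Agent.P8H18.MF
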